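import Pool.Agent.Lib.MP_570bef_ntF.Defs

/-! JOB Asy.  Choice of `N`.  `k = j + 1`, `W := C2 k ^ (2^j) * 2^(j^2)` (a positive integer), `4 W^2 ≤ q`.

Raise the claim to the power `2^j` (`pow_le_one_iff_of_nonneg` / `le_of_pow_le_pow_left₀`): with `c' := 3(j+1)c0 + c0 + (j+1)^2 + 1` it suffices that
`(8(j+1))^(2^j) * (C2^(N+c0+1))^(2^j) * (q^c')^(2^j) * ((j+1) 2^(j²N+2jc0) q^((j+2)c0)) ≤ q^(N/2)`.
The left side is `Const * W^N` with `Const := (8(j+1))^(2^j) * C2^((c0+1) 2^j) * q^(c' 2^j) * (j+1) * 2^(2 j c0) * q^((j+2) c0)` (independent of `N`).  `(2W)^2 ≤ q` gives `(2W)^N ≤ (2W)^(2 (N/2) + 1) ≤ q^(N/2) * (2W)`, so `q^(N/2) ≥ (2W)^N / (2W) = 2^N W^N / (2 W)`.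
So it suffices that `2 W * Const ≤ 2^N`, true for all `N ≥ N0 := 2 W * Const` (ceiling; everything is a natural number, `N < 2^N`). -/

open Polynomial MP_570bef_ntF

namespace MP_1ad228_ntD

private theorem Asy_nat (W K0 q N : ℕ) (hW : 1 ≤ W) (hq : 4 * W ^ 2 ≤ q) (hN : 2 * W * K0 ≤ N) :
    K0 * W ^ N ≤ q ^ (N / 2) := by
  have h1 : (2 * W) ^ N ≤ q ^ (N / 2) * (2 * W) := by
    calc (2 * W) ^ N ≤ (2 * W) ^ (2 * (N / 2) + 1) :=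
          Nat.pow_le_pow_right (by omega) (by omega)
      _ = (4 * W ^ 2) ^ (N / 2) * (2 * W) := by
          rw [pow_succ, pow_mul]
          congr 2
          ring
      _ ≤ q ^ (N / 2) * (2 * W) := Nat.mul_le_mul_right _ (Nat.pow_le_pow_left hq _)
  have h2 : 2 * W * K0 ≤ 2 ^ N := hN.trans (Nat.lt_two_pow_self).le
  have h3 : (2 * W) * (K0 * W ^ N) ≤ (2 * W) * q ^ (N / 2) := by
    calc (2 * W) * (K0 * W ^ N) = (2 * W * K0) * W ^ N := by ring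
      _ ≤ 2 ^ N * W ^ N := Nat.mul_le_mul_right _ h2
      _ = (2 * W) ^ N := by rw [mul_pow]
      _ ≤ q ^ (N / 2) * (2 * W) := h1
      _ = (2 * W) * q ^ (N / 2) := by ring
  exact Nat.le_of_mul_le_mul_left h3 (by omega)

theorem asy (j q c0 : ℕ) (hj : 1 ≤ j) (hq : 4 * (C2 (j + 1) ^ (2 ^ j) * 2 ^ (j ^ 2)) ^ 2 ≤ q) :
    ∃ N0 : ℕ, ∀ N ≥ N0, ∀ φ : ℝ, 0 ≤ φ →
      φ ^ (2 ^ j) ≤ ((j : ℝ) + 1) * 2 ^ (j ^ 2 * N + 2 * j * c0) * (q : ℝ) ^ ((j + 2) * c0) / (q : ℝ) ^ (N / 2) →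
      8 * ((j : ℝ) + 1) * φ *
        ((C2 (j + 1) : ℝ) ^ (N + c0 + 1) * (q : ℝ) ^ (3 * (j + 1) * c0 + c0 + (j + 1) ^ 2 + 1)) ≤ 1 := by
  have hC2 : 1 ≤ C2 (j + 1) := by
    unfold C2 C1
    apply Nat.one_le_iff_ne_zero.mpr
    positivity
  set D : ℕ := C2 (j + 1) with hD
  set W : ℕ := D ^ (2 ^ j) * 2 ^ (j ^ 2) with hWdef
  set e : ℕ := 3 * (j + 1) * c0 + c0 + (j + 1) ^ 2 + 1 with he
  have hW : 1 ≤ W := by
    rw [hWdef]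
    apply Nat.one_le_iff_ne_zero.mpr
    positivity
  have hq1 : 1 ≤ q := by nlinarith
  set K0 : ℕ := (8 * (j + 1)) ^ (2 ^ j) * D ^ ((c0 + 1) * 2 ^ j) * q ^ (e * 2 ^ j) * (j + 1) *
    2 ^ (2 * j * c0) * q ^ ((j + 2) * c0) with hK0
  refine ⟨2 * W * K0, ?_⟩
  intro N hN φ hφ hφle
  have hnat := Asy_nat W K0 q N hW hq hN
  have hreal : (K0 : ℝ) * (W : ℝ) ^ N ≤ (q : ℝ) ^ (N / 2) := by exact_mod_cast hnat
  have hq0 : (0 : ℝ) < (q : ℝ) := by exact_mod_cast hq1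
  have hqN : (0 : ℝ) < (q : ℝ) ^ (N / 2) := by positivity
  have hT0 : 0 ≤ 8 * ((j : ℝ) + 1) * φ * ((D : ℝ) ^ (N + c0 + 1) * (q : ℝ) ^ e) := by positivity
  have hpow : (8 * ((j : ℝ) + 1) * φ * ((D : ℝ) ^ (N + c0 + 1) * (q : ℝ) ^ e)) ^ (2 ^ j) ≤ 1 := by
    calc (8 * ((j : ℝ) + 1) * φ * ((D : ℝ) ^ (N + c0 + 1) * (q : ℝ) ^ e)) ^ (2 ^ j)
        = φ ^ (2 ^ j) * ((8 * ((j : ℝ) + 1)) ^ (2 ^ j) *
            ((D : ℝ) ^ ((N + c0 + 1) * 2 ^ j) * (q : ℝ) ^ (e * 2 ^ j))) := by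
          rw [mul_pow, mul_pow (8 * ((j : ℝ) + 1)) φ, mul_pow ((D : ℝ) ^ (N + c0 + 1)), ← pow_mul,
            ← pow_mul]
          ring
      _ ≤ (((j : ℝ) + 1) * 2 ^ (j ^ 2 * N + 2 * j * c0) * (q : ℝ) ^ ((j + 2) * c0) /
            (q : ℝ) ^ (N / 2)) * ((8 * ((j : ℝ) + 1)) ^ (2 ^ j) *
            ((D : ℝ) ^ ((N + c0 + 1) * 2 ^ j) * (q : ℝ) ^ (e * 2 ^ j))) := by
          apply mul_le_mul_of_nonneg_right hφle
          positivity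
      _ = (K0 : ℝ) * (W : ℝ) ^ N / (q : ℝ) ^ (N / 2) := by
          rw [hK0, hWdef]
          push_cast
          have h1 : (D : ℝ) ^ ((N + c0 + 1) * 2 ^ j) =
              ((D : ℝ) ^ (2 ^ j)) ^ N * (D : ℝ) ^ ((c0 + 1) * 2 ^ j) := by
            rw [← pow_mul, ← pow_add]
            congr 1
            ring
          have h2 : (2 : ℝ) ^ (j ^ 2 * N + 2 * j * c0) =
              ((2 : ℝ) ^ (j ^ 2)) ^ N * 2 ^ (2 * j * c0) := by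
            rw [← pow_mul, ← pow_add]
          rw [h1, h2, mul_pow ((D : ℝ) ^ 2 ^ j)]
          ring
      _ ≤ 1 := by
          rw [div_le_one hqN]
          exact hreal
  exact (pow_le_one_iff_of_nonneg hT0 (by positivity)).mp hpow

end MP_1ad228_ntD
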