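import Pool.Agent.Lib.MP_1ad228_ntD.Defs

/-! JOB Tay.  Expansion of `g(y + v)` under a functional, and the degree of `g`.

`gg_add`: `l_j (y+v)^j = l_j y^j + j l_j y^(j-1) v + ∑_{i=2}^{j} C(j,i) l_j y^(j-i) v^i` (`add_pow`; split off `i = 0, 1`), apply `A` (linear; the binomial
coefficient is a natural number: `map_nsmul`), all terms with `i ≥ 2` vanish by hypothesis.  (Suggestion: prove for each `j ≥ 1`
`A (l j * (y+v)^j) = A (l j * y^j) + A ((j : K[X]) * l j * y^(j-1) * v)`; `add_pow` gives `∑ i ∈ range (j+1), v^i * y^(j-i) * C(j,i)` for `(v + y)^j`; `Finset.sum_range_succ'` twice.)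
`gg_deg`: every term `l_j y^j` has degree at most `natDegree l_j + j * m ≤ E`.
`dg_deg`: the term `j l_j y^(j-1)` has degree at most `natDegree l_j + (j-1) m ≤ E - m`  (`(natDegree l_j + j m ≤ E)`, `j ≥ 1`).
`gg_zero`: `j ≥ 1` so `0 ^ j = 0`. -/

open Polynomial MP_570bef_ntF

namespace MP_1ad228_ntD

variable {K : Type} [Field K]

private theorem Tay_term (A : K[X] →ₗ[K] K) (j : ℕ) (hj : 1 ≤ j) (c y v : K[X])
    (h : ∀ i, 2 ≤ i → i ≤ j → A (c * y ^ (j - i) * v ^ i) = 0) :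
    A (c * (y + v) ^ j) = A (c * y ^ j) + A ((j : K[X]) * c * y ^ (j - 1) * v) := by
  obtain ⟨n, rfl⟩ := Nat.exists_eq_add_of_le' hj
  rw [add_comm y v, add_pow, Finset.sum_range_succ', Finset.sum_range_succ', mul_add, mul_add,
    map_add, map_add]
  have h0 : A (c * ∑ i ∈ Finset.range n,
      v ^ (i + 1 + 1) * y ^ (n + 1 - (i + 1 + 1)) * ((n + 1).choose (i + 1 + 1) : K[X])) = 0 := by
    rw [Finset.mul_sum, map_sum]
    refine Finset.sum_eq_zero fun i hi => ?_
    have e : c * (v ^ (i + 1 + 1) * y ^ (n + 1 - (i + 1 + 1)) *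
        ((n + 1).choose (i + 1 + 1) : K[X])) =
        ((n + 1).choose (i + 1 + 1)) • (c * y ^ (n + 1 - (i + 1 + 1)) * v ^ (i + 1 + 1)) := by
      rw [nsmul_eq_mul]
      ring
    rw [e, map_nsmul, h _ (by omega) (by have := Finset.mem_range.1 hi; omega), nsmul_zero]
  rw [h0, zero_add, add_comm]
  congr 1
  · congr 1
    simp
  · congr 1
    simp only [zero_add, pow_one, Nat.choose_one_right, Nat.add_sub_cancel]
    ring

theorem gg_add (k : ℕ) (l : ℕ → K[X]) (A : K[X] →ₗ[K] K) (y v : K[X])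
    (h : ∀ j, 2 ≤ j → j ≤ k → ∀ i, 2 ≤ i → i ≤ j → A (l j * y ^ (j - i) * v ^ i) = 0) :
    A (gg k l (y + v)) = A (gg k l y) + A (dg k l y * v) := by
  unfold gg dg
  rw [map_sum, map_sum, Finset.sum_mul, map_sum, ← Finset.sum_add_distrib]
  refine Finset.sum_congr rfl fun j hj => ?_
  rw [Finset.mem_Icc] at hj
  refine Tay_term A j hj.1 (l j) y v fun i hi hij => ?_
  exact h j (hi.trans hij) hj.2 i hi hij

theorem gg_zero (k : ℕ) (l : ℕ → K[X]) : gg k l (0 : K[X]) = 0 := by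
  unfold gg
  refine Finset.sum_eq_zero fun j hj => ?_
  rw [Finset.mem_Icc] at hj
  rw [zero_pow (by omega), mul_zero]

theorem gg_deg (k m E : ℕ) (l : ℕ → K[X]) (h : ∀ j, 1 ≤ j → j ≤ k → (l j).natDegree + j * m ≤ E)
    (y : K[X]) (hy : y.natDegree ≤ m) : (gg k l y).natDegree ≤ E := by
  unfold gg
  refine natDegree_sum_le_of_forall_le _ _ fun j hj => ?_
  rw [Finset.mem_Icc] at hj
  refine natDegree_mul_le.trans ?_
  have h1 : (y ^ j).natDegree ≤ j * m := natDegree_pow_le.trans (Nat.mul_le_mul_left j hy)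
  have h2 := h j hj.1 hj.2
  omega

theorem dg_deg (k m E : ℕ) (l : ℕ → K[X]) (h : ∀ j, 1 ≤ j → j ≤ k → (l j).natDegree + j * m ≤ E)
    (y : K[X]) (hy : y.natDegree ≤ m) : (dg k l y).natDegree ≤ E - m := by
  unfold dg
  refine natDegree_sum_le_of_forall_le _ _ fun j hj => ?_
  rw [Finset.mem_Icc] at hj
  refine natDegree_mul_le.trans ?_
  have h1 : (y ^ (j - 1)).natDegree ≤ (j - 1) * m :=
    natDegree_pow_le.trans (Nat.mul_le_mul_left _ hy)
  have h2 := h j hj.1 hj.2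
  have h3 : ((j : K[X]) * l j).natDegree ≤ (l j).natDegree := by
    refine natDegree_mul_le.trans ?_
    rw [natDegree_natCast, zero_add]
  have h4 : (j - 1) * m + m = j * m := by
    obtain ⟨n, rfl⟩ := Nat.exists_eq_add_of_le' hj.1
    rw [Nat.add_sub_cancel]
    ring
  omega

end MP_1ad228_ntD
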