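import Pool.Agent.Lib.MP_570bef_ntF.FoA
import Pool.Agent.Lib.MP_1ad228_ntD.Tay

/-! JOB Ct.  The counting formula.  `∏_i fs ψ k (l i) (m i) (lin c) = ∑_{y ∈ ∏ SS (m i)} ψ (lin c (∑_i gg k (l i) (y i)))` (`Finset.prod_univ_sum`, `AddChar.map_sum_eq_prod`, `lin c` linear),
times `ψ (lin c G0)` (`AddChar.map_add_eq_mul`), sum over `c`, exchange, `orth` with `F := G0 + ∑_i gg k (l i) (y i)` (`natDegree F ≤ E` : `gg_deg`). -/

open Polynomial MP_570bef_ntF

namespace MP_1ad228_ntD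

variable {K : Type} [Field K] [Fintype K]

omit [Fintype K] in
private theorem Ct_sum (ψ : AddChar K ℂ) {κ : Type} (t : Finset κ) (f : κ → K) :
    ψ (∑ i ∈ t, f i) = ∏ i ∈ t, ψ (f i) := by
  classical
  induction t using Finset.induction_on with
  | empty => rw [Finset.sum_empty, Finset.prod_empty, AddChar.map_zero_eq_one]
  | insert a t ha ih => rw [Finset.sum_insert ha, Finset.prod_insert ha, AddChar.map_add_eq_mul, ih]

open Classical in
theorem count_sys {ψ : AddChar K ℂ} (hψ : ψ ≠ 1) (s k E : ℕ) (l : Fin s → ℕ → K[X]) (m : Fin s → ℕ)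
    (hdeg : ∀ i j, 1 ≤ j → j ≤ k → (l i j).natDegree + j * m i ≤ E) (G0 : K[X]) (hG0 : G0.natDegree ≤ E) :
    ∑ c : Fin (E + 1) → K, ψ (lin c G0) * ∏ i, fs ψ k (l i) (m i) (lin c) =
      (Fintype.card K : ℂ) ^ (E + 1) *
        (((Fintype.piFinset (fun i : Fin s => SS K (m i))).filter
          (fun y => G0 + ∑ i, gg k (l i) (y i) = 0)).card : ℂ) := by
  have h1 : ∀ c : Fin (E + 1) → K, ψ (lin c G0) * ∏ i, fs ψ k (l i) (m i) (lin c) =
      ∑ y ∈ Fintype.piFinset (fun i : Fin s => SS K (m i)),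
        ψ (lin c (G0 + ∑ i, gg k (l i) (y i))) := by
    intro c
    unfold fs
    rw [Finset.prod_univ_sum, Finset.mul_sum]
    refine Finset.sum_congr rfl fun y _ => ?_
    rw [map_add, map_sum, AddChar.map_add_eq_mul, Ct_sum]
  rw [Finset.sum_congr rfl fun c _ => h1 c, Finset.sum_comm]
  have h2 : ∀ y ∈ Fintype.piFinset (fun i : Fin s => SS K (m i)),
      ∑ c : Fin (E + 1) → K, ψ (lin c (G0 + ∑ i, gg k (l i) (y i))) =
        if G0 + ∑ i, gg k (l i) (y i) = 0 then (Fintype.card K : ℂ) ^ (E + 1) else 0 := by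
    intro y hy
    rw [Fintype.mem_piFinset] at hy
    refine orth hψ E _ ?_
    refine (Polynomial.natDegree_add_le _ _).trans (max_le hG0 ?_)
    refine Polynomial.natDegree_sum_le_of_forall_le _ _ fun i _ => ?_
    exact gg_deg k (m i) E (l i) (hdeg i) (y i) (mem_SS.1 (hy i))
  rw [Finset.sum_congr rfl h2, ← Finset.sum_filter, Finset.sum_const, nsmul_eq_mul, mul_comm]

end MP_1ad228_ntD
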