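import Mathlib

/-! JOB HiS.  The sum over the functionals of high rank (real numbers only).

High rank: `∏_{i ≥ 1} φ_i ≤ max^(2k) ≤ ∑_{i ≥ 1} φ_i^(2k)`, `∏_i φ_i ≤ σ * ∑_{i ≠ 0} φ_i ^ (2k)` (`Fin.prod_univ_succ`; `2k` factors `φ (Fin.succ i)`; each `≤ (∑ φ_i^(2k))^(1/(2k))`, or take the maximal one: `Finset.exists_max_image`), then sum over `S ⊆ univ`. -/

namespace MP_1ad228_ntD

private theorem HiS_prod (k : ℕ) (hk : 1 ≤ k) (x : Fin (2 * k) → ℝ) (hx : ∀ i, 0 ≤ x i) :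
    ∏ i, x i ≤ ∑ i, x i ^ (2 * k) := by
  obtain ⟨i0, _, hi0⟩ := Finset.exists_max_image Finset.univ x
    ⟨(⟨0, by omega⟩ : Fin (2 * k)), Finset.mem_univ _⟩
  calc ∏ i, x i ≤ ∏ _i : Fin (2 * k), x i0 :=
        Finset.prod_le_prod (fun i _ => hx i) (fun i hi => hi0 i hi)
    _ = x i0 ^ (2 * k) := by rw [Finset.prod_const, Finset.card_univ, Fintype.card_fin]
    _ ≤ ∑ i, x i ^ (2 * k) :=
        Finset.single_le_sum (f := fun i => x i ^ (2 * k)) (fun i _ => pow_nonneg (hx i) _)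
          (Finset.mem_univ i0)

theorem high_sum (k : ℕ) (hk : 1 ≤ k) {Γ : Type} [Fintype Γ] (φ : Fin (2 * k + 1) → Γ → ℝ)
    (hφ0 : ∀ i c, 0 ≤ φ i c) (S : Finset Γ) (σ B : ℝ) (hσ : 0 ≤ σ) (hsup : ∀ c ∈ S, φ 0 c ≤ σ)
    (hB : ∀ i, ∑ c, φ i c ^ (2 * k) ≤ B) :
    ∑ c ∈ S, ∏ i, φ i c ≤ 2 * k * σ * B := by
  calc ∑ c ∈ S, ∏ i, φ i c ≤ ∑ c ∈ S, σ * ∑ i : Fin (2 * k), φ i.succ c ^ (2 * k) := by
        apply Finset.sum_le_sum
        intro c hc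
        rw [Fin.prod_univ_succ]
        exact mul_le_mul (hsup c hc) (HiS_prod k hk _ (fun i => hφ0 _ c))
          (Finset.prod_nonneg (fun i _ => hφ0 _ c)) hσ
    _ ≤ ∑ c, σ * ∑ i : Fin (2 * k), φ i.succ c ^ (2 * k) := by
        apply Finset.sum_le_sum_of_subset_of_nonneg (Finset.subset_univ S)
        intro c _ _
        exact mul_nonneg hσ (Finset.sum_nonneg (fun i _ => pow_nonneg (hφ0 _ c) _))
    _ = σ * ∑ i : Fin (2 * k), ∑ c, φ i.succ c ^ (2 * k) := by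
        rw [← Finset.mul_sum, Finset.sum_comm]
    _ ≤ σ * ∑ _i : Fin (2 * k), B := by
        apply mul_le_mul_of_nonneg_left _ hσ
        exact Finset.sum_le_sum (fun i _ => hB _)
    _ = 2 * k * σ * B := by
        rw [Finset.sum_const, Finset.card_univ, Fintype.card_fin, nsmul_eq_mul]
        push_cast
        ring

end MP_1ad228_ntD
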