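import Pool.Agent.Lib.MP_570bef_ntF.Base

/-! JOB Per.  Sums of `b`-periodic functions over `SS K n`.  `b` monic of degree `r ≥ 1`, `h (x + b z) = h x` for all `x, z`.

`sum_per`: every `x ∈ SS K n` is uniquely `x' + b * z`, `x' = x %ₘ b ∈ SS K (r-1)` (`Polynomial.natDegree_modByMonic_lt` / `degree_modByMonic_lt`), `z = x /ₘ b`.  If `n + 1 = r` the claim is trivial (`q^0 = 1`).  If `n ≥ r`: `z` runs through `SS K (n - r)` (`q^(n-r+1)` elements,
`n - r + 1 = n + 1 - r`): `∑_{x ∈ SS n} h x = ∑_{x' ∈ SS (r-1)} ∑_{z ∈ SS (n-r)} h (x' + b z)` (`Finset.sum_bij'`/`Finset.sum_nbij'` from the product; `(x' + b z) %ₘ b = x'`, `/ₘ b = z`: `Polynomial.div_modByMonic_unique`), and `card_SS`.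
`sum_subst`: the map `x ↦ (w + M * x) %ₘ b` sends `SS K (r-1)` to itself, and it is injective: `M (x - y)` divisible by `b` gives `b ∣ x - y` (`IsCoprime b M`), so `x = y` by degrees (`natDegree (x - y) ≤ r - 1 < r`); so it is a bijection of the finite set
`SS K (r-1)` (`Finset.sum_bij` with `Finset.surj_on_of_inj_on_of_card_le`, or `Finset.sum_nbij` and `Finset.eq_of_subset_of_card_le`), and `h (w + M x) = h ((w + M x) %ₘ b)` by periodicity (`Polynomial.modByMonic_add_div`). -/

open Polynomial MP_570bef_ntF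

namespace MP_1ad228_ntD

variable {K : Type} [Field K] [Fintype K]

private theorem Per_mod {b : K[X]} (hb : b.Monic) (hb1 : 1 ≤ b.natDegree) (x : K[X]) :
    x %ₘ b ∈ SS K (b.natDegree - 1) := by
  rw [mem_SS]
  have h1 : b ≠ 1 := by
    rintro rfl
    rw [natDegree_one] at hb1
    omega
  have h2 := natDegree_modByMonic_lt x hb h1
  omega

theorem sum_per (b : K[X]) (hb : b.Monic) (hb1 : 1 ≤ b.natDegree) (h : K[X] → ℂ)
    (hper : ∀ x z : K[X], h (x + b * z) = h x) (n : ℕ) (hn : b.natDegree ≤ n + 1) :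
    ∑ x ∈ SS K n, h x = (Fintype.card K : ℂ) ^ (n + 1 - b.natDegree) * ∑ x ∈ SS K (b.natDegree - 1), h x := by
  rcases Nat.eq_or_lt_of_le hn with h1 | h1
  · have h2 : b.natDegree - 1 = n := by omega
    rw [h2, h1, Nat.sub_self, pow_zero, one_mul]
  · have h2 : ∑ x ∈ SS K n, h x =
        ∑ p ∈ SS K (b.natDegree - 1) ×ˢ SS K (n - b.natDegree), h p.1 := by
      refine Finset.sum_nbij' (fun x => (x %ₘ b, x /ₘ b)) (fun p => p.1 + b * p.2) ?_ ?_ ?_ ?_ ?_
      · intro x hx
        rw [Finset.mem_product]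
        refine ⟨Per_mod hb hb1 x, ?_⟩
        rw [mem_SS] at hx ⊢
        change (x /ₘ b).natDegree ≤ _
        rw [natDegree_divByMonic x hb]
        omega
      · rintro ⟨x, z⟩ hp
        rw [Finset.mem_product, mem_SS, mem_SS] at hp
        obtain ⟨h3, h4⟩ := hp
        simp only at h3 h4
        rw [mem_SS]
        refine (natDegree_add_le _ _).trans (max_le (by simp only; omega) ?_)
        refine natDegree_mul_le.trans ?_
        simp only
        omega
      · intro x _
        exact modByMonic_add_div x b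
      · rintro ⟨x, z⟩ hp
        rw [Finset.mem_product, mem_SS, mem_SS] at hp
        obtain ⟨h3, h4⟩ := hp
        simp only at h3 h4
        have h5 : degree x < degree b := by
          refine lt_of_le_of_lt degree_le_natDegree ?_
          rw [degree_eq_natDegree hb.ne_zero]
          exact_mod_cast (by omega)
        have h6 := div_modByMonic_unique z x hb ⟨rfl, h5⟩
        exact Prod.ext h6.2 h6.1
      · intro x _
        have h3 := hper (x %ₘ b) (x /ₘ b)
        rw [modByMonic_add_div x b] at h3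
        exact h3
    rw [h2, Finset.sum_product]
    simp only [Finset.sum_const, card_SS, nsmul_eq_mul]
    rw [← Finset.mul_sum]
    have h3 : n - b.natDegree + 1 = n + 1 - b.natDegree := by omega
    rw [h3]
    push_cast
    rfl

theorem sum_subst (b : K[X]) (hb : b.Monic) (hb1 : 1 ≤ b.natDegree) (h : K[X] → ℂ)
    (hper : ∀ x z : K[X], h (x + b * z) = h x) (w M : K[X]) (hM : IsCoprime b M) :
    ∑ x ∈ SS K (b.natDegree - 1), h (w + M * x) = ∑ x ∈ SS K (b.natDegree - 1), h x := by
  have hmaps : Set.MapsTo (fun x => (w + M * x) %ₘ b) (SS K (b.natDegree - 1) : Set K[X])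
      (SS K (b.natDegree - 1) : Set K[X]) := fun x _ => Per_mod hb hb1 _
  have hinj : Set.InjOn (fun x => (w + M * x) %ₘ b) (SS K (b.natDegree - 1) : Set K[X]) := by
    intro x hx y hy hxy
    have hx' := mem_SS.1 (Finset.mem_coe.1 hx)
    have hy' := mem_SS.1 (Finset.mem_coe.1 hy)
    simp only at hxy
    have h1 := modByMonic_add_div (w + M * x) b
    have h2 := modByMonic_add_div (w + M * y) b
    have h3 : b ∣ M * (x - y) := by
      refine ⟨(w + M * x) /ₘ b - (w + M * y) /ₘ b, ?_⟩
      rw [hxy] at h1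
      linear_combination h2 - h1
    have h4 : b ∣ x - y := hM.dvd_of_dvd_mul_left h3
    have h5 : x - y = 0 := by
      by_contra h6
      have h7 := natDegree_le_of_dvd h4 h6
      have h8 := natDegree_sub_le x y
      have h9 : max x.natDegree y.natDegree ≤ b.natDegree - 1 := max_le hx' hy'
      omega
    exact sub_eq_zero.1 h5
  refine Finset.sum_nbij (fun x => (w + M * x) %ₘ b) (fun x hx => hmaps hx) hinj
    (Finset.surjOn_of_injOn_of_card_le _ hmaps hinj le_rfl) ?_
  intro x _
  have h1 := hper ((w + M * x) %ₘ b) ((w + M * x) /ₘ b)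
  rw [modByMonic_add_div] at h1
  exact h1

end MP_1ad228_ntD
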