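import Pool.Agent.Lib.MP_570bef_ntF.CFc

/-! JOB RhB.  The functional modulo `b`.  `b` monic of degree `r`, `(b, r)` a killing form of `A` on degree `≤ E`.

`modF A b := A ∘ (· %ₘ b)` (`Polynomial.modByMonicHom b : K[X] →ₗ[K] K[X]`).
`modF_mul`: `(b * z) %ₘ b = 0`.
`modF_eq`: `F = F %ₘ b + b * (F /ₘ b)` (`modByMonic_add_div`), and `A (b * (F /ₘ b)) = 0`: either `F /ₘ b = 0` or `natDegree (F /ₘ b) + r = natDegree F ≤ E` (`Polynomial.natDegree_divByMonic`; `F /ₘ b ≠ 0` iff `degree b ≤ degree F`, `Polynomial.divByMonic_eq_zero_iff`).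
`rho_modF`.  `A' := mulF (modF A b) P`, `A' z = modF A b (P * z)`.  Witness of rank `r`: `b` itself: `A' (b z) = modF A b (b * (P z)) = 0`.  Minimality: let `e < r`, `G ≠ 0`, `natDegree G ≤ e`, and suppose `Kill A' (k r) G e`.
`form_gcd`, `kill_gcd` for `y := G` (`Y := e`), `b` (`m := r`), `D := k r`: `e + r ≤ k r + 1 + e'` (`k ≥ 2`): there is `G0 ≠ 0`, `G = G0 y'`, `b = G0 b'`, `e' = natDegree G0` (because `b` has exact degree `r`), `e' ≤ e < r`, and `Kill A' (k r) G0 e'`.
(a) `modF A b (P * (G0 * z)) = 0` for ALL `z`: `z = z %ₘ b + b * (z /ₘ b)`, `natDegree (z %ₘ b) ≤ r - 1`, `(r-1) + e' ≤ k r`, the rest is a multiple of `b`.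
(b) `modF A b (G0 * z) = 0` for all `z`: `IsCoprime b P` gives `u b + v P = 1`; `G0 z = P * (G0 * (v z)) + b * (u G0 z)`.
(c) So `A (G0 * z) = modF A b (G0 * z) = 0` whenever `natDegree z + e' ≤ E` (`modF_eq`, `natDegree (G0 z) ≤ E`): `Kill A E G0 e'`, `e' < r`: contradiction with `hρ.2`. -/

open Polynomial MP_570bef_ntF

namespace MP_1ad228_ntD

variable {K : Type} [Field K]

/-- the functional `F ↦ A (F mod b)` -/
noncomputable def modF (A : K[X] →ₗ[K] K) (b : K[X]) : K[X] →ₗ[K] K :=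
  A ∘ₗ (Polynomial.modByMonicHom b)

theorem modF_mul (A : K[X] →ₗ[K] K) (b : K[X]) (hb : b.Monic) (z : K[X]) : modF A b (b * z) = 0 := by
  show A ((b * z) %ₘ b) = 0
  rw [(modByMonic_eq_zero_iff_dvd hb).2 (dvd_mul_right b z), map_zero]

theorem modF_eq (A : K[X] →ₗ[K] K) (E : ℕ) (b : K[X]) (hb : b.Monic) (hkill : Kill A E b b.natDegree)
    (F : K[X]) (hF : F.natDegree ≤ E) : modF A b F = A F := by
  show A (F %ₘ b) = A F
  have h1 : A F = A (F %ₘ b) + A (b * (F /ₘ b)) := by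
    rw [← map_add, modByMonic_add_div F b]
  have h2 : A (b * (F /ₘ b)) = 0 := by
    by_cases h0 : F /ₘ b = 0
    · rw [h0, mul_zero, map_zero]
    · apply hkill
      have h3 := natDegree_divByMonic F hb
      have h4 : b.natDegree ≤ F.natDegree := by
        by_contra h5
        apply h0
        rw [divByMonic_eq_zero_iff hb]
        exact degree_lt_degree (by omega)
      omega
  rw [h1, h2, add_zero]

theorem rho_modF (A : K[X] →ₗ[K] K) (E k : ℕ) (hk : 2 ≤ k) (b : K[X]) (hb : b.Monic)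
    (hρ : IsRho A E b.natDegree) (hkill : Kill A E b b.natDegree) (P : K[X]) (hP : IsCoprime b P) :
    IsRho (mulF (modF A b) P) (k * b.natDegree) b.natDegree := by
  have hb0 : b ≠ 0 := hb.ne_zero
  obtain ⟨r, hr⟩ : ∃ r, r = b.natDegree := ⟨_, rfl⟩
  rw [← hr] at hρ hkill ⊢
  have hkb : Kill (mulF (modF A b) P) (k * r) b r := by
    intro z _
    rw [mulF_apply, show P * (b * z) = b * (P * z) by ring]
    exact modF_mul A b hb _
  refine ⟨⟨b, hb0, hr.ge, hkb⟩, ?_⟩
  intro e he G hG hGe hK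
  obtain ⟨G0, y', b', e', hG0, hG0e, h1, h2, h3, h4, h5, h6, h7⟩ :=
    form_gcd hG hb0 hGe hr.ge
  have he' : e' = G0.natDegree := h7 hr.symm
  have hkr : r + r ≤ k * r := by nlinarith
  have hK0 : Kill (mulF (modF A b) P) (k * r) G0 e' :=
    kill_gcd hG hb0 h1 h2 h3 h4 h5 h6 (by omega) hK hkb
  have he'e : e' ≤ e := by omega
  have ha : ∀ z : K[X], modF A b (P * (G0 * z)) = 0 := by
    intro z
    have hz : z = z %ₘ b + b * (z /ₘ b) := (modByMonic_add_div z b).symm
    have hzd : (z %ₘ b).natDegree ≤ r - 1 := by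
      have h8 := natDegree_modByMonic_lt z hb (by
        intro hb1
        rw [hb1, natDegree_one] at hr
        omega)
      omega
    have h9 := hK0 (z %ₘ b) (by omega)
    rw [mulF_apply] at h9
    have h10 : P * (G0 * z) = P * (G0 * (z %ₘ b)) + b * (P * G0 * (z /ₘ b)) := by
      conv_lhs => rw [hz]
      ring
    rw [h10, map_add, h9, modF_mul A b hb, add_zero]
  have hbb : ∀ z : K[X], modF A b (G0 * z) = 0 := by
    intro z
    obtain ⟨u, v, huv⟩ := hP
    have h8 : G0 * z = P * (G0 * (v * z)) + b * (u * G0 * z) := by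
      calc G0 * z = (u * b + v * P) * (G0 * z) := by rw [huv, one_mul]
        _ = _ := by ring
    rw [h8, map_add, ha, modF_mul A b hb, add_zero]
  have hKE : Kill A E G0 e' := by
    intro z hz
    rw [← modF_eq A E b hb (hr ▸ hkill) (G0 * z) (natDegree_mul_le.trans (by omega))]
    exact hbb z
  exact hρ.2 e' (by omega) G0 hG0 hG0e hKE

end MP_1ad228_ntD
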