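import Pool.Agent.Lib.MP_570bef_ntF.Lr
import Pool.Agent.Lib.MP_1ad228_ntD.Per
import Pool.Agent.Lib.MP_1ad228_ntD.RhB

/-! JOB Gb.  The exponential sum when the minimal killing form `b` is prime to everything.  `r = natDegree b ≥ 1`, `q = card K`.

Let `u M' + v b = 1` (`IsCoprime b M'`), `P := u * a` (so `IsCoprime b P`: `u` is prime to `b`, `a` is prime to `b`), `B := modF A b`, `h x := ψ (B (P * x^k - P * w^k))`.
`h` is `b`-periodic: `P (x + b z)^k - P x^k` is a multiple of `b` (`sub_dvd_pow_sub_pow`), `modF_mul`.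
For `y ∈ SS K m`: `A (g y) = B (g y)` (`modF_eq`, `hgdeg`) and `g y = u M' g y + v b g y = u a ((w + M y)^k - w^k) + b (v g y)`, so `B (g y) = B (P (w + M y)^k - P w^k)`, i.e. `ψ (A (g y)) = h (w + M y)`.  The function `x ↦ h (w + M x)` is also `b`-periodic.
`sum_per` (`n = m`, `r ≤ m + 1`), `sum_subst`, `sum_per` backwards (`n = r`) for the function `x ↦ ψ (B (P x^k))`:
`∑_{y ∈ SS m} ψ(A (g y)) = q^(m+1-r) * ψ(-B(P w^k)) * ∑_{x ∈ SS (r-1)} ψ (B (P x^k))`, and `fS ψ k (mulF B P) (SS K r) = q^(r+1-r) * ∑_{x ∈ SS (r-1)} ψ (B (P x^k))`.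
`low_rank_sum` with `m := r`, `g := r`, `A := mulF B P` (`rho_modF`): `‖fS ψ k (mulF B P) (SS K r)‖^k * q^r ≤ ((2k)^k)^r * q^(k(r+1))`.
So `‖∑_{y ∈ SS m}‖^k * q^r = q^(k(m+1-r)) * ‖∑_{x∈SS(r-1)}‖^k q^r ≤ q^(k(m+1-r)) * ((2k)^k)^r * q^(k r) = ((2k)^k)^r * q^(k(m+1))` (multiply and divide by `q^k`). -/

open Polynomial MP_570bef_ntF

namespace MP_1ad228_ntD

variable {K : Type} [Field K] [Fintype K]

theorem good_bound {ψ : AddChar K ℂ} (hψ : ψ ≠ 1) (k : ℕ) (hk : 2 ≤ k) (hkK : (k : K) ≠ 0)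
    (A : K[X] →ₗ[K] K) (E : ℕ) (b : K[X]) (hb : b.Monic) (hb1 : 1 ≤ b.natDegree)
    (hρ : IsRho A E b.natDegree) (hkill : Kill A E b b.natDegree) (a w M M' : K[X])
    (hcM : IsCoprime b M) (hcM' : IsCoprime b M') (hca : IsCoprime b a) (g : K[X] → K[X]) (m : ℕ)
    (hg : ∀ y : K[X], M' * g y = a * ((w + M * y) ^ k - w ^ k)) (hgdeg : ∀ y : K[X], y.natDegree ≤ m → (g y).natDegree ≤ E)
    (hrm : b.natDegree ≤ m + 1) :
    ‖∑ y ∈ SS K m, ψ (A (g y))‖ ^ k * (Fintype.card K : ℝ) ^ b.natDegree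
      ≤ ((2 * (k : ℝ)) ^ k) ^ b.natDegree * ((Fintype.card K : ℝ) ^ (m + 1)) ^ k := by
  obtain ⟨v, u, huv⟩ := hcM'
  have hcu : IsCoprime b u := ⟨v, M', by rw [mul_comm M' u]; exact huv⟩
  have hcP : IsCoprime b (u * a) := IsCoprime.mul_right hcu hca
  set r := b.natDegree with hr
  set P := u * a with hP
  set B := modF A b with hB
  have hBz : ∀ z : K[X], B (b * z) = 0 := fun z => modF_mul A b hb z
  have hper0 : ∀ x z : K[X], B (P * (x + b * z) ^ k) = B (P * x ^ k) := by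
    intro x z
    have h1 : b ∣ (x + b * z) ^ k - x ^ k := by
      refine dvd_trans ?_ (sub_dvd_pow_sub_pow (x + b * z) x k)
      rw [add_sub_cancel_left]
      exact dvd_mul_right b z
    obtain ⟨t, ht⟩ := h1
    have h2 : P * (x + b * z) ^ k = P * x ^ k + b * (P * t) := by
      rw [sub_eq_iff_eq_add] at ht
      rw [ht]
      ring
    rw [h2, map_add, hBz, add_zero]
  have hgy : ∀ y ∈ SS K m, ψ (A (g y)) = ψ (B (P * (w + M * y) ^ k)) * ψ (-(B (P * w ^ k))) := by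
    intro y hy
    rw [mem_SS] at hy
    rw [← AddChar.map_add_eq_mul]
    congr 1
    rw [← modF_eq A E b hb hkill (g y) (hgdeg y hy), ← hB]
    have h1 : g y = P * (w + M * y) ^ k + (-(P * w ^ k)) + b * (v * g y) := by
      have h2 : g y = (v * b + u * M') * g y := by rw [huv, one_mul]
      have h3 : (v * b + u * M') * g y = b * (v * g y) + u * (M' * g y) := by ring
      rw [hg] at h3
      calc g y = (v * b + u * M') * g y := h2
        _ = b * (v * g y) + u * (a * ((w + M * y) ^ k - w ^ k)) := h3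
        _ = P * (w + M * y) ^ k + (-(P * w ^ k)) + b * (v * g y) := by rw [hP]; ring
    calc B (g y) = B (P * (w + M * y) ^ k + (-(P * w ^ k)) + b * (v * g y)) := by rw [← h1]
      _ = B (P * (w + M * y) ^ k) + -B (P * w ^ k) := by
        rw [map_add, map_add, map_neg, hBz, add_zero]
  set S : ℂ := ∑ x ∈ SS K (r - 1), ψ (B (P * x ^ k)) with hS
  have hsum : ∑ y ∈ SS K m, ψ (A (g y)) =
      (Fintype.card K : ℂ) ^ (m + 1 - r) * S * ψ (-(B (P * w ^ k))) := by
    rw [Finset.sum_congr rfl hgy, ← Finset.sum_mul]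
    congr 1
    have h1 := sum_per b hb hb1 (fun x => ψ (B (P * (w + M * x) ^ k))) (by
      intro x z
      have h2 : w + M * (x + b * z) = (w + M * x) + b * (M * z) := by ring
      simp only [h2, hper0]) m hrm
    rw [h1]
    congr 1
    exact sum_subst b hb hb1 (fun x => ψ (B (P * x ^ k))) (fun x z => by simp only [hper0]) w M hcM
  have hfS : fS ψ k (mulF B P) (SS K r) = (Fintype.card K : ℂ) * S := by
    unfold fS
    simp only [mulF_apply]
    have h1 := sum_per b hb hb1 (fun x => ψ (B (P * x ^ k))) (fun x z => by simp only [hper0]) r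
      (Nat.le_succ r)
    rw [h1]
    have h2 : r + 1 - b.natDegree = 1 := by omega
    rw [h2, pow_one]
  have hlow := low_rank_sum hψ k hk hkK r r (mulF B P) le_rfl
    (rho_modF A E k hk b hb hρ hkill P hcP)
  rw [hfS, norm_mul, Complex.norm_natCast, mul_pow] at hlow
  have hq : (0 : ℝ) < (Fintype.card K : ℝ) := by
    exact_mod_cast Fintype.card_pos
  set q : ℝ := (Fintype.card K : ℝ) with hqdef
  have hS1 : ‖S‖ ^ k * q ^ r ≤ ((2 * (k : ℝ)) ^ k) ^ r * q ^ (k * r) := by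
    have h1 : q ^ k * (‖S‖ ^ k * q ^ r) ≤ q ^ k * (((2 * (k : ℝ)) ^ k) ^ r * q ^ (k * r)) := by
      calc q ^ k * (‖S‖ ^ k * q ^ r) = q ^ k * ‖S‖ ^ k * q ^ r := by ring
        _ ≤ ((2 * (k : ℝ)) ^ k) ^ r * q ^ (k * (r + 1)) := hlow
        _ = q ^ k * (((2 * (k : ℝ)) ^ k) ^ r * q ^ (k * r)) := by
          rw [mul_add, mul_one, pow_add]
          ring
    exact le_of_mul_le_mul_left h1 (pow_pos hq k)
  have hnorm : ‖∑ y ∈ SS K m, ψ (A (g y))‖ = q ^ (m + 1 - r) * ‖S‖ := by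
    rw [hsum, norm_mul, norm_mul, norm_pow, Complex.norm_natCast, norm_char, mul_one]
  rw [hnorm]
  have h3 : m + 1 = (m + 1 - r) + r := by omega
  calc (q ^ (m + 1 - r) * ‖S‖) ^ k * q ^ r = q ^ ((m + 1 - r) * k) * (‖S‖ ^ k * q ^ r) := by
        rw [mul_pow, ← pow_mul]
        ring
    _ ≤ q ^ ((m + 1 - r) * k) * (((2 * (k : ℝ)) ^ k) ^ r * q ^ (k * r)) :=
        mul_le_mul_of_nonneg_left hS1 (pow_nonneg hq.le _)
    _ = ((2 * (k : ℝ)) ^ k) ^ r * (q ^ (m + 1)) ^ k := by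
        rw [← pow_mul q (m + 1) k, h3, add_mul, pow_add, mul_comm r k]
        have h4 : m + 1 - r + r - r = m + 1 - r := by omega
        rw [h4]
        ring

end MP_1ad228_ntD
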