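import Pool.Agent.Lib.MP_1ad228_ntD.Tay

/-! JOB SyG.  Elementary facts about a system `S : Sys k a N c0` (`1 ≤ k`).

`sys_gg`: `M' * gg k (l i) y = ∑_{j=1}^k C(k,j) a w^(k-j) M^j y^j = a * ((w + M y)^k - w^k)` (`hl`, `add_pow`, split off `j = 0`).
`sys_lk`: `M' * l i k = a i * M^k ≠ 0` (`hl i k`, `k.choose k = 1`, `w^0 = 1`) if `a i ≠ 0`, so `l i k ≠ 0`; hence `k * m i ≤ E`.
`sys_sol`: multiply `G0 + ∑ gg = 0` by `M'`: `∑ a_i w_i^k + ∑ a_i ((w_i + M y_i)^k - w_i^k) = ∑ a_i (w_i + M y_i)^k`. -/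

open Polynomial MP_570bef_ntF

namespace MP_1ad228_ntD

variable {K : Type} [Field K]

theorem sys_gg {k N c0 : ℕ} {a : Fin (2 * k + 1) → K[X]} (S : Sys k a N c0) (i : Fin (2 * k + 1)) (y : K[X]) :
    S.M' * gg k (S.l i) y = a i * ((S.w i + S.M * y) ^ k - S.w i ^ k) := by
  unfold gg
  have h1 : (S.w i + S.M * y) ^ k = S.w i ^ k +
      ∑ j ∈ Finset.Icc 1 k, (S.M * y) ^ j * S.w i ^ (k - j) * (k.choose j : K[X]) := by
    have hI : Finset.Icc 1 k = Finset.Ico 1 (k + 1) := by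
      ext x
      rw [Finset.mem_Icc, Finset.mem_Ico]
      omega
    rw [add_comm (S.w i), add_pow, Finset.range_eq_Ico, Finset.sum_eq_sum_Ico_succ_bot (by omega), hI]
    simp
  rw [h1, add_sub_cancel_left, Finset.mul_sum, Finset.mul_sum]
  refine Finset.sum_congr rfl fun j hj => ?_
  rw [Finset.mem_Icc] at hj
  have h2 := S.hl i j hj.1 hj.2
  rw [← mul_assoc, h2, mul_pow]
  ring

theorem sys_lk {k N c0 : ℕ} (hk : 1 ≤ k) {a : Fin (2 * k + 1) → K[X]} (S : Sys k a N c0) (i : Fin (2 * k + 1))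
    (ha : a i ≠ 0) : S.l i k ≠ 0 := by
  intro h
  have h1 := S.hl i k hk le_rfl
  rw [h, mul_zero, Nat.choose_self, Nat.cast_one, one_mul, Nat.sub_self, pow_zero, mul_one] at h1
  exact mul_ne_zero ha (pow_ne_zero k S.hM) h1.symm

theorem sys_sol {k N c0 : ℕ} {a : Fin (2 * k + 1) → K[X]} (S : Sys k a N c0)
    (y : Fin (2 * k + 1) → K[X]) (h : S.G0 + ∑ i, gg k (S.l i) (y i) = 0) :
    ∑ i, a i * (S.w i + S.M * y i) ^ k = 0 := by
  have h1 := congrArg (fun z => S.M' * z) h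
  simp only [mul_add, mul_zero, Finset.mul_sum] at h1
  rw [S.hG0, ← Finset.sum_add_distrib] at h1
  rw [← h1]
  refine Finset.sum_congr rfl fun i _ => ?_
  rw [sys_gg]
  ring

end MP_1ad228_ntD
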