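import Pool.Agent.Lib.MP_570bef_ntF.CFc
import Pool.Agent.Lib.MP_570bef_ntF.FoA
import Pool.Agent.Lib.MP_1ad228_ntD.Tay

/-! JOB Vi.  The exponential sum of `g` vanishes when the minimal killing form `(b, r)` of `A` has `natDegree b < r` (zero at infinity).

`1 ≤ r ≤ m + 1`.  Put `e := m + 1 - r`.  For `z ∈ SS K e`: `natDegree (b z) ≤ (r - 1) + e = m`, so `y ↦ y + b * z` is a permutation of `SS K m`, and `q^(e+1) * fs = ∑_{y ∈ SS m} ∑_{z ∈ SS e} ψ (A (gg k l (y + b z)))`.
(1) `A (gg (y + b z)) = A (gg y) + A (dg y * (b z))` by `gg_add`: for `2 ≤ i ≤ j ≤ k`, `l j * y^(j-i) * (b z)^i = b * (l j * y^(j-i) * b^(i-1) * z^i)`, the cofactor has degree at most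
`(E - j m - 1) + (j-i) m + (i-1)(r-1) + i e = E - 1 - i m + (i-1)(r-1) + i (m - (r-1)) = E - 1 - (r-1) = E - r` (`hlt j : natDegree (l j) + j m < E`): `hkill` gives `0`.
(2) `∑_{z ∈ SS e} ψ (A (dg y * b * z)) = 0` for every `y ∈ SS m` (`orth_SS` for `mulF A (dg y * b)`): otherwise `A (dg y * b * z) = 0` for all `z` of degree `≤ e`.  `dg y` has exact degree `E - m` and is not `0`: the term
`j = 1` is `l 1`, nonzero of degree exactly `E - m`, and for `j ≥ 2` the term `j l_j y^(j-1)` is `0` or has degree `≤ natDegree (l j) + (j-1) m < E - m`  (work with `Polynomial.coeff _ (E-m)` or `natDegree_add_eq_left..`/`degree`;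
if `E = m` then `hlt` is impossible for `j ≥ 2`.. (`natDegree + j m < E = m` is false), so `k = 1` and `dg y = l 1`).
The functional `mulF A b` on degree `≤ D1 := E + 1 - r` (`r ≤ m + 1 ≤ E + 1`) is killed by the form `(1, 1)` (`A (b * (1 * z)) = 0` if `natDegree z + 1 ≤ D1`, i.e. `natDegree z + r ≤ E`) and by `(dg y, E - m)`
(`natDegree z + (E - m) ≤ D1` gives `natDegree z ≤ e`); they are coprime, `dg y` has exact degree, `1 + (E - m) ≤ D1 + 1`.  `kill_of_coprime` (with `hex` the second alternative): `A (b * F) = 0` for `natDegree F ≤ D1`, i.e. `Kill A E b (r - 1)`,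
`natDegree b ≤ r - 1`: contradicts `hρ.2`.
So `q^(e+1) * fs = 0` and `fs = 0`. -/

open Polynomial MP_570bef_ntF

namespace MP_1ad228_ntD

variable {K : Type} [Field K] [Fintype K]

omit [Fintype K] in
private theorem Vi_dg {k m E : ℕ} (hk : 1 ≤ k) {l : ℕ → K[X]}
    (hdeg : ∀ j, 1 ≤ j → j ≤ k → (l j).natDegree + j * m ≤ E) (h0 : l 1 ≠ 0)
    (h1 : (l 1).natDegree + m = E) (hlt : ∀ j, 2 ≤ j → j ≤ k → (l j).natDegree + j * m < E)
    {y : K[X]} (hy : y.natDegree ≤ m) : dg k l y ≠ 0 ∧ (dg k l y).natDegree = E - m := by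
  have hc : (dg k l y).coeff (E - m) = (l 1).leadingCoeff := by
    unfold dg
    rw [Polynomial.finsetSum_coeff, Finset.sum_eq_single 1]
    · rw [Nat.cast_one, one_mul, Nat.sub_self, pow_zero, mul_one, Polynomial.leadingCoeff]
      congr 1
      omega
    · intro j hj hj1
      rw [Finset.mem_Icc] at hj
      have hj2 : 2 ≤ j := by omega
      have h2 := hlt j hj2 hj.2
      apply Polynomial.coeff_eq_zero_of_natDegree_lt
      have h3 : ((j : K[X]) * l j * y ^ (j - 1)).natDegree ≤ (l j).natDegree + (j - 1) * m := by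
        have e1 := Polynomial.natDegree_mul_le (p := (j : K[X]) * l j) (q := y ^ (j - 1))
        have e2 := Polynomial.natDegree_mul_le (p := (j : K[X])) (q := l j)
        have e3 : ((j : K[X])).natDegree = 0 := Polynomial.natDegree_natCast j
        have e4 : (y ^ (j - 1)).natDegree ≤ (j - 1) * m :=
          Polynomial.natDegree_pow_le.trans (Nat.mul_le_mul_left _ hy)
        omega
      obtain ⟨t, rfl⟩ : ∃ t, j = t + 1 := ⟨j - 1, by omega⟩
      have h4 : (t + 1) * m = t * m + m := by ring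
      have h5 : t + 1 - 1 = t := by omega
      rw [h5] at h3 ⊢
      omega
    · intro h
      exact absurd (Finset.mem_Icc.mpr ⟨le_refl 1, hk⟩) h
  have hc0 : (dg k l y).coeff (E - m) ≠ 0 := by
    rw [hc]
    exact Polynomial.leadingCoeff_ne_zero.mpr h0
  refine ⟨?_, ?_⟩
  · intro h
    rw [h, Polynomial.coeff_zero] at hc0
    exact hc0 rfl
  · exact Polynomial.natDegree_eq_of_le_of_coeff_ne_zero (dg_deg k m E l hdeg y hy) hc0

omit [Fintype K] in
private theorem Vi_kill {k m E r : ℕ} {l : ℕ → K[X]} {A : K[X] →ₗ[K] K} {b : K[X]}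
    (hbr : b.natDegree < r) (hkill : Kill A E b r) (hrm : r ≤ m + 1)
    (hlt : ∀ j, 2 ≤ j → j ≤ k → (l j).natDegree + j * m < E) {y z : K[X]}
    (hy : y.natDegree ≤ m) (hz : z.natDegree ≤ m + 1 - r) (j : ℕ) (hj : 2 ≤ j) (hjk : j ≤ k)
    (i : ℕ) (hi : 2 ≤ i) (hij : i ≤ j) : A (l j * y ^ (j - i) * (b * z) ^ i) = 0 := by
  have h2 := hlt j hj hjk
  obtain ⟨t, rfl⟩ : ∃ t, j = i + t := ⟨j - i, by omega⟩
  obtain ⟨i', rfl⟩ : ∃ i', i = i' + 1 := ⟨i - 1, by omega⟩
  obtain ⟨r', rfl⟩ : ∃ r', r = r' + 1 := ⟨r - 1, by omega⟩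
  obtain ⟨e, rfl⟩ : ∃ e, m = e + r' := ⟨m - r', by omega⟩
  have he : e + r' + 1 - (r' + 1) = e := by omega
  rw [he] at hz
  have ht : i' + 1 + t - (i' + 1) = t := by omega
  rw [ht]
  have e1 : l (i' + 1 + t) * y ^ t * (b * z) ^ (i' + 1) =
      b * (l (i' + 1 + t) * y ^ t * (b ^ i' * z ^ (i' + 1))) := by
    rw [mul_pow, pow_succ b]
    ring
  rw [e1]
  apply hkill
  have d1 := Polynomial.natDegree_mul_le (p := l (i' + 1 + t) * y ^ t)
    (q := b ^ i' * z ^ (i' + 1))
  have d2 := Polynomial.natDegree_mul_le (p := l (i' + 1 + t)) (q := y ^ t)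
  have d3 := Polynomial.natDegree_mul_le (p := b ^ i') (q := z ^ (i' + 1))
  have d4 : (y ^ t).natDegree ≤ t * (e + r') :=
    Polynomial.natDegree_pow_le.trans (Nat.mul_le_mul_left _ hy)
  have d5 : (b ^ i').natDegree ≤ i' * r' :=
    Polynomial.natDegree_pow_le.trans (Nat.mul_le_mul_left _ (by omega))
  have d6 : (z ^ (i' + 1)).natDegree ≤ (i' + 1) * e :=
    Polynomial.natDegree_pow_le.trans (Nat.mul_le_mul_left _ hz)
  have d7 : (i' + 1 + t) * (e + r') + 1 =
      t * (e + r') + (i' * r' + (i' + 1) * e) + (r' + 1) := by ring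
  omega

theorem van_inf {ψ : AddChar K ℂ} (hψ : ψ ≠ 1) (k m E r : ℕ) (hk : 1 ≤ k) (l : ℕ → K[X])
    (hdeg : ∀ j, 1 ≤ j → j ≤ k → (l j).natDegree + j * m ≤ E) (A : K[X] →ₗ[K] K) (hρ : IsRho A E r)
    (b : K[X]) (hb : b ≠ 0) (hbr : b.natDegree < r) (hkill : Kill A E b r) (hrm : r ≤ m + 1)
    (h0 : l 1 ≠ 0) (h1 : (l 1).natDegree + m = E) (hlt : ∀ j, 2 ≤ j → j ≤ k → (l j).natDegree + j * m < E) :
    fs ψ k l m A = 0 := by
  classical
  have hshift : ∀ z ∈ SS K (m + 1 - r), fs ψ k l m A = ∑ y ∈ SS K m, ψ (A (gg k l (y + b * z))) := by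
    intro z hz
    rw [mem_SS] at hz
    have hbz : b * z ∈ SS K m := by
      rw [mem_SS]
      have := Polynomial.natDegree_mul_le (p := b) (q := z)
      omega
    unfold fs
    refine Finset.sum_nbij' (fun y => y - b * z) (fun y => y + b * z) ?_ ?_ ?_ ?_ ?_
    · intro y hy
      exact sub_mem_SS hy hbz
    · intro y hy
      exact add_mem_SS hy hbz
    · intro y _
      exact sub_add_cancel _ _
    · intro y _
      exact add_sub_cancel_right _ _
    · intro y _
      show ψ (A (gg k l y)) = ψ (A (gg k l (y - b * z + b * z)))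
      rw [sub_add_cancel]
  have hinner : ∀ y ∈ SS K m, ∑ z ∈ SS K (m + 1 - r), ψ (A (gg k l (y + b * z))) = 0 := by
    intro y hy
    rw [mem_SS] at hy
    have hterm : ∀ z ∈ SS K (m + 1 - r), ψ (A (gg k l (y + b * z))) =
        ψ (A (gg k l y)) * ψ (mulF A (dg k l y * b) z) := by
      intro z hz
      rw [mem_SS] at hz
      rw [gg_add k l A y (b * z) (fun j hj hjk i hi hij =>
        Vi_kill hbr hkill hrm hlt hy hz j hj hjk i hi hij), AddChar.map_add_eq_mul, mulF_apply,
        mul_assoc]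
    rw [Finset.sum_congr rfl hterm, ← Finset.mul_sum, orth_SS hψ, if_neg, mul_zero]
    intro hz
    obtain ⟨hG0, hGd⟩ := Vi_dg hk hdeg h0 h1 hlt hy
    have hK : ∀ F : K[X], F.natDegree ≤ E + 1 - r → mulF A b F = 0 := by
      intro F hF
      refine kill_of_coprime (u := 1) (v := dg k l y) (e1 := 1) (e2 := E - m) (D := E + 1 - r)
        one_ne_zero hG0 ?_ hGd.le isCoprime_one_left (Or.inr hGd) ?_ ?_ ?_ F hF
      · rw [Polynomial.natDegree_one]
        exact Nat.zero_le _
      · omega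
      · intro z hz1
        rw [mulF_apply, one_mul]
        apply hkill
        omega
      · intro z hz1
        rw [mulF_apply]
        have h2 := hz z (by omega)
        rw [mulF_apply] at h2
        rw [← h2]
        congr 1
        ring
    refine hρ.2 (r - 1) (by omega) b hb (by omega) ?_
    intro z hz1
    have h2 := hK z (by omega)
    rw [mulF_apply] at h2
    exact h2
  have hsum : ((SS K (m + 1 - r)).card : ℂ) * fs ψ k l m A = 0 := by
    rw [← nsmul_eq_mul, ← Finset.sum_const, Finset.sum_congr rfl hshift, Finset.sum_comm,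
      Finset.sum_congr rfl hinner, Finset.sum_const_zero]
  rcases mul_eq_zero.mp hsum with h | h
  · exfalso
    rw [card_SS] at h
    have h2 : Fintype.card K ^ (m + 1 - r + 1) = 0 := by exact_mod_cast h
    have h3 := two_le_q (K := K)
    have h4 : 0 < Fintype.card K ^ (m + 1 - r + 1) := by positivity
    omega
  · exact h

end MP_1ad228_ntD
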