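import Pool.Agent.Lib.MP_1ad228_ntD.Vp
import Pool.Agent.Lib.MP_1ad228_ntD.Vi
import Pool.Agent.Lib.MP_1ad228_ntD.Gb
import Pool.Agent.Lib.MP_1ad228_ntD.SyG

/-! JOB LoC.  Functionals of low rank `r ≥ 1`, for a system `S`.

`hρ.1` gives `b ≠ 0`, `natDegree b ≤ r`, `Kill A E b r`.
Case `natDegree b < r`: `van_inf` with the index of `S.hinf`: the sum of that index is `0` (left alternative).
Case `natDegree b = r`, and some irreducible `π ∣ b` divides `M`: `van_pi` with the index of `S.hpi π`.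
Otherwise `IsCoprime b M` (`K[X]` is a principal ideal domain: if not, `gcd b M` is not a unit and has an irreducible factor; `EuclideanDomain`/`isCoprime_of_prime_dvd`, or `Irreducible.coprime..`).  `S.hcop b`: `IsCoprime b M'`, `IsCoprime b (a i)`.
Normalise: `b' := C (leadingCoeff b)⁻¹ * b` is monic of degree `r`, `Kill A E b' r` (`A (C c * x) = c * A x`; `C c * x = c • x`), coprime to `M, M', a i` (a unit multiple).
`good_bound` with `b'`, `g := gg k (S.l i)` (`sys_gg`, `gg_deg`), `m := S.m i`: the right alternative for all `i`. -/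

open Polynomial MP_570bef_ntF

namespace MP_1ad228_ntD

variable {K : Type} [Field K] [Fintype K]

theorem low_rank_case {ψ : AddChar K ℂ} (hψ : ψ ≠ 1) {k N c0 : ℕ} (hk : 2 ≤ k) (hkK : (k : K) ≠ 0)
    {a : Fin (2 * k + 1) → K[X]} (S : Sys k a N c0) (A : K[X] →ₗ[K] K) (r : ℕ) (hr : 1 ≤ r)
    (hρ : IsRho A S.E r) (hrm : ∀ i, r ≤ S.m i + 1) :
    (∃ i, fs ψ k (S.l i) (S.m i) A = 0) ∨
      ∀ i, ‖fs ψ k (S.l i) (S.m i) A‖ ^ k * (Fintype.card K : ℝ) ^ r
        ≤ ((2 * (k : ℝ)) ^ k) ^ r * ((Fintype.card K : ℝ) ^ (S.m i + 1)) ^ k := by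
  obtain ⟨b, hb0, hbr, hkill⟩ := hρ.1
  by_cases h1 : b.natDegree < r
  · left
    obtain ⟨i, hi1, hi2, hi3⟩ := S.hinf
    exact ⟨i, van_inf hψ k (S.m i) S.E r (by omega) (S.l i) (S.hldeg i) A hρ b hb0 h1 hkill (hrm i)
      hi1 hi2 hi3⟩
  have hbr' : b.natDegree = r := by omega
  by_cases h2 : ∃ π : K[X], Irreducible π ∧ π ∣ b ∧ π ∣ S.M
  · left
    obtain ⟨π, hπ, hπb, hπM⟩ := h2
    obtain ⟨i, hi1, hi2⟩ := S.hpi π hπ hπM
    exact ⟨i, van_pi hψ k (S.m i) S.E r (by omega) (S.l i) (S.hldeg i) A hρ b hb0 hbr hkill (hrm i)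
      π hπ hπb hi1 hi2⟩
  right
  intro i
  have hcop : IsCoprime b S.M :=
    isCoprime_of_irreducible_dvd (fun h => hb0 h.1) (fun z hz hzb hzM => h2 ⟨z, hz, hzb, hzM⟩)
  have hlc : b.leadingCoeff ≠ 0 := leadingCoeff_ne_zero.2 hb0
  have hu : IsUnit (C (b.leadingCoeff)⁻¹ : K[X]) :=
    isUnit_C.2 (isUnit_iff_ne_zero.2 (inv_ne_zero hlc))
  have hcop' : IsCoprime (b * C (b.leadingCoeff)⁻¹) S.M :=
    (isCoprime_mul_unit_right_left hu b S.M).2 hcop
  have hmon : (b * C (b.leadingCoeff)⁻¹).Monic := monic_mul_leadingCoeff_inv hb0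
  have hnd : (b * C (b.leadingCoeff)⁻¹).natDegree = r := by
    rw [natDegree_mul_leadingCoeff_inv b hb0, hbr']
  have hkill' : Kill A S.E (b * C (b.leadingCoeff)⁻¹) (b * C (b.leadingCoeff)⁻¹).natDegree := by
    rw [hnd]
    intro z hz
    have h3 : b * C (b.leadingCoeff)⁻¹ * z = (b.leadingCoeff)⁻¹ • (b * z) := by
      rw [smul_eq_C_mul]
      ring
    rw [h3, map_smul, hkill z hz, smul_zero]
  have h4 := S.hcop _ hcop'
  have h5 := good_bound hψ k hk hkK A S.E (b * C (b.leadingCoeff)⁻¹) hmon (by rw [hnd]; exact hr)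
    (by rw [hnd]; exact hρ) hkill' (a i) (S.w i) S.M S.M' hcop' h4.1 (h4.2 i) (gg k (S.l i)) (S.m i)
    (fun y => sys_gg S i y) (fun y hy => gg_deg k (S.m i) S.E (S.l i) (S.hldeg i) y hy)
    (by rw [hnd]; exact hrm i)
  rw [hnd] at h5
  exact h5

end MP_1ad228_ntD
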