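import Mathlib

/-! JOB LoS.  The sum over the functionals of low rank (real numbers only).

Put `T := q^(1/k)` (`Real.rpow`; `T > 0`, `T^k = q`).  `hq` gives `16 (2k)^(2k+1) ≤ T` (compare `k`-th powers, `le_of_pow_le_pow_left₀`/`pow_le_pow_left₀`).  For `c ∈ S` with `ρ c = r`: if some `φ i c = 0` the product is `0`; else `φ i c ^ k * (T^r)^k ≤ ((2k)^r)^k`, so `φ i c ≤ ((2k)/T)^r` and
`∏_i φ i c ≤ (((2k)/T)^r)^(2k+1)` (`Finset.prod_le_pow_card`/`Finset.prod_le_prod`).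
Sum over `S` by the value `r = ρ c ∈ [1, g]` (`Finset.sum_fiberwise_of_maps_to`): `∑_{c∈S} ∏ φ ≤ ∑_{r=1}^{g} 2 q^(2r) (((2k)/T)^r)^(2k+1) = ∑_r 2 ((2k)^(2k+1) / T)^r ≤ ∑_{r=1}^{g} 2 (1/16)^r ≤ 2/15 ≤ 1/4` (`q^(2r) = (T^(2k))^r`; geometric sum: prove
`∑_{r ∈ Icc 1 g} 2 (1/16)^r ≤ 2/15 * (1 - (1/16)^g)` by induction on `g`). -/

namespace MP_1ad228_ntD

private theorem LoS_geom (g : ℕ) : ∑ r ∈ Finset.Icc 1 g, 2 * (1 / 16 : ℝ) ^ r ≤ 2 / 15 * (1 - (1 / 16 : ℝ) ^ g) := by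
  induction g with
  | zero => simp
  | succ g ih =>
    rw [Finset.sum_Icc_succ_top (by omega), pow_succ]
    linarith

theorem low_sum (k : ℕ) (hk : 2 ≤ k) (q : ℝ) (hq : (16 * (2 * (k : ℝ)) ^ (2 * k + 1)) ^ k ≤ q) {Γ : Type}
    (ρ : Γ → ℕ) (φ : Fin (2 * k + 1) → Γ → ℝ) (hφ0 : ∀ i c, 0 ≤ φ i c) (g : ℕ) (S : Finset Γ)
    (hS : ∀ c ∈ S, 1 ≤ ρ c ∧ ρ c ≤ g)
    (hφ : ∀ c ∈ S, (∃ i, φ i c = 0) ∨ ∀ i, φ i c ^ k * q ^ (ρ c) ≤ ((2 * (k : ℝ)) ^ k) ^ (ρ c))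
    (hcard : ∀ r, 1 ≤ r → r ≤ g → ((S.filter (fun c => ρ c = r)).card : ℝ) ≤ 2 * q ^ (2 * r)) :
    ∑ c ∈ S, ∏ i, φ i c ≤ 1 / 4 := by
  have hk0 : k ≠ 0 := by omega
  have hkr : (2 : ℝ) ≤ k := by exact_mod_cast hk
  set M : ℝ := 2 * (k : ℝ) with hM
  have hM0 : 0 < M := by rw [hM]; linarith
  have hB0 : 0 < 16 * M ^ (2 * k + 1) := by positivity
  have hq0 : 0 < q := lt_of_lt_of_le (pow_pos hB0 k) hq
  set T : ℝ := q ^ ((k : ℝ)⁻¹) with hT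
  have hT0 : 0 < T := Real.rpow_pos_of_pos hq0 _
  have hTk : T ^ k = q := Real.rpow_inv_natCast_pow hq0.le hk0
  have hBT : 16 * M ^ (2 * k + 1) ≤ T := by
    rw [← pow_le_pow_iff_left₀ hB0.le hT0.le hk0, hTk]
    exact hq
  have hx : M ^ (2 * k + 1) / T ≤ 1 / 16 := by
    rw [div_le_iff₀ hT0]
    linarith
  have hx0 : 0 ≤ M ^ (2 * k + 1) / T := by positivity
  have h1 : ∀ c ∈ S, ∏ i, φ i c ≤ ((M / T) ^ (ρ c)) ^ (2 * k + 1) := by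
    intro c hc
    rcases hφ c hc with ⟨i, hi⟩ | h
    · rw [Finset.prod_eq_zero (Finset.mem_univ i) hi]
      positivity
    · have h2 : ∀ i, φ i c ≤ (M / T) ^ (ρ c) := by
        intro i
        have h3 := h i
        have h4 : (φ i c * T ^ (ρ c)) ^ k ≤ (M ^ (ρ c)) ^ k := by
          rw [mul_pow, ← pow_mul, mul_comm (ρ c) k, pow_mul, hTk, ← pow_mul, mul_comm (ρ c) k, pow_mul]
          exact h3
        have h5 := (pow_le_pow_iff_left₀ (mul_nonneg (hφ0 i c) (pow_nonneg hT0.le _))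
          (pow_nonneg hM0.le _) hk0).mp h4
        rw [div_pow, le_div_iff₀ (pow_pos hT0 _)]
        exact h5
      calc ∏ i, φ i c ≤ ∏ _i : Fin (2 * k + 1), (M / T) ^ (ρ c) :=
            Finset.prod_le_prod (fun i _ => hφ0 i c) (fun i _ => h2 i)
        _ = ((M / T) ^ (ρ c)) ^ (2 * k + 1) := by
            rw [Finset.prod_const, Finset.card_univ, Fintype.card_fin]
  have h2 : ∑ c ∈ S, ((M / T) ^ (ρ c)) ^ (2 * k + 1) ≤ ∑ r ∈ Finset.Icc 1 g, 2 * (1 / 16 : ℝ) ^ r := by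
    rw [← Finset.sum_fiberwise_of_maps_to (s := S) (t := Finset.Icc 1 g) (g := ρ)
      (fun c hc => Finset.mem_Icc.mpr (hS c hc))]
    refine Finset.sum_le_sum fun r hr => ?_
    rw [Finset.mem_Icc] at hr
    have h3 : ∑ c ∈ S.filter (fun c => ρ c = r), ((M / T) ^ (ρ c)) ^ (2 * k + 1) =
        ((S.filter (fun c => ρ c = r)).card : ℝ) * ((M / T) ^ r) ^ (2 * k + 1) := by
      rw [Finset.sum_congr rfl (fun c hc => by rw [(Finset.mem_filter.mp hc).2]), Finset.sum_const,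
        nsmul_eq_mul]
    rw [h3]
    calc ((S.filter (fun c => ρ c = r)).card : ℝ) * ((M / T) ^ r) ^ (2 * k + 1)
        ≤ (2 * q ^ (2 * r)) * ((M / T) ^ r) ^ (2 * k + 1) :=
          mul_le_mul_of_nonneg_right (hcard r hr.1 hr.2) (by positivity)
      _ = 2 * (M ^ (2 * k + 1) / T) ^ r := by
          have h4 : q ^ (2 * r) = (T ^ (2 * k)) ^ r := by
            rw [← hTk, ← pow_mul, ← pow_mul]
            congr 1
            ring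
          have h5 : ((M / T) ^ r) ^ (2 * k + 1) = ((M / T) ^ (2 * k + 1)) ^ r := by
            rw [← pow_mul, ← pow_mul, mul_comm]
          rw [h4, h5, mul_assoc, ← mul_pow]
          congr 2
          rw [div_pow, pow_succ T (2 * k)]
          have h6 : T ^ (2 * k) ≠ 0 := (pow_pos hT0 _).ne'
          have h7 : T ≠ 0 := hT0.ne'
          field_simp
      _ ≤ 2 * (1 / 16 : ℝ) ^ r :=
          mul_le_mul_of_nonneg_left (pow_le_pow_left₀ hx0 hx r) (by norm_num)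
  have h3 := LoS_geom g
  have h4 : (0 : ℝ) ≤ (1 / 16 : ℝ) ^ g := by positivity
  calc ∑ c ∈ S, ∏ i, φ i c ≤ ∑ c ∈ S, ((M / T) ^ (ρ c)) ^ (2 * k + 1) := Finset.sum_le_sum h1
    _ ≤ ∑ r ∈ Finset.Icc 1 g, 2 * (1 / 16 : ℝ) ^ r := h2
    _ ≤ 2 / 15 * (1 - (1 / 16 : ℝ) ^ g) := h3
    _ ≤ 1 / 4 := by nlinarith

end MP_1ad228_ntD
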