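import Pool.Agent.Lib.MP_570bef_ntF.FoA
import Pool.Agent.Lib.MP_1ad228_ntD.Tay

/-! JOB Mo.  The `2k`-th moment of the exponential sum of `g`.  `q = card K`.

`moment_id` (an identity; `P` any finite set, `Φ` with values of degree `≤ E`): `‖z‖^(2t) = z^t * conj z^t`; expand both powers over `P^t` (`Finset.prod_univ_sum`/`Finset.sum_pow'` with `Fintype.piFinset (fun _ : Fin t => P)`), `conj (ψ a) = ψ (-a)` (`AddChar.map_neg_eq_conj`), so
`‖∑_{p∈P} ψ(lin c (Φ p))‖^(2t) = ∑_{(p,p') ∈ P^t × P^t} ψ (lin c (∑ Φ (p i) - ∑ Φ (p' i)))`; sum over `c`, `orth`: `q^(E+1)` times the number of pairs with `∑ Φ (p i) = ∑ Φ (p' i)`.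
`moment_gg`: `P := SS K m`, `Φ := g`, `t := k`.  If `∑ g (y i) = ∑ g (y' i)` then, multiplying by `M'` and using `hg`, `a * ∑ ((w + M y_i)^k - w^k) = a * ∑ ((w + M y'_i)^k - w^k)`, so (`a ≠ 0`) `∑ (w + M y_i)^k = ∑ (w + M y'_i)^k`.  The map
`(y, y') ↦ (w + M y, w + M y')` is injective (`M ≠ 0`) into the set counted by `En k k (SS K n)` (`natDegree (w + M y) ≤ n`).  `Finset.card_le_card_of_injOn`. -/

open Polynomial MP_570bef_ntF

namespace MP_1ad228_ntD

variable {K : Type} [Field K] [Fintype K]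

omit [Fintype K] in
private theorem Mo_sum (ψ : AddChar K ℂ) {ι : Type} (s : Finset ι) (f : ι → K) :
    ψ (∑ i ∈ s, f i) = ∏ i ∈ s, ψ (f i) := by
  classical
  induction s using Finset.induction_on with
  | empty => simp
  | insert a s ha ih => rw [Finset.sum_insert ha, Finset.prod_insert ha, AddChar.map_add_eq_mul, ih]

omit [Fintype K] in
private theorem Mo_pow (ψ : AddChar K ℂ) {ι : Type} (P : Finset ι) (Φ : ι → K[X]) (t : ℕ)
    (A : K[X] →ₗ[K] K) :
    (∑ p ∈ P, ψ (A (Φ p))) ^ t =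
      ∑ f ∈ Fintype.piFinset (fun _ : Fin t => P), ψ (A (∑ i, Φ (f i))) := by
  have h1 : (∑ p ∈ P, ψ (A (Φ p))) ^ t = ∏ _i : Fin t, ∑ p ∈ P, ψ (A (Φ p)) := by
    rw [Finset.prod_const, Finset.card_univ, Fintype.card_fin]
  rw [h1, Finset.prod_univ_sum]
  apply Finset.sum_congr rfl
  intro f _
  rw [map_sum, Mo_sum]

omit [Fintype K] in
private theorem Mo_norm (z : ℂ) (t : ℕ) :
    (((‖z‖ ^ (2 * t) : ℝ)) : ℂ) = z ^ t * (starRingEnd ℂ) (z ^ t) := by
  rw [pow_mul, map_pow, ← mul_pow, Complex.mul_conj, Complex.normSq_eq_norm_sq]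
  push_cast
  rfl

open Classical in
theorem moment_id {ψ : AddChar K ℂ} (hψ : ψ ≠ 1) {ι : Type} (P : Finset ι) (Φ : ι → K[X]) (t E : ℕ)
    (hΦ : ∀ p ∈ P, (Φ p).natDegree ≤ E) :
    ∑ c : Fin (E + 1) → K, ‖∑ p ∈ P, ψ (lin c (Φ p))‖ ^ (2 * t) = (Fintype.card K : ℝ) ^ (E + 1) *
      ((((Fintype.piFinset (fun _ : Fin t => P)) ×ˢ (Fintype.piFinset (fun _ : Fin t => P))).filter
        (fun z => ∑ i, Φ (z.1 i) = ∑ i, Φ (z.2 i))).card : ℝ) := by
  have hdeg : ∀ f ∈ Fintype.piFinset (fun _ : Fin t => P), (∑ i, Φ (f i)).natDegree ≤ E := by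
    intro f hf
    rw [Fintype.mem_piFinset] at hf
    exact Polynomial.natDegree_sum_le_of_forall_le _ _ (fun i _ => hΦ _ (hf i))
  have key : ∀ c : Fin (E + 1) → K, (((‖∑ p ∈ P, ψ (lin c (Φ p))‖ ^ (2 * t) : ℝ)) : ℂ) =
      ∑ z ∈ (Fintype.piFinset (fun _ : Fin t => P)) ×ˢ (Fintype.piFinset (fun _ : Fin t => P)),
        ψ (lin c (∑ i, Φ (z.1 i) - ∑ i, Φ (z.2 i))) := by
    intro c
    rw [Mo_norm, Mo_pow, map_sum, Finset.sum_mul_sum, ← Finset.sum_product']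
    apply Finset.sum_congr rfl
    intro z _
    rw [← AddChar.map_neg_eq_conj, ← AddChar.map_add_eq_mul, map_sub, sub_eq_add_neg]
  have hC : (((∑ c : Fin (E + 1) → K, ‖∑ p ∈ P, ψ (lin c (Φ p))‖ ^ (2 * t) : ℝ)) : ℂ) =
      ((((Fintype.card K : ℝ) ^ (E + 1) *
      ((((Fintype.piFinset (fun _ : Fin t => P)) ×ˢ (Fintype.piFinset (fun _ : Fin t => P))).filter
        (fun z => ∑ i, Φ (z.1 i) = ∑ i, Φ (z.2 i))).card : ℝ) : ℝ)) : ℂ) := by
    rw [Complex.ofReal_sum, Finset.sum_congr rfl (fun c _ => key c), Finset.sum_comm]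
    have h2 : ∀ z ∈ (Fintype.piFinset (fun _ : Fin t => P)) ×ˢ
        (Fintype.piFinset (fun _ : Fin t => P)),
        ∑ c : Fin (E + 1) → K, ψ (lin c (∑ i, Φ (z.1 i) - ∑ i, Φ (z.2 i))) =
          if ∑ i, Φ (z.1 i) = ∑ i, Φ (z.2 i) then (Fintype.card K : ℂ) ^ (E + 1) else 0 := by
      intro z hz
      rw [Finset.mem_product] at hz
      rw [orth hψ E _ ((Polynomial.natDegree_sub_le _ _).trans
        (max_le (hdeg _ hz.1) (hdeg _ hz.2)))]
      by_cases h : ∑ i, Φ (z.1 i) = ∑ i, Φ (z.2 i)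
      · rw [if_pos h, if_pos (sub_eq_zero.2 h)]
      · rw [if_neg h, if_neg (fun h' => h (sub_eq_zero.1 h'))]
    rw [Finset.sum_congr rfl h2, ← Finset.sum_filter, Finset.sum_const, nsmul_eq_mul]
    push_cast
    ring
  exact Complex.ofReal_injective hC

theorem moment_gg {ψ : AddChar K ℂ} (hψ : ψ ≠ 1) (k m n E : ℕ) (a w M M' : K[X]) (ha : a ≠ 0) (hM : M ≠ 0)
    (hw : w.natDegree ≤ n) (hMm : M.natDegree + m ≤ n) (g : K[X] → K[X])
    (hg : ∀ y : K[X], M' * g y = a * ((w + M * y) ^ k - w ^ k))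
    (hgdeg : ∀ y : K[X], y.natDegree ≤ m → (g y).natDegree ≤ E) :
    ∑ c : Fin (E + 1) → K, ‖∑ y ∈ SS K m, ψ (lin c (g y))‖ ^ (2 * k)
      ≤ (Fintype.card K : ℝ) ^ (E + 1) * (En k k (SS K n) : ℝ) := by
  classical
  rw [moment_id hψ (SS K m) g k E (fun p hp => hgdeg p (mem_SS.1 hp))]
  apply mul_le_mul_of_nonneg_left _ (by positivity)
  rw [Nat.cast_le]
  unfold En
  apply Finset.card_le_card_of_injOn
    (fun z => ((fun i => w + M * z.1 i, fun i => w + M * z.2 i) :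
      (Fin k → K[X]) × (Fin k → K[X])))
  · intro z hz
    rw [Finset.mem_coe, Finset.mem_filter, Finset.mem_product, Fintype.mem_piFinset,
      Fintype.mem_piFinset] at hz
    obtain ⟨⟨hz1, hz2⟩, hz3⟩ := hz
    rw [Finset.mem_coe, Finset.mem_filter, Finset.mem_product, Fintype.mem_piFinset,
      Fintype.mem_piFinset]
    have hd : ∀ y : K[X], y ∈ SS K m → w + M * y ∈ SS K n := by
      intro y hy
      apply add_mem_SS (mem_SS.2 hw)
      rw [mem_SS] at hy ⊢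
      have := Polynomial.natDegree_mul_le (p := M) (q := y)
      omega
    refine ⟨⟨fun i => hd _ (hz1 i), fun i => hd _ (hz2 i)⟩, ?_⟩
    have h1 : M' * ∑ i, g (z.1 i) = M' * ∑ i, g (z.2 i) := by rw [hz3]
    simp only [Finset.mul_sum, hg] at h1
    rw [← Finset.mul_sum, ← Finset.mul_sum] at h1
    have h2 := mul_left_cancel₀ ha h1
    rw [Finset.sum_sub_distrib, Finset.sum_sub_distrib] at h2
    exact sub_left_injective h2
  · intro z _ z' _ h
    have h1 := congrArg Prod.fst h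
    have h2 := congrArg Prod.snd h
    simp only at h1 h2
    apply Prod.ext
    · funext i
      exact mul_left_cancel₀ hM (add_left_cancel (congrFun h1 i))
    · funext i
      exact mul_left_cancel₀ hM (add_left_cancel (congrFun h2 i))

end MP_1ad228_ntD
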