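import Pool.Agent.Lib.MP_570bef_ntF.J2
import Pool.Agent.Lib.MP_1ad228_ntD.Mo

/-! JOB MoN.  Normalised form of `moment_gg`.  `q = card K`, `Q = q^(m+1)`, `n := natDegree M + m + 1 ≤ N + c0`.

`∑_c (‖f_c‖/Q)^(2k) = (∑_c ‖f_c‖^(2k)) / Q^(2k) ≤ q^(E+1) En_k(SS n) / Q^(2k) ≤ q^(E+1) C2^(n+1) q^(kn+k²+k) / q^(2k(m+1))` (`moment_gg`, `En_SS_le`), and `E + 1 ≤ kN + c0 + 1`, `n ≤ N + c0`, `m + 1 ≥ N - c0 + 1` give
`(E+1) + kn + k² + k ≤ 2k(m+1) + (3k c0 + c0 + k² + 1)` (`2kN ≤ 2k(m + c0)`; use `nlinarith`/`Nat.mul_le_mul_left` to produce the products, then `omega`/`linarith`), `C2^(n+1) ≤ C2^(N+c0+1)` (`1 ≤ C2 k`: unfold, powers of positive numbers). -/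

open Polynomial MP_570bef_ntF

namespace MP_1ad228_ntD

variable {K : Type} [Field K] [Fintype K]

private theorem MoN_C2 (k : ℕ) : 1 ≤ C2 k := by
  unfold C2 C1
  apply Nat.one_le_iff_ne_zero.mpr
  positivity

private theorem MoN_exp (k m n E N c0 : ℕ) (hn : n ≤ N + c0) (hN1 : N ≤ m + c0)
    (hE : E ≤ k * N + c0) :
    (E + 1) + (k * n + k ^ 2 + k) ≤ (3 * k * c0 + c0 + k ^ 2 + 1) + (m + 1) * (2 * k) := by
  have h1 : k * n ≤ k * (N + c0) := Nat.mul_le_mul_left k hn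
  have h2 : k * N ≤ k * (m + c0) := Nat.mul_le_mul_left k hN1
  nlinarith

theorem moment_norm {ψ : AddChar K ℂ} (hψ : ψ ≠ 1) (k m E N c0 : ℕ) (hk : 2 ≤ k)
    (hchar : ∀ i : ℕ, 1 ≤ i → i ≤ k → (i : K) ≠ 0) (a w M M' : K[X]) (ha : a ≠ 0) (hM : M ≠ 0)
    (hw : w.natDegree ≤ M.natDegree + m + 1) (hn : M.natDegree + m + 1 ≤ N + c0) (hN1 : N ≤ m + c0)
    (hE : E ≤ k * N + c0) (g : K[X] → K[X]) (hg : ∀ y : K[X], M' * g y = a * ((w + M * y) ^ k - w ^ k))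
    (hgdeg : ∀ y : K[X], y.natDegree ≤ m → (g y).natDegree ≤ E) :
    ∑ c : Fin (E + 1) → K, (‖∑ y ∈ SS K m, ψ (lin c (g y))‖ / (Fintype.card K : ℝ) ^ (m + 1)) ^ (2 * k)
      ≤ (C2 k : ℝ) ^ (N + c0 + 1) * (Fintype.card K : ℝ) ^ (3 * k * c0 + c0 + k ^ 2 + 1) := by
  set n : ℕ := M.natDegree + m + 1 with hndef
  have hq1 : (1 : ℝ) ≤ (Fintype.card K : ℝ) := by
    exact_mod_cast Fintype.card_pos
  have hq0 : (0 : ℝ) < (Fintype.card K : ℝ) := by linarith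
  have h1 := moment_gg hψ k m n E a w M M' ha hM hw (by omega) g hg hgdeg
  have h2 : (En k k (SS K n) : ℝ) ≤ (C2 k : ℝ) ^ (n + 1) * (Fintype.card K : ℝ) ^ (k * n + k ^ 2 + k) := by
    exact_mod_cast En_SS_le k n hk hchar
  have hC2 : (1 : ℝ) ≤ (C2 k : ℝ) := by exact_mod_cast MoN_C2 k
  have h3 : (C2 k : ℝ) ^ (n + 1) ≤ (C2 k : ℝ) ^ (N + c0 + 1) :=
    pow_le_pow_right₀ hC2 (by omega)
  have h4 := MoN_exp k m n E N c0 hn hN1 hE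
  have h5 : (Fintype.card K : ℝ) ^ (E + 1) * (Fintype.card K : ℝ) ^ (k * n + k ^ 2 + k) ≤
      (Fintype.card K : ℝ) ^ (3 * k * c0 + c0 + k ^ 2 + 1) *
        (Fintype.card K : ℝ) ^ ((m + 1) * (2 * k)) := by
    rw [← pow_add, ← pow_add]
    exact pow_le_pow_right₀ hq1 h4
  have h6 : ∑ c : Fin (E + 1) → K,
      (‖∑ y ∈ SS K m, ψ (lin c (g y))‖ / (Fintype.card K : ℝ) ^ (m + 1)) ^ (2 * k) =
      (∑ c : Fin (E + 1) → K, ‖∑ y ∈ SS K m, ψ (lin c (g y))‖ ^ (2 * k)) /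
        (Fintype.card K : ℝ) ^ ((m + 1) * (2 * k)) := by
    rw [Finset.sum_div]
    apply Finset.sum_congr rfl
    intro c _
    rw [div_pow, ← pow_mul]
  rw [h6, div_le_iff₀ (by positivity)]
  calc (∑ c : Fin (E + 1) → K, ‖∑ y ∈ SS K m, ψ (lin c (g y))‖ ^ (2 * k))
      ≤ (Fintype.card K : ℝ) ^ (E + 1) * (En k k (SS K n) : ℝ) := h1
    _ ≤ (Fintype.card K : ℝ) ^ (E + 1) *
          ((C2 k : ℝ) ^ (n + 1) * (Fintype.card K : ℝ) ^ (k * n + k ^ 2 + k)) := by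
        gcongr
    _ = (C2 k : ℝ) ^ (n + 1) * ((Fintype.card K : ℝ) ^ (E + 1) *
          (Fintype.card K : ℝ) ^ (k * n + k ^ 2 + k)) := by ring
    _ ≤ (C2 k : ℝ) ^ (N + c0 + 1) * ((Fintype.card K : ℝ) ^ (3 * k * c0 + c0 + k ^ 2 + 1) *
        (Fintype.card K : ℝ) ^ ((m + 1) * (2 * k))) := by
        exact mul_le_mul h3 h5 (by positivity) (by positivity)
    _ = (C2 k : ℝ) ^ (N + c0 + 1) * (Fintype.card K : ℝ) ^ (3 * k * c0 + c0 + k ^ 2 + 1) *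
        (Fintype.card K : ℝ) ^ ((m + 1) * (2 * k)) := by ring

end MP_1ad228_ntD
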