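import Pool.Agent.Lib.MP_1ad228_ntD.Sup

/-! JOB SuN.  Normalised form of `sup_bound`.  `q = card K`, `Q = q^(m+1)`, `k = j + 1`, `g = N / 2`, `Y = E - m` (`m ≤ E` from `hdeg`).

`sup_bound` (needs `N / 2 ≤ m`: `hNm2`) divided by `Q^(2^j) q^(g+1)`: `φ^(2^j) ≤ j / Q + (q 2^Y)^j q^Y / (q^g Q^j)`, `φ = ‖fs‖ / Q` (`j ≤ 2^j`, `Nat.lt_two_pow_self`).
Second term: `q^j 2^(jY) q^Y / (q^g q^(j(m+1))) = 2^(jY) q^Y / (q^(j m) q^g)`, and `Y = E - m ≤ (j+1) N + c0 - m`, `m ≥ N - c0`: `Y ≤ j N + 2 c0`, `Y ≤ j m + (j+2) c0` (`E ≤ (j+1) N + c0 ≤ (j+1)(m + c0) + c0`).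
So it is `≤ 2^(j (jN + 2c0)) q^((j+2) c0) / q^g`.  First term: `j / q^(m+1) ≤ j q^(c0) / q^N ≤ j q^((j+2) c0) / q^g`.  Sum: `(j + 1) 2^(j²N + 2jc0) q^((j+2)c0) / q^g`.
(Cleanest: clear denominators and compare exponents in `ℕ` with `pow_le_pow_right₀`.) -/

open Polynomial MP_570bef_ntF

namespace MP_1ad228_ntD

variable {K : Type} [Field K] [Fintype K]

private theorem SuN_alg {q x : ℝ} {j m Y N c0 g a b : ℕ} (hq : 1 ≤ q) (hx : 0 ≤ x)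
    (hj : 1 ≤ j) (hgm : g ≤ m) (hb : b = (j + 2) * c0) (ha : a = j ^ 2 * N + 2 * j * c0)
    (hY1 : Y ≤ j * m + (j + 2) * c0) (hY2 : Y ≤ j * N + 2 * c0)
    (h : x ^ (2 ^ j) * q ^ (g + 1) ≤ (q ^ (m + 1)) ^ (2 ^ j - j) *
      (j * (q ^ (m + 1)) ^ (j - 1) * q ^ (g + 1) + (q * 2 ^ Y) ^ j * q ^ (Y + 1))) :
    (x / q ^ (m + 1)) ^ (2 ^ j) ≤ ((j : ℝ) + 1) * 2 ^ a * q ^ b / q ^ g := by
  have hq0 : 0 < q := by linarith
  have hQ : 0 < q ^ (m + 1) := by positivity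
  have hx' : 0 ≤ x ^ (2 ^ j) := pow_nonneg hx _
  rw [div_pow, div_le_div_iff₀ (by positivity) (by positivity)]
  have h1 : x ^ (2 ^ j) * q ^ g ≤ (q ^ (m + 1)) ^ (2 ^ j - j) *
      (j * (q ^ (m + 1)) ^ (j - 1) * q ^ g + (q * 2 ^ Y) ^ j * q ^ Y) := by
    refine le_of_mul_le_mul_right ?_ hq0
    calc x ^ (2 ^ j) * q ^ g * q = x ^ (2 ^ j) * q ^ (g + 1) := by rw [pow_succ q g]; ring
      _ ≤ _ := h
      _ = _ := by rw [pow_succ q g, pow_succ q Y]; ring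
  have h2 : (j : ℝ) * (q ^ (m + 1)) ^ (j - 1) * q ^ g ≤ j * (q ^ (m + 1)) ^ j := by
    have h3 : q ^ g ≤ q ^ (m + 1) := pow_le_pow_right₀ hq (by omega)
    obtain ⟨i, rfl⟩ : ∃ i, j = i + 1 := ⟨j - 1, by omega⟩
    rw [Nat.add_sub_cancel, pow_succ (q ^ (m + 1)) i, mul_assoc]
    refine mul_le_mul_of_nonneg_left ?_ (Nat.cast_nonneg _)
    exact mul_le_mul_of_nonneg_left h3 (by positivity)
  have h3 : (q * 2 ^ Y) ^ j * q ^ Y ≤ 2 ^ a * q ^ b * (q ^ (m + 1)) ^ j := by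
    have h4 : ((2 : ℝ) ^ Y) ^ j ≤ 2 ^ a := by
      rw [← pow_mul]
      refine pow_le_pow_right₀ (by norm_num) ?_
      rw [ha]
      calc Y * j ≤ (j * N + 2 * c0) * j := Nat.mul_le_mul_right _ hY2
        _ = j ^ 2 * N + 2 * j * c0 := by ring
    have h5 : q ^ Y ≤ q ^ (j * m) * q ^ b := by
      rw [← pow_add, hb]
      exact pow_le_pow_right₀ hq hY1
    calc (q * 2 ^ Y) ^ j * q ^ Y = q ^ j * (((2 : ℝ) ^ Y) ^ j * q ^ Y) := by rw [mul_pow]; ring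
      _ ≤ q ^ j * (2 ^ a * (q ^ (j * m) * q ^ b)) := by
          refine mul_le_mul_of_nonneg_left ?_ (by positivity)
          exact mul_le_mul h4 h5 (by positivity) (by positivity)
      _ = 2 ^ a * q ^ b * (q ^ (j * m) * q ^ j) := by ring
      _ = 2 ^ a * q ^ b * (q ^ (m + 1)) ^ j := by
          rw [← pow_add, ← pow_mul]
          congr 2
          ring
  have h6 : (1 : ℝ) ≤ 2 ^ a * q ^ b := by
    have h7 : (1 : ℝ) ≤ 2 ^ a := one_le_pow₀ (by norm_num)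
    have h8 : (1 : ℝ) ≤ q ^ b := one_le_pow₀ hq
    nlinarith
  have h7 : (j : ℝ) * (q ^ (m + 1)) ^ (j - 1) * q ^ g + (q * 2 ^ Y) ^ j * q ^ Y ≤
      (((j : ℝ) + 1) * 2 ^ a * q ^ b) * (q ^ (m + 1)) ^ j := by
    have h8 : (j : ℝ) * (q ^ (m + 1)) ^ j ≤ (j * (2 ^ a * q ^ b)) * (q ^ (m + 1)) ^ j := by
      refine mul_le_mul_of_nonneg_right ?_ (by positivity)
      have h9 : (0 : ℝ) ≤ j := Nat.cast_nonneg j
      nlinarith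
    calc _ ≤ (j * (2 ^ a * q ^ b)) * (q ^ (m + 1)) ^ j + 2 ^ a * q ^ b * (q ^ (m + 1)) ^ j :=
          add_le_add (h2.trans h8) h3
      _ = _ := by ring
  have hjle : j ≤ 2 ^ j := (Nat.lt_two_pow_self).le
  calc x ^ (2 ^ j) * q ^ g ≤ _ := h1
    _ ≤ (q ^ (m + 1)) ^ (2 ^ j - j) *
        ((((j : ℝ) + 1) * 2 ^ a * q ^ b) * (q ^ (m + 1)) ^ j) :=
        mul_le_mul_of_nonneg_left h7 (by positivity)
    _ = (((j : ℝ) + 1) * 2 ^ a * q ^ b) *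
        ((q ^ (m + 1)) ^ (2 ^ j - j) * (q ^ (m + 1)) ^ j) := by ring
    _ = (((j : ℝ) + 1) * 2 ^ a * q ^ b) * (q ^ (m + 1)) ^ (2 ^ j) := by
        rw [← pow_add, Nat.sub_add_cancel hjle]

theorem sup_norm {ψ : AddChar K ℂ} (hψ : ψ ≠ 1) (j m E r N c0 : ℕ) (hj : 1 ≤ j)
    (hchar : ∀ i : ℕ, 1 ≤ i → i ≤ j + 1 → (i : K) ≠ 0) (l : ℕ → K[X]) (hl0 : l (j + 1) ≠ 0)
    (hdeg : (l (j + 1)).natDegree + (j + 1) * m ≤ E) (hN1 : N ≤ m + c0) (hN2 : N / 2 ≤ m)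
    (hE : E ≤ (j + 1) * N + c0) (A : K[X] →ₗ[K] K) (hρ : IsRho A E r) (hgr : N / 2 < r) :
    (‖fs ψ (j + 1) l m A‖ / (Fintype.card K : ℝ) ^ (m + 1)) ^ (2 ^ j)
      ≤ ((j : ℝ) + 1) * 2 ^ (j ^ 2 * N + 2 * j * c0) * (Fintype.card K : ℝ) ^ ((j + 2) * c0) /
        (Fintype.card K : ℝ) ^ (N / 2) := by
  have hmE : m ≤ E := by nlinarith
  obtain ⟨Y, hY⟩ : ∃ Y, Y + m = E := ⟨E - m, by omega⟩
  have h := sup_bound hψ j m Y E r (N / 2) hj hY hN2 hchar l hl0 hdeg A hρ hgr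
  have hq : (1 : ℝ) ≤ (Fintype.card K : ℝ) := by
    exact_mod_cast Fintype.card_pos
  refine SuN_alg (Y := Y) (N := N) (c0 := c0) hq (norm_nonneg _) hj hN2 rfl rfl ?_ ?_ h
  · nlinarith
  · nlinarith

end MP_1ad228_ntD
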