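import Pool.Agent.Lib.MP_570bef_ntF.Cnt
import Pool.Agent.Lib.MP_1ad228_ntD.LoC
import Pool.Agent.Lib.MP_1ad228_ntD.Ct
import Pool.Agent.Lib.MP_1ad228_ntD.LoS
import Pool.Agent.Lib.MP_1ad228_ntD.HiS
import Pool.Agent.Lib.MP_1ad228_ntD.SuN
import Pool.Agent.Lib.MP_1ad228_ntD.MoN
import Pool.Agent.Lib.MP_1ad228_ntD.Asy

/-! The circle method: a system has a solution.  `q = card K`, `k = j + 1`.

Take `N0` from `asy` (for `j = k - 1`), and `N ≥ max N0 (2 c0)`; `g := N / 2`, so `g ≤ S.m i` for all `i` (`N ≤ m i + c0`, `2 c0 ≤ N`).  `ψ` from `exists_char`.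
Suppose that there is no `y` with `natDegree (y i) ≤ m i` and `G0 + ∑ gg k (l i) (y i) = 0` (otherwise `x i := w i + M * y i` is a solution by `sys_sol`, and it is not zero by `S.hnt`).  Then `count_sys` says
`∑_c ψ(lin c G0) ∏_i f_i(c) = 0`, `f_i(c) := fs ψ k (l i) (m i) (lin c)`.  The term `c = 0` is `∏_i Q_i`, `Q_i := q^(m i + 1)` (`lin 0 = 0`, `card_SS`).  So `∏ Q_i ≤ ∑_{c ≠ 0} ∏ ‖f_i(c)‖`, i.e. with `φ i c := ‖f_i(c)‖ / Q_i`:
`1 ≤ ∑_{c ≠ 0} ∏_i φ i c`.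
Rank: for every `c` choose `ρ c` with `IsRho (lin c) E (ρ c)` (`exists_rho`, `Classical.choose`).  `ρ c = 0` iff `c = 0` (`rho_zero`, `lin_eq_zero`).  Split `{c ≠ 0} = {1 ≤ ρ c ≤ g} ∪ {g < ρ c}`.
Low: `low_sum` with `low_rank_case` and `card_rho_le`: this part is `≤ 1/4`.
High: `sup_norm` for the index `0`, `moment_norm` (for every `i`), `high_sum`: the part is `≤ 2 k σ B ≤ 1/4` by `asy` (`8 k σ B ≤ 1`).
Total `≤ 1/2 < 1`: contradiction. -/

open Polynomial MP_570bef_ntF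

namespace MP_1ad228_ntD

/-- threshold for the number of elements of the field -/
def Q0 (k : ℕ) : ℕ :=
  (16 * (2 * k) ^ (2 * k + 1)) ^ k + 4 * (C2 k ^ (2 ^ (k - 1)) * 2 ^ ((k - 1) ^ 2)) ^ 2 + 16 * k ^ 6

private theorem Ana_lin_zero {K : Type} [Field K] (D : ℕ) : (lin (0 : Fin (D + 1) → K) : K[X] →ₗ[K] K) = 0 := by
  apply LinearMap.ext
  intro F
  rw [lin_zero]
  rfl

private theorem Ana_fs_zero {K : Type} [Field K] [Fintype K] (ψ : AddChar K ℂ) (k : ℕ) (l : ℕ → K[X]) (m : ℕ) :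
    fs ψ k l m (0 : K[X] →ₗ[K] K) = ((Fintype.card K : ℝ) ^ (m + 1) : ℝ) := by
  unfold fs
  simp only [LinearMap.zero_apply, AddChar.map_zero_eq_one, Finset.sum_const, card_SS]
  simp

theorem analytic {K : Type} [Field K] [Fintype K] (k : ℕ) (hk : 2 ≤ k)
    (hchar : ∀ i : ℕ, 1 ≤ i → i ≤ k → (i : K) ≠ 0) (hq : Q0 k ≤ Fintype.card K) (c0 : ℕ) :
    ∃ N0 : ℕ, ∀ N ≥ N0, ∀ a : Fin (2 * k + 1) → K[X], (∀ i, a i ≠ 0) → ∀ _ : Sys k a N c0,
      ∃ x : Fin (2 * k + 1) → K[X], x ≠ 0 ∧ ∑ i, a i * x i ^ k = 0 := by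
  classical
  obtain ⟨j, rfl⟩ : ∃ j, k = j + 1 := ⟨k - 1, by omega⟩
  have hj : 1 ≤ j := by omega
  have hk1 : 1 ≤ j + 1 := by omega
  unfold Q0 at hq
  rw [Nat.add_sub_cancel] at hq
  obtain ⟨N1, hN1⟩ := asy j (Fintype.card K) c0 hj (by omega)
  refine ⟨max N1 (2 * c0), ?_⟩
  intro N hN a ha S
  have hNN1 : N1 ≤ N := le_trans (le_max_left _ _) hN
  have hNc : 2 * c0 ≤ N := le_trans (le_max_right _ _) hN
  have hgm : ∀ i, N / 2 ≤ S.m i := by
    intro i
    have := S.hb1 i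
    omega
  obtain ⟨ψ, hψ⟩ := exists_char K
  by_contra hcon
  have hno : ∀ x : Fin (2 * (j + 1) + 1) → K[X], x ≠ 0 → ∑ i, a i * x i ^ (j + 1) ≠ 0 := by
    intro x hx h
    exact hcon ⟨x, hx, h⟩
  -- the count is zero
  have hempty : ((Fintype.piFinset (fun i : Fin (2 * (j + 1) + 1) => SS K (S.m i))).filter
          (fun y => S.G0 + ∑ i, gg (j + 1) (S.l i) (y i) = 0)).card = 0 := by
    rw [Finset.card_eq_zero, Finset.filter_eq_empty_iff]
    intro y hy h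
    rw [Fintype.mem_piFinset] at hy
    obtain ⟨i0, hi0⟩ := S.hnt
    apply hno (fun i => S.w i + S.M * y i)
    · intro h0
      exact hi0 (y i0) (mem_SS.mp (hy i0)) (congrFun h0 i0)
    · exact sys_sol S y h
  have hcount := count_sys hψ (2 * (j + 1) + 1) (j + 1) S.E S.l S.m S.hldeg S.G0 S.hG0deg
  rw [hempty, Nat.cast_zero, mul_zero] at hcount
  set q : ℝ := (Fintype.card K : ℝ) with hqdef
  have hq2 : (2 : ℝ) ≤ q := by
    rw [hqdef]
    exact_mod_cast (two_le_q (K := K))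
  have hq0 : 0 < q := by linarith
  set F : Fin (2 * (j + 1) + 1) → (Fin (S.E + 1) → K) → ℂ := fun i c => fs ψ (j + 1) (S.l i) (S.m i) (lin c) with hF
  set φ : Fin (2 * (j + 1) + 1) → (Fin (S.E + 1) → K) → ℝ := fun i c => ‖F i c‖ / q ^ (S.m i + 1) with hφ
  have hφ0 : ∀ i c, 0 ≤ φ i c := fun i c => by positivity
  have hQ : ∀ i, 0 < q ^ (S.m i + 1) := fun i => by positivity
  -- the main inequality
  have hone : (1 : ℝ) ≤ ∑ c ∈ Finset.univ.erase (0 : Fin (S.E + 1) → K), ∏ i, φ i c := by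
    have h1 : ψ (lin (0 : Fin (S.E + 1) → K) S.G0) * ∏ i, F i 0 = ((∏ i, q ^ (S.m i + 1) : ℝ) : ℂ) := by
      have e1 : ∀ i, F i 0 = ((q ^ (S.m i + 1) : ℝ) : ℂ) := by
        intro i
        show fs ψ (j + 1) (S.l i) (S.m i) (lin 0) = _
        rw [Ana_lin_zero, Ana_fs_zero]
      rw [lin_zero, AddChar.map_zero_eq_one, one_mul, Finset.prod_congr rfl (fun i _ => e1 i)]
      push_cast
      rfl
    have h2 : ψ (lin (0 : Fin (S.E + 1) → K) S.G0) * ∏ i, F i 0 +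
        ∑ c ∈ Finset.univ.erase (0 : Fin (S.E + 1) → K), ψ (lin c S.G0) * ∏ i, F i c = 0 := by
      rw [Finset.add_sum_erase Finset.univ (fun c : Fin (S.E + 1) → K => ψ (lin c S.G0) * ∏ i, F i c)
        (Finset.mem_univ 0)]
      exact hcount
    rw [h1] at h2
    have hP : 0 < ∏ i, q ^ (S.m i + 1) := Finset.prod_pos (fun i _ => hQ i)
    have h3 : ∏ i, q ^ (S.m i + 1) ≤ ∑ c ∈ Finset.univ.erase (0 : Fin (S.E + 1) → K), ∏ i, ‖F i c‖ := by
      have h4 : ((∏ i, q ^ (S.m i + 1) : ℝ) : ℂ) =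
          - ∑ c ∈ Finset.univ.erase (0 : Fin (S.E + 1) → K), ψ (lin c S.G0) * ∏ i, F i c :=
        eq_neg_of_add_eq_zero_left h2
      have h5 := congrArg norm h4
      rw [norm_neg, Complex.norm_real, Real.norm_of_nonneg hP.le] at h5
      rw [h5]
      refine (norm_sum_le _ _).trans (Finset.sum_le_sum ?_)
      intro c _
      rw [norm_mul, norm_char, one_mul, norm_prod]
    have h6 : ∑ c ∈ Finset.univ.erase (0 : Fin (S.E + 1) → K), ∏ i, φ i c =
        (∑ c ∈ Finset.univ.erase (0 : Fin (S.E + 1) → K), ∏ i, ‖F i c‖) / ∏ i, q ^ (S.m i + 1) := by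
      rw [Finset.sum_div]
      apply Finset.sum_congr rfl
      intro c _
      exact Finset.prod_div_distrib _ _
    rw [h6, le_div_iff₀ hP, one_mul]
    exact h3
  -- ranks
  have hex : ∀ c : Fin (S.E + 1) → K, ∃ m ≤ S.E + 1, IsRho (lin c) S.E m := fun c => exists_rho (lin c) S.E
  choose ρ hρle hρ using hex
  have hρ1 : ∀ c, c ≠ 0 → 1 ≤ ρ c := by
    intro c hc
    by_contra hlt
    have h0 : ρ c = 0 := by omega
    have h1 := hρ c
    rw [h0, rho_zero] at h1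
    exact hc (lin_eq_zero h1)
  set S1 : Finset (Fin (S.E + 1) → K) := Finset.univ.filter (fun c => 1 ≤ ρ c ∧ ρ c ≤ N / 2) with hS1
  set S2 : Finset (Fin (S.E + 1) → K) := Finset.univ.filter (fun c => N / 2 < ρ c) with hS2
  have hdisj : Disjoint S1 S2 := by
    rw [Finset.disjoint_left]
    intro c h1 h2
    rw [hS1, Finset.mem_filter] at h1
    rw [hS2, Finset.mem_filter] at h2
    omega
  have hsub : Finset.univ.erase (0 : Fin (S.E + 1) → K) ⊆ S1 ∪ S2 := by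
    intro c hc
    rw [Finset.mem_erase] at hc
    have h1 := hρ1 c hc.1
    rw [Finset.mem_union, hS1, hS2, Finset.mem_filter, Finset.mem_filter]
    by_cases h : ρ c ≤ N / 2
    · exact Or.inl ⟨Finset.mem_univ _, h1, h⟩
    · exact Or.inr ⟨Finset.mem_univ _, by omega⟩
  have hsplit : ∑ c ∈ Finset.univ.erase (0 : Fin (S.E + 1) → K), ∏ i, φ i c ≤
      ∑ c ∈ S1, ∏ i, φ i c + ∑ c ∈ S2, ∏ i, φ i c := by
    rw [← Finset.sum_union hdisj]
    exact Finset.sum_le_sum_of_subset_of_nonneg hsub (fun c _ _ => Finset.prod_nonneg (fun i _ => hφ0 i c))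
  have hqk : ((16 * (2 * ((j + 1 : ℕ) : ℝ)) ^ (2 * (j + 1) + 1)) ^ (j + 1) : ℝ) ≤ q := by
    have : (16 * (2 * (j + 1)) ^ (2 * (j + 1) + 1)) ^ (j + 1) ≤ Fintype.card K := by omega
    have h2 : (((16 * (2 * (j + 1)) ^ (2 * (j + 1) + 1)) ^ (j + 1) : ℕ) : ℝ) ≤ (Fintype.card K : ℝ) := by
      exact_mod_cast this
    rw [hqdef]
    refine le_trans (le_of_eq ?_) h2
    push_cast
    ring
  -- low ranks
  have hlow : ∑ c ∈ S1, ∏ i, φ i c ≤ 1 / 4 := by
    apply low_sum (j + 1) hk q hqk ρ φ hφ0 (N / 2) S1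
    · intro c hc
      rw [hS1, Finset.mem_filter] at hc
      exact hc.2
    · intro c hc
      rw [hS1, Finset.mem_filter] at hc
      obtain ⟨_, hc1, hc2⟩ := hc
      rcases low_rank_case hψ hk (hchar (j + 1) hk1 le_rfl) S (lin c) (ρ c) hc1 (hρ c)
        (fun i => by have := hgm i; omega) with h | h
      · obtain ⟨i, hi⟩ := h
        left
        refine ⟨i, ?_⟩
        show ‖fs ψ (j + 1) (S.l i) (S.m i) (lin c)‖ / _ = 0
        rw [hi, norm_zero, zero_div]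
      · right
        intro i
        have h1 := h i
        show (‖fs ψ (j + 1) (S.l i) (S.m i) (lin c)‖ / q ^ (S.m i + 1)) ^ (j + 1) * q ^ ρ c ≤ _
        rw [div_pow, div_mul_eq_mul_div, div_le_iff₀ (pow_pos (hQ i) _)]
        exact h1
    · intro r hr1 hr2
      have hrE : r ≤ S.E + 1 := by
        have h1 := S.hldeg 0 (j + 1) hk1 le_rfl
        have h2 := hgm 0
        have h3 : S.m 0 ≤ (j + 1) * S.m 0 := Nat.le_mul_of_pos_left _ (by omega)
        omega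
      have h1 := card_rho_le (K := K) S.E r hrE
      rw [cnt_eq] at h1
      have h2 : (S1.filter (fun c => ρ c = r)).card ≤
          (Finset.univ.filter (fun c : Fin (S.E + 1) → K => IsRho (lin c) S.E r)).card := by
        apply Finset.card_le_card
        intro c hc
        rw [Finset.mem_filter] at hc ⊢
        refine ⟨Finset.mem_univ _, ?_⟩
        rw [← hc.2]
        exact hρ c
      have h3 := h2.trans h1
      rw [hqdef]
      exact_mod_cast h3
  -- high ranks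
  have hhigh : ∑ c ∈ S2, ∏ i, φ i c ≤ 1 / 4 := by
    rcases S2.eq_empty_or_nonempty with he | hne
    · rw [he, Finset.sum_empty]
      norm_num
    obtain ⟨c1, hc1, hmax⟩ := Finset.exists_max_image S2 (fun c => φ 0 c) hne
    have hc1' : N / 2 < ρ c1 := by
      rw [hS2, Finset.mem_filter] at hc1
      exact hc1.2
    have hsup := sup_norm hψ j (S.m 0) S.E (ρ c1) N c0 hj hchar (S.l 0) (sys_lk hk1 S 0 (ha 0))
      (S.hldeg 0 (j + 1) hk1 le_rfl) (S.hb1 0) (hgm 0) S.hb3 (lin c1) (hρ c1) hc1'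
    have hA := hN1 N hNN1 (φ 0 c1) (hφ0 0 c1) hsup
    have hB := high_sum (j + 1) hk1 φ hφ0 S2 (φ 0 c1)
      ((C2 (j + 1) : ℝ) ^ (N + c0 + 1) * q ^ (3 * (j + 1) * c0 + c0 + (j + 1) ^ 2 + 1)) (hφ0 0 c1) hmax
      (fun i => moment_norm hψ (j + 1) (S.m i) S.E N c0 hk hchar (a i) (S.w i) S.M S.M' (ha i) S.hM (S.hw i)
        (S.hb2 i) (S.hb1 i) S.hb3 (gg (j + 1) (S.l i)) (sys_gg S i)
        (fun y hy => gg_deg (j + 1) (S.m i) S.E (S.l i) (S.hldeg i) y hy))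
    push_cast at hB
    refine hB.trans ?_
    linarith
  linarith

end MP_1ad228_ntD
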