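import Pool.Agent.Lib.MP_1ad228_ntD.Crt

/-! JOB BdP.  The bad primes: `P := (UniqueFactorizationMonoid.normalizedFactors (∏ i, a i)).toFinset` (`∏ a i ≠ 0`; normalised irreducible factors are monic: `normalize_eq_self_iff_monic`, `UniqueFactorizationMonoid.normalize_normalized_factor`, `irreducible_of_normalized_factor`).
If `b` is coprime to `∏_{π∈P} π` it is coprime to every `π ∈ P` (`IsCoprime.of_isCoprime_of_dvd_right`, `Finset.dvd_prod_of_mem`), hence to every `∏_{π∈P} π^(f π)` (`IsCoprime.prod_right`, `IsCoprime.pow_right`), and to every `a i`: otherwise `b` and `a i` have a common irreducible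
factor `ρ` (`isCoprime_of_prime_dvd`-type lemma: `K[X]` is a PID; if `¬ IsCoprime b (a i)`, the gcd is not a unit; `a i ≠ 0`), `ρ ∣ ∏ a i`, so `ρ` is associated to some `π ∈ P` (`UniqueFactorizationMonoid.exists_mem_normalizedFactors_of_dvd`), which would divide `b`, contradiction.
Last claim: `ρ` irreducible dividing `∏_{π∈P} π` divides some `π ∈ P` (`Prime.dvd_finset_prod_iff`), both irreducible, so associated (`Irreducible.associated_of_dvd`). -/

open Polynomial MP_570bef_ntF

namespace MP_1ad228_ntD

variable {K : Type} [Field K]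

/-- the bad primes: monic irreducible divisors of `∏ a i` (`UniqueFactorizationMonoid.normalizedFactors (∏ i, a i)).toFinset`); `hcop`: if `b` is coprime to `M = ∏_{π∈P} π` it is coprime to every `a i` (an irreducible common factor,
made monic, would be in `P`, so divide `M`) and to every `∏_{π∈P} π^(f π)` (`IsCoprime.prod_right`, `IsCoprime.pow_right`). -/
theorem bad_primes {s : ℕ} (a : Fin s → K[X]) (ha : ∀ i, a i ≠ 0) :
    ∃ P : Finset K[X], (∀ π ∈ P, Irreducible π ∧ π.Monic) ∧
      (∀ b : K[X], IsCoprime b (∏ π ∈ P, π) → (∀ i, IsCoprime b (a i)) ∧ ∀ f : K[X] → ℕ, IsCoprime b (∏ π ∈ P, π ^ (f π))) ∧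
      (∀ π : K[X], Irreducible π → π ∣ ∏ π ∈ P, π → ∃ π' ∈ P, Associated π π') := by
  classical
  have ha0 : (∏ i, a i) ≠ 0 := Finset.prod_ne_zero_iff.2 fun i _ => ha i
  set N := UniqueFactorizationMonoid.normalizedFactors (∏ i, a i) with hN
  have hirr : ∀ π ∈ N, Irreducible π := fun π hπ =>
    UniqueFactorizationMonoid.irreducible_of_normalized_factor π hπ
  have hmon : ∀ π ∈ N, π.Monic := by
    intro π hπ
    have h1 := UniqueFactorizationMonoid.normalize_normalized_factor π hπ
    exact (normalize_eq_self_iff_monic (hirr π hπ).ne_zero).1 h1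
  refine ⟨N.toFinset, ?_, ?_, ?_⟩
  · intro π hπ
    rw [Multiset.mem_toFinset] at hπ
    exact ⟨hirr π hπ, hmon π hπ⟩
  · intro b hb
    have hbπ : ∀ π ∈ N, IsCoprime b π := by
      intro π hπ
      exact IsCoprime.of_isCoprime_of_dvd_right hb
        (Finset.dvd_prod_of_mem (fun π => π) (Multiset.mem_toFinset.2 hπ))
    constructor
    · intro i
      have h1 : ∀ s : Multiset K[X], (∀ x ∈ s, IsCoprime b x) → IsCoprime b s.prod := by
        intro s
        induction s using Multiset.induction with
        | empty =>
          intro _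
          rw [Multiset.prod_zero]
          exact isCoprime_one_right
        | cons x s ih =>
          intro h
          rw [Multiset.prod_cons]
          exact IsCoprime.mul_right (h x (Multiset.mem_cons_self x s))
            (ih fun y hy => h y (Multiset.mem_cons_of_mem hy))
      have h2 : IsCoprime b N.prod := h1 N hbπ
      have h3 : a i ∣ N.prod :=
        (Finset.dvd_prod_of_mem a (Finset.mem_univ i)).trans
          (UniqueFactorizationMonoid.prod_normalizedFactors ha0).symm.dvd
      exact IsCoprime.of_isCoprime_of_dvd_right h2 h3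
    · intro f
      exact IsCoprime.prod_right fun π hπ => (hbπ π (Multiset.mem_toFinset.1 hπ)).pow_right
  · intro ρ hρ hd
    obtain ⟨π, hπ, hρπ⟩ := (hρ.prime.dvd_finsetProd_iff _).1 hd
    exact ⟨π, hπ, hρ.associated_of_dvd (hirr π (Multiset.mem_toFinset.1 hπ)) hρπ⟩

end MP_1ad228_ntD
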