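import Pool.Agent.Lib.MP_1ad228_ntD.Rt

/-! JOB Ce.  Constant extensions inside extensions of `K(t)` of degree prime to `p`.

`const_emb`: `F := RatFunc K`.  `K' = K(θ)` (`Field.exists_primitive_element`, finite fields are perfect), `P := minpoly K θ`, `natDegree P = finrank K K'` not divisible by `p`.  `root_prime_to` for `P.map (algebraMap K F)` gives `L`, `x` with `aeval x (P.map _) = 0`, i.e. `aeval x P = 0` for
the `K`-algebra structure `K → F → L` on `L`.  So there is a ring homomorphism `ι : K' → L` with `ι ∘ (K → K') = (K → F → L)` (`IntermediateField.adjoin.powerBasis`/`PowerBasis.lift`, or `AdjoinRoot` of `P`).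
`φ := Polynomial.eval₂RingHom ι (algebraMap F L RatFunc.X)`.  Compatibility: `eval₂ ι X_L (a.map _) = eval₂ (ι ∘ ..) X_L a = algebraMap F L (algebraMap K[X] F a)` (both are ring homomorphisms on `K[X]`: `Polynomial.ringHom_ext`).
Injective: let `f ≠ 0` with `φ f = 0`: then `t := algebraMap F L RatFunc.X` is algebraic over `K'` (via `ι`), `K'` is algebraic over `K`, so `t` is algebraic over `K` (`IsAlgebraic` in towers, `Algebra.IsAlgebraic.trans`/`isAlgebraic_trans`,
`IsAlgebraic.restrictScalars`), hence a nonzero `h ∈ K[X]` has `h(t) = 0`, i.e. `algebraMap F L (algebraMap K[X] F h) = 0`, `h = 0` (`RatFunc.algebraMap_injective`, field homomorphisms are injective): contradiction. -/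

open Polynomial

namespace MP_1ad228_ntD

theorem const_emb (p : ℕ) (hp : p.Prime) (K K' : Type) [Field K] [Fintype K] [Field K'] [Fintype K']
    [Algebra K K'] (hf : ¬ p ∣ Module.finrank K K') :
    ∃ (L : Type) (_ : Field L) (_ : Algebra (RatFunc K) L), FiniteDimensional (RatFunc K) L ∧
      ¬ p ∣ Module.finrank (RatFunc K) L ∧
      ∃ φ : K'[X] →+* L, Function.Injective φ ∧
        ∀ a : K[X], φ (a.map (algebraMap K K')) = algebraMap (RatFunc K) L (algebraMap K[X] (RatFunc K) a) := by
  haveI : Finite K' := inferInstance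
  haveI : FiniteDimensional K K' := Module.Finite.of_finite
  let pb : PowerBasis K K' := Field.powerBasisOfFiniteOfSeparable K K'
  have hdeg : (minpoly K pb.gen).natDegree = Module.finrank K K' := by
    rw [PowerBasis.natDegree_minpoly, PowerBasis.finrank]
  obtain ⟨L, iL, iA, hfin, hpL, x, hx⟩ := root_prime_to p hp (RatFunc K)
    ((minpoly K pb.gen).map (algebraMap K (RatFunc K))) (by rwa [natDegree_map, hdeg])
  refine ⟨L, iL, iA, hfin, hpL, ?_⟩
  letI : Algebra K L := ((algebraMap (RatFunc K) L).comp (algebraMap K (RatFunc K))).toAlgebra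
  haveI : IsScalarTower K (RatFunc K) L := IsScalarTower.of_algebraMap_eq (fun _ => rfl)
  have hx' : aeval x (minpoly K pb.gen) = 0 := by
    rw [aeval_map_algebraMap] at hx
    exact hx
  let ι : K' →ₐ[K] L := pb.lift x hx'
  set t : L := algebraMap (RatFunc K) L RatFunc.X with ht
  have key : ∀ a : K[X], aeval t a = algebraMap (RatFunc K) L (algebraMap K[X] (RatFunc K) a) := by
    intro a
    rw [ht, Polynomial.aeval_algebraMap_apply, RatFunc.aeval_X_left_eq_algebraMap]
  refine ⟨eval₂RingHom ι.toRingHom t, ?_, ?_⟩
  · rw [injective_iff_map_eq_zero]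
    intro f hf0
    by_contra hne
    letI : Algebra K' L := ι.toRingHom.toAlgebra
    haveI : IsScalarTower K K' L := IsScalarTower.of_algebraMap_eq (fun k => (ι.commutes k).symm)
    have h1 : IsAlgebraic K' t := ⟨f, hne, hf0⟩
    have h2 : IsAlgebraic K t := h1.restrictScalars K
    obtain ⟨h, hh0, hh⟩ := h2
    rw [key h] at hh
    have h3 : algebraMap K[X] (RatFunc K) h = 0 := by
      apply (algebraMap (RatFunc K) L).injective
      rw [hh, map_zero]
    apply hh0
    apply RatFunc.algebraMap_injective K
    rw [h3, map_zero]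
  · intro a
    rw [← key a, coe_eval₂RingHom, eval₂_map]
    have h4 : ι.toRingHom.comp (algebraMap K K') = algebraMap K L := by
      ext k
      exact ι.commutes k
    rw [h4]
    rfl

end MP_1ad228_ntD
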