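import Pool.Agent.Lib.MP_570bef_ntF.Base

/-! Diagonal equations over `K[t]` (MP_1ad228_nt).  Definitions. -/

open Polynomial MP_570bef_ntF

namespace MP_1ad228_ntD

variable {K : Type} [Field K]

/-- the polynomial `g(y) = ∑_{1 ≤ j ≤ k} l_j y^j` -/
noncomputable def gg (k : ℕ) (l : ℕ → K[X]) (y : K[X]) : K[X] :=
  ∑ j ∈ Finset.Icc 1 k, l j * y ^ j

/-- its derivative `∑_{1 ≤ j ≤ k} j l_j y^(j-1)` -/
noncomputable def dg (k : ℕ) (l : ℕ → K[X]) (y : K[X]) : K[X] :=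
  ∑ j ∈ Finset.Icc 1 k, (j : K[X]) * l j * y ^ (j - 1)

/-- exponential sum of `g` over all polynomials of degree at most `m` -/
noncomputable def fs [Fintype K] (ψ : AddChar K ℂ) (k : ℕ) (l : ℕ → K[X]) (m : ℕ) (A : K[X] →ₗ[K] K) : ℂ :=
  ∑ y ∈ SS K m, ψ (A (gg k l y))

open Classical in
/-- the tuples `(h_1, …, h_j)` of polynomials of degree at most `m` such that `A (L h_1 ⋯ h_j y) = 0` for
all `y` of degree at most `m` -/
noncomputable def WS [Fintype K] (A : K[X] →ₗ[K] K) (m j : ℕ) (L : K[X]) : Finset (Fin j → K[X]) :=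
  (Fintype.piFinset (fun _ : Fin j => SS K m)).filter
    (fun h => ∀ y : K[X], y.natDegree ≤ m → A (L * (∏ i, h i) * y) = 0)

/-- the local data at infinity and at the bad primes, packed: the equation `∑ a_i x_i^k = 0` with
`x_i = w_i + M y_i`, `y_i` of degree at most `m_i`, becomes `G0 + ∑ g_i(y_i) = 0` in degree at most `E`,
where `M' g_i(y) = a_i ((w_i + M y)^k - w_i^k)`, `M' G0 = ∑ a_i w_i^k`. -/
structure Sys (k : ℕ) (a : Fin (2 * k + 1) → K[X]) (N c0 : ℕ) where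
  M : K[X]
  M' : K[X]
  G0 : K[X]
  w : Fin (2 * k + 1) → K[X]
  l : Fin (2 * k + 1) → ℕ → K[X]
  m : Fin (2 * k + 1) → ℕ
  E : ℕ
  hM : M ≠ 0
  hM' : M' ≠ 0
  hcop : ∀ b : K[X], IsCoprime b M → IsCoprime b M' ∧ ∀ i, IsCoprime b (a i)
  hw : ∀ i, (w i).natDegree ≤ M.natDegree + m i + 1
  hl : ∀ i j, 1 ≤ j → j ≤ k → M' * l i j = (k.choose j : K[X]) * a i * w i ^ (k - j) * M ^ j
  hldeg : ∀ i j, 1 ≤ j → j ≤ k → (l i j).natDegree + j * m i ≤ E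
  hG0 : M' * G0 = ∑ i, a i * w i ^ k
  hG0deg : G0.natDegree ≤ E
  hpi : ∀ π : K[X], Irreducible π → π ∣ M → ∃ i, ¬ π ∣ l i 1 ∧ ∀ j, 2 ≤ j → j ≤ k → π ∣ l i j
  hinf : ∃ i, l i 1 ≠ 0 ∧ (l i 1).natDegree + m i = E ∧ ∀ j, 2 ≤ j → j ≤ k → (l i j).natDegree + j * m i < E
  hnt : ∃ i, ∀ y : K[X], y.natDegree ≤ m i → w i + M * y ≠ 0
  hb1 : ∀ i, N ≤ m i + c0
  hb2 : ∀ i, M.natDegree + m i + 1 ≤ N + c0
  hb3 : E ≤ k * N + c0

end MP_1ad228_ntD
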