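import Pool.Agent.Lib.MP_570bef_ntF.Base

/-! JOB DgL.  Degrees of the coefficients `l j`: `M' * l j = C(k,j) a w^(k-j) M^j`, `n = natDegree M + m + 1`, `E + 1 + natDegree M' = Dt`.  `μ = natDegree M`, `μ' = natDegree M'`.

`l k`: `M' l_k = a M^k`, so `l k ≠ 0` and `natDegree (l k) + μ' = natDegree a + k μ` (`natDegree_mul`, `natDegree_pow`).
Case A (`natDegree a + k n = Dt`, `natDegree w ≤ n`): `natDegree (l k) + k m + k = E + 1`, so `k m + k ≤ E + 1`.  For `l j ≠ 0`: `natDegree (l j) + μ' ≤ natDegree a + (k-j) n + j μ` (`natDegree_mul_le`, `natDegree_pow_le`, `natDegree_natCast`), so `natDegree (l j) + j m + j ≤ E + 1`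
(`k n = (k-j) n + j n`, `n = μ + m + 1`).  If `l j = 0`: `j m + j ≤ k m + k ≤ E + 1`.  This is `deg_A`: `natDegree (l j) + j * m + j ≤ E + 1`.
If moreover `w` has exact degree `n`, `w ≠ 0` and `(k : K) ≠ 0`: `l 1 ≠ 0` (the right side `k a w^(k-1) M` is `≠ 0`) and all inequalities are equalities: `natDegree (l 1) + m = E`: `deg_A1`.
Case B (`natDegree a + k n < Dt + k`, `natDegree w + 1 ≤ n`): `natDegree (l k) + μ' = natDegree a + k μ`, `k n = k μ + k m + k`: `natDegree (l k) + k m ≤ E`.  `l j ≠ 0`: `natDegree (l j) + μ' ≤ natDegree a + (k-j)(n-1) + j μ`, `k (n-1) = (k-j)(n-1) + j (μ + m)`: `natDegree (l j) + j m ≤ E`.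
`l j = 0`: `j m ≤ k m ≤ E`.  (Write `k = j + i` and use `ring_nf`/`nlinarith`/`omega` after generalizing products.) -/

open Polynomial MP_570bef_ntF

namespace MP_1ad228_ntD

variable {K : Type} [Field K]

private theorem DgL_k (k m n E Dt : ℕ) (a w M M' : K[X]) (ha : a ≠ 0) (hM : M ≠ 0) (hM' : M' ≠ 0)
    (l : ℕ → K[X])
    (hl : ∀ j, 1 ≤ j → j ≤ k → M' * l j = (k.choose j : K[X]) * a * w ^ (k - j) * M ^ j)
    (hk : 1 ≤ k) : M'.natDegree + (l k).natDegree = a.natDegree + k * M.natDegree := by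
  have h := hl k hk le_rfl
  rw [Nat.choose_self, Nat.cast_one, one_mul, Nat.sub_self, pow_zero, mul_one] at h
  have h0 : l k ≠ 0 := by
    intro h1
    rw [h1, mul_zero] at h
    exact mul_ne_zero ha (pow_ne_zero k hM) h.symm
  rw [← natDegree_mul hM' h0, h, natDegree_mul ha (pow_ne_zero k hM), natDegree_pow]

private theorem DgL_j (k W : ℕ) (a w M M' : K[X]) (hM' : M' ≠ 0) (hw : w.natDegree ≤ W)
    (l : ℕ → K[X])
    (hl : ∀ j, 1 ≤ j → j ≤ k → M' * l j = (k.choose j : K[X]) * a * w ^ (k - j) * M ^ j) (j : ℕ)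
    (hj1 : 1 ≤ j) (hjk : j ≤ k) (h0 : l j ≠ 0) :
    M'.natDegree + (l j).natDegree ≤ a.natDegree + (k - j) * W + j * M.natDegree := by
  have h := hl j hj1 hjk
  rw [← natDegree_mul hM' h0, h]
  have h1 : ((k.choose j : K[X]) * a * w ^ (k - j) * M ^ j).natDegree ≤
      ((k.choose j : K[X]) * a * w ^ (k - j)).natDegree + (M ^ j).natDegree := natDegree_mul_le
  have h2 : ((k.choose j : K[X]) * a * w ^ (k - j)).natDegree ≤
      ((k.choose j : K[X]) * a).natDegree + (w ^ (k - j)).natDegree := natDegree_mul_le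
  have h3 : ((k.choose j : K[X]) * a).natDegree ≤ (k.choose j : K[X]).natDegree + a.natDegree :=
    natDegree_mul_le
  rw [natDegree_natCast, zero_add] at h3
  have h4 : (w ^ (k - j)).natDegree ≤ (k - j) * w.natDegree := natDegree_pow_le
  have h5 : (M ^ j).natDegree ≤ j * M.natDegree := natDegree_pow_le
  have h6 : (k - j) * w.natDegree ≤ (k - j) * W := Nat.mul_le_mul_left _ hw
  omega

theorem deg_A (k m n E Dt : ℕ) (a w M M' : K[X]) (ha : a ≠ 0) (hM : M ≠ 0) (hM' : M' ≠ 0)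
    (hn : n = M.natDegree + m + 1) (hE : E + 1 + M'.natDegree = Dt) (hDt : a.natDegree + k * n = Dt)
    (hw : w.natDegree ≤ n) (l : ℕ → K[X])
    (hl : ∀ j, 1 ≤ j → j ≤ k → M' * l j = (k.choose j : K[X]) * a * w ^ (k - j) * M ^ j) (j : ℕ) (hj1 : 1 ≤ j)
    (hjk : j ≤ k) : (l j).natDegree + j * m + j ≤ E + 1 := by
  have hk1 : 1 ≤ k := hj1.trans hjk
  have hkk := DgL_k k m n E Dt a w M M' ha hM hM' l hl hk1
  have hkE : k * m + k ≤ E + 1 := by
    subst hn
    have h1 : k * (M.natDegree + m + 1) = k * M.natDegree + k * m + k := by ring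
    omega
  by_cases h0 : l j = 0
  · rw [h0, natDegree_zero]
    have h1 : j * m ≤ k * m := Nat.mul_le_mul_right _ hjk
    omega
  · have h1 := DgL_j k n a w M M' hM' hw l hl j hj1 hjk h0
    obtain ⟨i, rfl⟩ : ∃ i, k = j + i := ⟨k - j, by omega⟩
    rw [Nat.add_sub_cancel_left] at h1
    have h2 : (j + i) * n = i * n + (j * M.natDegree + j * m + j) := by
      rw [hn]
      ring
    omega

theorem deg_A1 (k m n E Dt : ℕ) (hk : 1 ≤ k) (hkK : (k : K) ≠ 0) (a w M M' : K[X]) (ha : a ≠ 0) (hM : M ≠ 0)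
    (hM' : M' ≠ 0) (hn : n = M.natDegree + m + 1) (hE : E + 1 + M'.natDegree = Dt)
    (hDt : a.natDegree + k * n = Dt) (hw : w.natDegree = n) (l : ℕ → K[X])
    (hl : ∀ j, 1 ≤ j → j ≤ k → M' * l j = (k.choose j : K[X]) * a * w ^ (k - j) * M ^ j) :
    l 1 ≠ 0 ∧ (l 1).natDegree + m = E := by
  have h := hl 1 le_rfl hk
  rw [Nat.choose_one_right, pow_one] at h
  have hw0 : w ≠ 0 := by
    rintro rfl
    rw [natDegree_zero] at hw
    omega
  have hkX : (k : K[X]) ≠ 0 := by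
    rw [← map_natCast (C : K →+* K[X]) k]
    exact C_ne_zero.2 hkK
  have h1 : (k : K[X]) * a * w ^ (k - 1) * M ≠ 0 :=
    mul_ne_zero (mul_ne_zero (mul_ne_zero hkX ha) (pow_ne_zero _ hw0)) hM
  have h0 : l 1 ≠ 0 := by
    intro h2
    rw [h2, mul_zero] at h
    exact h1 h.symm
  refine ⟨h0, ?_⟩
  have h2 : M'.natDegree + (l 1).natDegree = a.natDegree + (k - 1) * n + M.natDegree := by
    rw [← natDegree_mul hM' h0, h, natDegree_mul (mul_ne_zero (mul_ne_zero hkX ha)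
      (pow_ne_zero _ hw0)) hM, natDegree_mul (mul_ne_zero hkX ha) (pow_ne_zero _ hw0),
      natDegree_mul hkX ha, natDegree_natCast, natDegree_pow, zero_add, hw]
  obtain ⟨i, rfl⟩ : ∃ i, k = 1 + i := ⟨k - 1, by omega⟩
  rw [Nat.add_sub_cancel_left] at h2
  have h3 : (1 + i) * n = i * n + n := by ring
  omega

theorem deg_B (k m n E Dt : ℕ) (a w M M' : K[X]) (ha : a ≠ 0) (hM : M ≠ 0) (hM' : M' ≠ 0)
    (hn : n = M.natDegree + m + 1) (hE : E + 1 + M'.natDegree = Dt) (hDt : a.natDegree + k * n < Dt + k)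
    (hw : w.natDegree + 1 ≤ n) (l : ℕ → K[X])
    (hl : ∀ j, 1 ≤ j → j ≤ k → M' * l j = (k.choose j : K[X]) * a * w ^ (k - j) * M ^ j) (j : ℕ) (hj1 : 1 ≤ j)
    (hjk : j ≤ k) : (l j).natDegree + j * m ≤ E := by
  have hk1 : 1 ≤ k := hj1.trans hjk
  have hkk := DgL_k k m n E Dt a w M M' ha hM hM' l hl hk1
  have hkE : k * m ≤ E := by
    have h1 : k * n = k * M.natDegree + k * m + k := by
      rw [hn]
      ring
    omega
  by_cases h0 : l j = 0
  · rw [h0, natDegree_zero]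
    have h1 : j * m ≤ k * m := Nat.mul_le_mul_right _ hjk
    omega
  · have h1 := DgL_j k (n - 1) a w M M' hM' (by omega) l hl j hj1 hjk h0
    obtain ⟨i, rfl⟩ : ∃ i, k = j + i := ⟨k - j, by omega⟩
    rw [Nat.add_sub_cancel_left] at h1
    have h3 : n - 1 = M.natDegree + m := by omega
    rw [h3] at h1
    have h2 : (j + i) * n = i * (M.natDegree + m) + i + (j * M.natDegree + j * m + j) := by
      rw [hn]
      ring
    omega

end MP_1ad228_ntD
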