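import Pool.Agent.Lib.MP_570bef_ntF.Base

/-! JOB DgW.  The polynomials `w = w0 + M * (C u * X^(n - μ))`, `M` monic of degree `μ < n`, `natDegree w0 ≤ μ`; and the degree of `G0`.

`w_deg`: `natDegree (M * (C u * X^(n-μ))) ≤ μ + (n - μ) = n`.
`w_deg0`: for `u = 0`, `w = w0`.
`w_coeff`: `coeff n`: `w0.coeff n = 0` (`μ < n`), `(M * (C u * X^(n-μ))).coeff n = u * M.coeff μ = u` (`coeff_mul_X_pow'`, or `coeff_mul_of_natDegree_le` with `n = μ + (n-μ)`), `M` monic.
`w_ne`: `coeff n` of `w + M y` is `u + 0 ≠ 0` (`natDegree (M y) ≤ μ + m < n`).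
`G0_deg`: let `F := ∑ a_i w_i^k`.  Each term has `natDegree ≤ Dt` and its coefficient at `Dt` is `leadingCoeff (a i) * u i ^ k`: if `u i ≠ 0`: `natDegree (a i) + k * n i = Dt`, `natDegree (w i ^ k) ≤ k * n i`, `coeff (w_i^k) (k * n i) = (w i).coeff (n i) ^ k = u i ^ k`
(`Polynomial.coeff_pow_of_natDegree_le`), `Polynomial.coeff_mul_of_natDegree_le`; if `u i = 0`: `natDegree (a_i w_i^k) ≤ natDegree (a i) + k (n i - 1) < Dt`, coefficient `0` and `0^k = 0`.  So `natDegree F ≤ Dt` and `F.coeff Dt = 0`, hence `natDegree F ≤ Dt - 1` (`Dt ≥ 1`;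
`Polynomial.natDegree_lt_iff..`, `coeff_ne_zero..`: if `natDegree F = Dt` the leading coefficient would be `0`, so `F = 0`, `natDegree F = 0 < Dt`).  `M' G0 = F`: `G0 = 0` or `natDegree M' + natDegree G0 = natDegree F ≤ Dt - 1`. -/

open Polynomial MP_570bef_ntF

namespace MP_1ad228_ntD

variable {K : Type} [Field K]

theorem w_deg (w0 M : K[X]) (u : K) (n : ℕ) (h0 : w0.natDegree ≤ M.natDegree) (hn : M.natDegree < n) :
    (w0 + M * (C u * X ^ (n - M.natDegree))).natDegree ≤ n := by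
  refine (natDegree_add_le _ _).trans (max_le (by omega) ?_)
  refine natDegree_mul_le.trans ?_
  have h1 := natDegree_C_mul_X_pow_le u (n - M.natDegree)
  omega

theorem w_deg0 (w0 M : K[X]) (n : ℕ) (h0 : w0.natDegree ≤ M.natDegree) (hn : M.natDegree < n) :
    (w0 + M * (C (0 : K) * X ^ (n - M.natDegree))).natDegree + 1 ≤ n := by
  rw [C_0, zero_mul, mul_zero, add_zero]
  omega

theorem w_coeff (w0 M : K[X]) (hM : M.Monic) (u : K) (n : ℕ) (h0 : w0.natDegree ≤ M.natDegree)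
    (hn : M.natDegree < n) : (w0 + M * (C u * X ^ (n - M.natDegree))).coeff n = u := by
  have h1 : M * (C u * X ^ (n - M.natDegree)) = C u * (M * X ^ (n - M.natDegree)) := by ring
  rw [h1, coeff_add, coeff_eq_zero_of_natDegree_lt (by omega), zero_add, coeff_C_mul,
    coeff_mul_X_pow', if_pos (by omega)]
  have h2 : n - (n - M.natDegree) = M.natDegree := by omega
  rw [h2, hM.coeff_natDegree, mul_one]

theorem w_ne (w0 M : K[X]) (hM : M.Monic) (u : K) (hu : u ≠ 0) (n m : ℕ) (h0 : w0.natDegree ≤ M.natDegree)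
    (hn : M.natDegree + m < n) (y : K[X]) (hy : y.natDegree ≤ m) :
    w0 + M * (C u * X ^ (n - M.natDegree)) + M * y ≠ 0 := by
  intro h
  have h1 := congrArg (fun q : K[X] => q.coeff n) h
  simp only [coeff_zero] at h1
  rw [coeff_add, w_coeff w0 M hM u n h0 (by omega)] at h1
  have h2 : (M * y).coeff n = 0 := by
    refine coeff_eq_zero_of_natDegree_lt ?_
    refine lt_of_le_of_lt natDegree_mul_le ?_
    omega
  rw [h2, add_zero] at h1
  exact hu h1

private theorem DgW_term (k : ℕ) (hk : 1 ≤ k) (a w : K[X]) (u : K) (n Dt : ℕ)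
    (hw : w.natDegree ≤ n) (hwc : w.coeff n = u) (hw0 : u = 0 → w.natDegree + 1 ≤ n)
    (hD : a.natDegree + k * n < Dt + k) (hD' : u ≠ 0 → a.natDegree + k * n = Dt) :
    (a * w ^ k).natDegree ≤ Dt ∧ (a * w ^ k).coeff Dt = a.leadingCoeff * u ^ k := by
  by_cases hu : u = 0
  · have h1 := hw0 hu
    obtain ⟨n', rfl⟩ : ∃ n', n = n' + 1 := ⟨n - 1, by omega⟩
    have h2 : w.natDegree ≤ n' := by omega
    have h3 : (w ^ k).natDegree ≤ k * n' := natDegree_pow_le_of_le k h2
    have h4 : (a * w ^ k).natDegree ≤ a.natDegree + k * n' :=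
      natDegree_mul_le.trans (Nat.add_le_add_left h3 _)
    have h5 : a.natDegree + k * n' < Dt := by
      have h6 : k * (n' + 1) = k * n' + k := by ring
      omega
    refine ⟨by omega, ?_⟩
    rw [coeff_eq_zero_of_natDegree_lt (by omega), hu, zero_pow (by omega), mul_zero]
  · have h1 := hD' hu
    have h3 : (w ^ k).natDegree ≤ k * n := natDegree_pow_le_of_le k hw
    have h4 : (a * w ^ k).natDegree ≤ a.natDegree + k * n :=
      natDegree_mul_le.trans (Nat.add_le_add_left h3 _)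
    refine ⟨by omega, ?_⟩
    rw [← h1, coeff_mul_add_eq_of_natDegree_le le_rfl h3, coeff_pow_of_natDegree_le hw, hwc]
    rfl

theorem G0_deg (k : ℕ) (hk : 1 ≤ k) {s : ℕ} (a w : Fin s → K[X]) (u : Fin s → K) (n : Fin s → ℕ) (Dt E : ℕ)
    (M' G0 : K[X]) (hM' : M' ≠ 0) (hE : E + 1 + M'.natDegree = Dt) (hw : ∀ i, (w i).natDegree ≤ n i)
    (hwc : ∀ i, (w i).coeff (n i) = u i) (hw0 : ∀ i, u i = 0 → (w i).natDegree + 1 ≤ n i)
    (hD : ∀ i, (a i).natDegree + k * n i < Dt + k) (hD' : ∀ i, u i ≠ 0 → (a i).natDegree + k * n i = Dt)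
    (hsum : ∑ i, (a i).leadingCoeff * u i ^ k = 0) (hG0 : M' * G0 = ∑ i, a i * w i ^ k) : G0.natDegree ≤ E := by
  have hterm := fun i => DgW_term k hk (a i) (w i) (u i) (n i) Dt (hw i) (hwc i) (hw0 i) (hD i) (hD' i)
  have hF1 : (∑ i, a i * w i ^ k).natDegree ≤ Dt :=
    natDegree_sum_le_of_forall_le _ _ (fun i _ => (hterm i).1)
  have hF2 : (∑ i, a i * w i ^ k).coeff Dt = 0 := by
    rw [finsetSum_coeff, ← hsum]
    exact Finset.sum_congr rfl fun i _ => (hterm i).2
  by_cases hG : G0 = 0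
  · rw [hG, natDegree_zero]
    exact Nat.zero_le _
  · have h1 : M' * G0 ≠ 0 := mul_ne_zero hM' hG
    have h2 : (M' * G0).natDegree = M'.natDegree + G0.natDegree := natDegree_mul hM' hG
    rw [← hG0] at hF1 hF2
    have h3 : (M' * G0).natDegree ≠ Dt := by
      intro h4
      rw [← h4] at hF2
      exact h1 (leadingCoeff_eq_zero.1 hF2)
    omega

end MP_1ad228_ntD
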