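import Pool.Agent.Lib.MP_1ad228_ntD.Crt

/-! JOB DvD.  Divisibility: existence of `l` and `G0`, `M := ∏ π`, `M' := ∏ π^(V π + 1)` (products over `π ∈ P`).

(1) For `1 ≤ j ≤ k` and every `i`: `M' ∣ C(k,j) a_i w_i^(k-j) M^j` by `prod_pow_dvd` (`f π := V π + 1`): fix `π ∈ P`; `π ∣ M` (`Finset.dvd_prod_of_mem`).  If `π^V ∣ a_i` then `π^(V+1) ∣ a_i M ∣ …` (`j ≥ 1`).  If `π ∣ u π i` then `π ∣ w_i` (`hw`), so `π^k = π^(k-j) π^j ∣ w_i^(k-j) M^j`, and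
`V + 1 ≤ k`.  Let `l i j` be the quotient (choose; `0` outside the range).
(2) `M' ∣ ∑ a_i w_i^k`: for `π ∈ P` and every `i`, `π^(V+1) ∣ a_i (w_i^k - (u π i)^k)`: if `π^V ∣ a_i`, because `π ∣ w_i - u ∣ w_i^k - u^k` (`sub_dvd_pow_sub_pow`); if `π ∣ u π i`, `π ∣ w_i` and `π^k` divides both powers.  With `h5`: `π^(V+1) ∣ ∑ a_i w_i^k`.
(3) For `π ∈ P`, `i := i0 π`: `M' = π^(V+1) c`, `¬ π ∣ c`; `M = π c1`, `¬ π ∣ c1` (`prod_pow_split`, for `M` with `f = 1`); `a_i = π^V a'`, `¬ π ∣ a'` (by `h2`).  `¬ π ∣ w_i` (`h3`, `hw`).  `j = 1`: `π^(V+1) c l = k π^V a' w_i^(k-1) π c1`, so `c l = k a' w_i^(k-1) c1`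
(cancel), not divisible by the prime `π` (`(k : K[X]) = C (k : K)` is a unit).  So `¬ π ∣ l i 1`.  `j ≥ 2`: `π^(V+1) c l = C(k,j) π^V a' w_i^(k-j) π^j c1^j`, `c l = C(k,j) a' w_i^(k-j) π^(j-1) c1^j`, so `π ∣ c l`, `π ∣ l`. -/

open Polynomial MP_570bef_ntF

namespace MP_1ad228_ntD

variable {K : Type} [Field K]

theorem data_div (k : ℕ) (hk : 1 ≤ k) (hkK : (k : K) ≠ 0) (P : Finset K[X]) (hP : ∀ π ∈ P, Irreducible π ∧ π.Monic)
    {s : ℕ} (a : Fin s → K[X]) (V : K[X] → ℕ) (u : K[X] → Fin s → K[X]) (i0 : K[X] → Fin s)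
    (hV : ∀ π ∈ P, V π < k) (h1 : ∀ π ∈ P, π ^ V π ∣ a (i0 π)) (h2 : ∀ π ∈ P, ¬ π ^ (V π + 1) ∣ a (i0 π))
    (h3 : ∀ π ∈ P, ¬ π ∣ u π (i0 π)) (h4 : ∀ π ∈ P, ∀ i, π ^ V π ∣ a i ∨ π ∣ u π i)
    (h5 : ∀ π ∈ P, π ^ (V π + 1) ∣ ∑ i, a i * u π i ^ k) (w : Fin s → K[X])
    (hw : ∀ π ∈ P, ∀ i, π ∣ w i - u π i) :
    ∃ (l : Fin s → ℕ → K[X]) (G0 : K[X]),
      (∀ i j, 1 ≤ j → j ≤ k → (∏ π ∈ P, π ^ (V π + 1)) * l i j =
        (k.choose j : K[X]) * a i * w i ^ (k - j) * (∏ π ∈ P, π) ^ j) ∧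
      (∏ π ∈ P, π ^ (V π + 1)) * G0 = ∑ i, a i * w i ^ k ∧
      ∀ π ∈ P, ¬ π ∣ l (i0 π) 1 ∧ ∀ j, 2 ≤ j → j ≤ k → π ∣ l (i0 π) j := by
  classical
  have hM : ∀ π ∈ P, π ∣ ∏ π' ∈ P, π' := fun π hπ => Finset.dvd_prod_of_mem _ hπ
  have hwu : ∀ π ∈ P, ∀ i, π ∣ u π i → π ∣ w i := by
    intro π hπ i h
    have h6 := dvd_add (hw π hπ i) h
    rwa [sub_add_cancel] at h6
  have huw : ∀ π ∈ P, ∀ i, π ∣ w i → π ∣ u π i := by
    intro π hπ i h
    have h6 := dvd_sub h (hw π hπ i)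
    rwa [sub_sub_cancel] at h6
  have hstep1 : ∀ i j, 1 ≤ j → j ≤ k → (∏ π ∈ P, π ^ (V π + 1)) ∣
      (k.choose j : K[X]) * a i * w i ^ (k - j) * (∏ π ∈ P, π) ^ j := by
    intro i j hj1 hjk
    apply prod_pow_dvd P hP (fun π => V π + 1)
    intro π hπ
    rcases h4 π hπ i with h | h
    · change π ^ (V π + 1) ∣ _
      rw [pow_succ]
      apply mul_dvd_mul
      · exact dvd_mul_of_dvd_left (dvd_mul_of_dvd_right h _) _
      · exact dvd_pow (hM π hπ) (by omega)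
    · change π ^ (V π + 1) ∣ _
      have h6 : π ^ (k - j) * π ^ j ∣ w i ^ (k - j) * (∏ π ∈ P, π) ^ j :=
        mul_dvd_mul (pow_dvd_pow_of_dvd (hwu π hπ i h) _) (pow_dvd_pow_of_dvd (hM π hπ) _)
      rw [← pow_add, Nat.sub_add_cancel hjk] at h6
      have h7 : π ^ (V π + 1) ∣ π ^ k := pow_dvd_pow π (by have := hV π hπ; omega)
      rw [mul_assoc ((k.choose j : K[X]) * a i)]
      exact dvd_mul_of_dvd_right (h7.trans h6) _
  have hex : ∀ i j, ∃ l : K[X], 1 ≤ j → j ≤ k → (∏ π ∈ P, π ^ (V π + 1)) * l =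
      (k.choose j : K[X]) * a i * w i ^ (k - j) * (∏ π ∈ P, π) ^ j := by
    intro i j
    by_cases hj : 1 ≤ j ∧ j ≤ k
    · obtain ⟨l, hl⟩ := hstep1 i j hj.1 hj.2
      exact ⟨l, fun _ _ => hl.symm⟩
    · exact ⟨0, fun h h' => absurd ⟨h, h'⟩ hj⟩
  choose l hl using hex
  have hstep2 : (∏ π ∈ P, π ^ (V π + 1)) ∣ ∑ i, a i * w i ^ k := by
    apply prod_pow_dvd P hP (fun π => V π + 1)
    intro π hπ
    change π ^ (V π + 1) ∣ _
    have h6 : ∑ i, a i * w i ^ k = ∑ i, a i * (w i ^ k - u π i ^ k) + ∑ i, a i * u π i ^ k := by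
      rw [← Finset.sum_add_distrib]
      apply Finset.sum_congr rfl
      intro i _
      ring
    rw [h6]
    apply dvd_add _ (h5 π hπ)
    apply Finset.dvd_sum
    intro i _
    rcases h4 π hπ i with h | h
    · rw [pow_succ]
      exact mul_dvd_mul h ((hw π hπ i).trans (sub_dvd_pow_sub_pow _ _ _))
    · have h7 : π ^ (V π + 1) ∣ π ^ k := pow_dvd_pow π (by have := hV π hπ; omega)
      exact dvd_mul_of_dvd_right (h7.trans (dvd_sub (pow_dvd_pow_of_dvd (hwu π hπ i h) _)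
        (pow_dvd_pow_of_dvd h _))) _
  obtain ⟨G0, hG0⟩ := hstep2
  refine ⟨l, G0, hl, hG0.symm, ?_⟩
  intro π hπ
  have hprime : Prime π := (hP π hπ).1.prime
  have hπ0 : π ≠ 0 := hprime.ne_zero
  obtain ⟨c, hc, hcd⟩ := prod_pow_split P hP (fun π => V π + 1) π hπ
  obtain ⟨c1, hc1, hcd1⟩ := prod_pow_split P hP (fun _ => 1) π hπ
  simp only [pow_one] at hc1
  change _ = π ^ (V π + 1) * c at hc
  obtain ⟨a', ha'⟩ := h1 π hπ
  have hna' : ¬ π ∣ a' := by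
    rintro ⟨a'', rfl⟩
    apply h2 π hπ
    rw [ha', pow_succ]
    exact ⟨a'', by ring⟩
  have hnw : ¬ π ∣ w (i0 π) := fun h => h3 π hπ (huw π hπ _ h)
  have hpow0 : π ^ (V π + 1) ≠ 0 := pow_ne_zero _ hπ0
  constructor
  · intro hd
    have h6 := hl (i0 π) 1 le_rfl hk
    rw [hc, hc1, ha', Nat.choose_one_right, pow_one] at h6
    have h7 : c * l (i0 π) 1 = (k : K[X]) * a' * w (i0 π) ^ (k - 1) * c1 := by
      apply mul_left_cancel₀ hpow0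
      rw [← mul_assoc, h6, pow_succ]
      ring
    have h8 : π ∣ (k : K[X]) * a' * w (i0 π) ^ (k - 1) * c1 := by
      rw [← h7]
      exact dvd_mul_of_dvd_right hd _
    rcases hprime.dvd_or_dvd h8 with h9 | h9
    · rcases hprime.dvd_or_dvd h9 with h10 | h10
      · rcases hprime.dvd_or_dvd h10 with h11 | h11
        · have hu : IsUnit (k : K[X]) := by
            rw [← Polynomial.C_eq_natCast]
            exact Polynomial.isUnit_C.2 (IsUnit.mk0 _ hkK)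
          exact hprime.not_isUnit (isUnit_of_dvd_unit h11 hu)
        · exact hna' h11
      · exact hnw (hprime.dvd_of_dvd_pow h10)
    · exact hcd1 h9
  · intro j hj2 hjk
    have h6 := hl (i0 π) j (by omega) hjk
    rw [hc, hc1, ha'] at h6
    have h7 : c * l (i0 π) j =
        (k.choose j : K[X]) * a' * w (i0 π) ^ (k - j) * (π ^ (j - 1) * c1 ^ j) := by
      apply mul_left_cancel₀ hpow0
      rw [← mul_assoc, h6, pow_succ, mul_pow]
      have h8 : π ^ j = π * π ^ (j - 1) := by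
        rw [← pow_succ']
        congr 1
        omega
      rw [h8]
      ring
    have h9 : π ∣ c * l (i0 π) j := by
      rw [h7]
      exact dvd_mul_of_dvd_right (dvd_mul_of_dvd_left (dvd_pow_self _ (by omega)) _) _
    exact (hprime.dvd_or_dvd h9).resolve_left hcd

end MP_1ad228_ntD
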