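import Pool.Agent.Lib.MP_1ad228_ntD.Iso

/-! JOB LcI.  Local data at infinity.

Pigeonhole for `i ↦ (a i).natDegree % k`: some residue `ρ < k` is taken by at least three distinct indices `i1, i2, i3` (`Finset.exists_lt_card_fiber_of_mul_lt_card_of_maps_to`, `Finset.two_lt_card`).  `B := ∑ i, (a i).natDegree`, `D := ρ + k * (B + 1)` (so `1 ≤ D`, `D ≥ (a i).natDegree`).
`e i := (D - (a i).natDegree + k - 1) / k`: `D ≤ natDegree (a i) + k * e i < D + k` (`Nat.div_add_mod`, `omega`/`nlinarith`), and if `natDegree (a i) % k = ρ` then `D - natDegree (a i)` is divisible by `k` and `natDegree (a i) + k * e i = D`.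
`iso3` over `K` for the leading coefficients of `a i1, a i2, a i3`: `x, y, z` not all `0`; `u i1 = x` etc., `u i = 0` otherwise.  `∑ leadingCoeff (a i) * u i ^ k = 0`. -/

open Polynomial MP_570bef_ntF

namespace MP_1ad228_ntD

variable {K : Type} [Field K] [Fintype K]

theorem loc_inf (k : ℕ) (hk : 1 ≤ k) (hq : 16 * k ^ 6 ≤ Fintype.card K) (a : Fin (2 * k + 1) → K[X])
    (ha : ∀ i, a i ≠ 0) :
    ∃ (D : ℕ) (e : Fin (2 * k + 1) → ℕ) (u : Fin (2 * k + 1) → K) (i0 : Fin (2 * k + 1)), 1 ≤ D ∧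
      (∀ i, (a i).natDegree + k * e i < D + k) ∧ u i0 ≠ 0 ∧
      (∀ i, u i ≠ 0 → (a i).natDegree + k * e i = D) ∧ ∑ i, (a i).leadingCoeff * u i ^ k = 0 := by
  classical
  obtain ⟨ρ, hρk, i1, i2, i3, h12, h13, h23, h1, h2, h3⟩ : ∃ ρ < k, ∃ i1 i2 i3 : Fin (2 * k + 1),
      i1 ≠ i2 ∧ i1 ≠ i3 ∧ i2 ≠ i3 ∧ (a i1).natDegree % k = ρ ∧ (a i2).natDegree % k = ρ ∧
      (a i3).natDegree % k = ρ := by
    have hmaps : ∀ i ∈ (Finset.univ : Finset (Fin (2 * k + 1))), (a i).natDegree % k ∈ Finset.range k :=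
      fun i _ => Finset.mem_range.2 (Nat.mod_lt _ hk)
    obtain ⟨ρ, hρ, hc⟩ := Finset.exists_lt_card_fiber_of_mul_lt_card_of_maps_to (n := 2) hmaps (by
      rw [Finset.card_range, Finset.card_univ, Fintype.card_fin]
      omega)
    obtain ⟨i1, i2, i3, h1, h2, h3, h4, h5, h6⟩ := Finset.two_lt_card_iff.1 hc
    exact ⟨ρ, Finset.mem_range.1 hρ, i1, i2, i3, h4, h5, h6, (Finset.mem_filter.1 h1).2,
      (Finset.mem_filter.1 h2).2, (Finset.mem_filter.1 h3).2⟩
  set B : ℕ := ∑ i, (a i).natDegree with hB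
  have hBle : ∀ i, (a i).natDegree ≤ B := fun i =>
    Finset.single_le_sum (f := fun i => (a i).natDegree) (fun _ _ => Nat.zero_le _) (Finset.mem_univ i)
  set D : ℕ := ρ + k * (B + 1) with hD
  have hDB : B + 1 ≤ D := by
    have : B + 1 ≤ k * (B + 1) := Nat.le_mul_of_pos_left _ hk
    omega
  have hDle : ∀ i, (a i).natDegree ≤ D := fun i => by
    have := hBle i
    omega
  obtain ⟨x, y, z, hne, hz⟩ := iso3 (F := K) k hk hq (a i1).leadingCoeff (a i2).leadingCoeff
    (a i3).leadingCoeff (leadingCoeff_ne_zero.2 (ha i1)) (leadingCoeff_ne_zero.2 (ha i2))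
    (leadingCoeff_ne_zero.2 (ha i3))
  set u : Fin (2 * k + 1) → K := fun i =>
    if i = i1 then x else if i = i2 then y else if i = i3 then z else 0 with hu
  have u1 : u i1 = x := by simp [hu]
  have u2 : u i2 = y := by simp [hu, h12.symm]
  have u3 : u i3 = z := by simp [hu, h13.symm, h23.symm]
  have u0 : ∀ i, i ≠ i1 → i ≠ i2 → i ≠ i3 → u i = 0 := by
    intro i e1 e2 e3
    simp [hu, e1, e2, e3]
  have hres : ∀ i, (a i).natDegree % k = ρ →
      (a i).natDegree + k * ((D - (a i).natDegree + k - 1) / k) = D := by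
    intro i hi
    have hn : (a i).natDegree = k * ((a i).natDegree / k) + ρ := by
      conv_lhs => rw [← Nat.div_add_mod (a i).natDegree k, hi]
    have hle := hBle i
    set c := (a i).natDegree / k with hc
    have hcB : c ≤ B := le_trans (Nat.div_le_self _ _) hle
    have hsub : D - (a i).natDegree = k * (B + 1 - c) := by
      rw [hn, hD, Nat.mul_sub]
      have : k * c ≤ k * (B + 1) := Nat.mul_le_mul_left k (by omega)
      omega
    have hdiv : (D - (a i).natDegree + k - 1) / k = B + 1 - c := by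
      rw [hsub]
      have e : k * (B + 1 - c) + k - 1 = (k - 1) + k * (B + 1 - c) := by omega
      rw [e, Nat.add_mul_div_left _ _ (by omega : 0 < k), Nat.div_eq_of_lt (by omega : k - 1 < k)]
      omega
    rw [hdiv, ← hsub]
    have := hDle i
    omega
  have hmem : ∀ i, u i ≠ 0 → (a i).natDegree % k = ρ := by
    intro i hi
    by_cases e1 : i = i1
    · rw [e1]; exact h1
    · by_cases e2 : i = i2
      · rw [e2]; exact h2
      · by_cases e3 : i = i3
        · rw [e3]; exact h3
        · exact absurd (u0 i e1 e2 e3) hi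
  obtain ⟨i0, hi0⟩ : ∃ i0, u i0 ≠ 0 := by
    rcases hne with h | h | h
    · exact ⟨i1, by rw [u1]; exact h⟩
    · exact ⟨i2, by rw [u2]; exact h⟩
    · exact ⟨i3, by rw [u3]; exact h⟩
  refine ⟨D, fun i => (D - (a i).natDegree + k - 1) / k, u, i0, by omega, ?_, hi0,
    fun i hi => hres i (hmem i hi), ?_⟩
  · intro i
    have h4 := Nat.mul_div_le (D - (a i).natDegree + k - 1) k
    have h5 := hDle i
    show (a i).natDegree + k * ((D - (a i).natDegree + k - 1) / k) < D + k
    omega
  · have hsum : ∑ i, (a i).leadingCoeff * u i ^ k =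
        ∑ i ∈ ({i1, i2, i3} : Finset (Fin (2 * k + 1))), (a i).leadingCoeff * u i ^ k := by
      symm
      refine Finset.sum_subset (Finset.subset_univ _) ?_
      intro i _ hi
      simp only [Finset.mem_insert, Finset.mem_singleton, not_or] at hi
      rw [u0 i hi.1 hi.2.1 hi.2.2, zero_pow (by omega), mul_zero]
    rw [hsum, Finset.sum_insert (by simp [h12, h13]), Finset.sum_insert (by simp [h23]),
      Finset.sum_singleton, u1, u2, u3, ← add_assoc]
    exact hz

end MP_1ad228_ntD
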