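import Pool.Agent.Lib.MP_1ad228_ntD.LcP
import Pool.Agent.Lib.MP_1ad228_ntD.LcI
import Pool.Agent.Lib.MP_1ad228_ntD.DvD
import Pool.Agent.Lib.MP_1ad228_ntD.BdP
import Pool.Agent.Lib.MP_1ad228_ntD.DgL
import Pool.Agent.Lib.MP_1ad228_ntD.DgW
import Pool.Agent.Lib.MP_1ad228_ntD.Defs

/-! JOB Dat.  Assembly of a system.

`bad_primes a ha` gives `P`.  `loc_prime` for every `π ∈ P` (choose functions `V, u, i0` on `K[X]`, by `Classical.choose` / `choose!` over `π ∈ P`; `hfree` is `hfree' π` for irreducible `π`).  `M := ∏_{π∈P} π`, `M' := ∏_{π∈P} π^(V π + 1)`: monic (`Polynomial.monic_prod_of_monic`, `Monic.pow`).  `μ, μ'` degrees.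
`loc_inf` gives `D, e, uinf, iinf`.  `crt P hP (fun π => u π i)` for every `i` gives `w0 i`.  `c0 := D + 2 + μ + μ' + ∑ i, e i`.  Let `N ≥ c0`.  `n i := N + e i` (`μ < n i`), `m i := N + e i - 1 - μ` (so `n i = μ + m i + 1`),
`w i := w0 i + M * (C (uinf i) * X ^ (n i - μ))`, `Dt := D + k * N`, `E := Dt - 1 - μ'` (`k ≥ 1`, `N ≥ μ' + 1`).  `π ∣ w i - u π i` (`π ∣ M`).  `data_div` gives `l`, `G0`.
`hcop`: `bad_primes`.  `hw`: `w_deg`.  `hl`, `hG0`: `data_div`.  `natDegree (a i) + k * n i = natDegree (a i) + k * e i + k N`.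
`hldeg`: if `uinf i ≠ 0` case A (`deg_A`: `natDegree + j m + j ≤ E + 1`, `j ≥ 1`); else case B (`deg_B`, `w_deg0`).
`hG0deg`: `G0_deg`.  `hpi`: `π ∣ M` irreducible is associated to some `π' ∈ P`; `i := i0 π'` (divisibility by associates: `Associated.dvd_iff_dvd_left`).
`hinf`: `i := iinf`: `deg_A1` (`natDegree (w i) = n i` because `natDegree ≤ n i` and the coefficient `uinf i ≠ 0`; `w_coeff`), and `deg_A` for `j ≥ 2` (`natDegree + j m + j ≤ E + 1` gives `< E`).  `hnt`: `iinf`, `w_ne`.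
`hb1`: `N ≤ m i + c0`; `hb2`: `μ + m i + 1 = N + e i ≤ N + c0` (`e i ≤ ∑ e`: `Finset.single_le_sum`); `hb3`: `E ≤ D + k N`. -/

open Polynomial MP_570bef_ntF

namespace MP_1ad228_ntD

variable {K : Type} [Field K] [Fintype K]

theorem exists_sys (k : ℕ) (hk : 1 ≤ k) (hkK : (k : K) ≠ 0) (hq : 16 * k ^ 6 ≤ Fintype.card K)
    (a : Fin (2 * k + 1) → K[X]) (ha : ∀ i, a i ≠ 0)
    (hfree : ∀ π : K[X], Irreducible π → ∀ i, ¬ π ^ k ∣ a i) :
    ∃ c0 : ℕ, ∀ N ≥ c0, Nonempty (Sys k a N c0) := by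
  classical
  obtain ⟨P, hP, hcop, hass⟩ := bad_primes a ha
  have hloc : ∀ π : K[X], ∃ (V : ℕ) (u : Fin (2 * k + 1) → K[X]) (i0 : Fin (2 * k + 1)), π ∈ P →
      (V < k ∧ π ^ V ∣ a i0 ∧ ¬ π ^ (V + 1) ∣ a i0 ∧ ¬ π ∣ u i0 ∧ (∀ i, π ^ V ∣ a i ∨ π ∣ u i) ∧
      π ^ (V + 1) ∣ ∑ i, a i * u i ^ k) := by
    intro π
    by_cases h : π ∈ P
    · obtain ⟨V, u, i0, h'⟩ := loc_prime k hk hq a ha π (hP π h).1 (hfree π (hP π h).1)
      exact ⟨V, u, i0, fun _ => h'⟩
    · exact ⟨0, fun _ => 0, ⟨0, by omega⟩, fun h' => absurd h' h⟩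
  choose V u i0 hV using hloc
  obtain ⟨D, e, uinf, iinf, hD1, hDe, huinf, hDeq, hsum⟩ := loc_inf k hk hq a ha
  have hcrt : ∀ i, ∃ w : K[X], w.natDegree ≤ (∏ π ∈ P, π).natDegree ∧ ∀ π ∈ P, π ∣ w - u π i :=
    fun i => crt P hP (fun π => u π i)
  choose w0 hw0d hw0 using hcrt
  have hMm : (∏ π ∈ P, π).Monic := monic_prod_of_monic _ _ (fun π h => (hP π h).2)
  have hM'm : (∏ π ∈ P, π ^ (V π + 1)).Monic := monic_prod_of_monic _ _ (fun π h => (hP π h).2.pow _)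
  have hMdvd : ∀ π ∈ P, π ∣ ∏ π ∈ P, π := fun π h => Finset.dvd_prod_of_mem _ h
  have hM0 := hMm.ne_zero
  have hM'0 := hM'm.ne_zero
  refine ⟨D + 2 + (∏ π ∈ P, π).natDegree + (∏ π ∈ P, π ^ (V π + 1)).natDegree + ∑ i, e i, fun N hN => ?_⟩
  have hdd := fun w hw => data_div k hk hkK P hP a V u i0 (fun π h => (hV π h).1) (fun π h => (hV π h).2.1)
    (fun π h => (hV π h).2.2.1) (fun π h => (hV π h).2.2.2.1) (fun π h => (hV π h).2.2.2.2.1)
    (fun π h => (hV π h).2.2.2.2.2) w hw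
  have hcop' := fun b hb => (⟨(hcop b hb).2 (fun π => V π + 1), (hcop b hb).1⟩ :
    IsCoprime b (∏ π ∈ P, π ^ (V π + 1)) ∧ ∀ i, IsCoprime b (a i))
  clear hcop
  revert hMm hM'm hMdvd hM0 hM'0 hdd hcop' hass hw0d hN
  generalize (∏ π ∈ P, π ^ (V π + 1)) = M'
  generalize (∏ π ∈ P, π) = M
  intro hass hw0d hMm hM'm hMdvd hM0 hM'0 hN hdd hcop'
  have hesum : ∀ i, e i ≤ ∑ i, e i := fun i => Finset.single_le_sum (fun _ _ => Nat.zero_le _) (Finset.mem_univ i)
  revert hN hesum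
  generalize (∑ i, e i) = S
  intro hN hesum
  -- degrees
  have hn : ∀ i, N + e i = M.natDegree + (N + e i - 1 - M.natDegree) + 1 := by
    intro i
    omega
  have hμn : ∀ i, M.natDegree < N + e i := by
    intro i
    omega
  have hkN : N ≤ k * N := Nat.le_mul_of_pos_left N hk
  have hE : (D + k * N - 1 - M'.natDegree) + 1 + M'.natDegree = D + k * N := by omega
  have hexp : ∀ i, (a i).natDegree + k * (N + e i) = ((a i).natDegree + k * e i) + k * N := by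
    intro i
    ring
  have hDtA : ∀ i, uinf i ≠ 0 → (a i).natDegree + k * (N + e i) = D + k * N := by
    intro i hi
    rw [hexp, hDeq i hi]
  have hDtB : ∀ i, (a i).natDegree + k * (N + e i) < D + k * N + k := by
    intro i
    rw [hexp]
    have := hDe i
    omega
  have hwdeg : ∀ i, (w0 i + M * (C (uinf i) * X ^ (N + e i - M.natDegree))).natDegree ≤ N + e i :=
    fun i => w_deg (w0 i) M (uinf i) (N + e i) (hw0d i) (hμn i)
  have hwdeg0 : ∀ i, uinf i = 0 → (w0 i + M * (C (uinf i) * X ^ (N + e i - M.natDegree))).natDegree + 1 ≤ N + e i := by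
    intro i hi
    rw [hi]
    exact w_deg0 (w0 i) M (N + e i) (hw0d i) (hμn i)
  have hwc : ∀ i, (w0 i + M * (C (uinf i) * X ^ (N + e i - M.natDegree))).coeff (N + e i) = uinf i :=
    fun i => w_coeff (w0 i) M hMm (uinf i) (N + e i) (hw0d i) (hμn i)
  have hwu : ∀ π ∈ P, ∀ i, π ∣ (w0 i + M * (C (uinf i) * X ^ (N + e i - M.natDegree))) - u π i := by
    intro π hπ i
    have h1 : (w0 i + M * (C (uinf i) * X ^ (N + e i - M.natDegree))) - u π i =
        (w0 i - u π i) + M * (C (uinf i) * X ^ (N + e i - M.natDegree)) := by ring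
    rw [h1]
    exact dvd_add (hw0 i π hπ) ((hMdvd π hπ).mul_right _)
  obtain ⟨l, G0, hl, hG0, hlpi⟩ := hdd (fun i => w0 i + M * (C (uinf i) * X ^ (N + e i - M.natDegree))) hwu
  refine ⟨{ M := M, M' := M', G0 := G0, w := fun i => w0 i + M * (C (uinf i) * X ^ (N + e i - M.natDegree)), l := l, m := fun i => N + e i - 1 - M.natDegree, E := D + k * N - 1 - M'.natDegree, hM := hM0, hM' := hM'0, hcop := hcop', hw := ?_, hl := hl, hldeg := ?_, hG0 := hG0, hG0deg := ?_, hpi := ?_, hinf := ?_, hnt := ?_, hb1 := ?_, hb2 := ?_, hb3 := ?_ }⟩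
  · intro i
    exact (hwdeg i).trans (hn i).le
  · intro i j hj1 hjk
    by_cases hi : uinf i = 0
    · exact deg_B k (N + e i - 1 - M.natDegree) (N + e i) _ (D + k * N) (a i) _ M M' (ha i) hM0 hM'0 (hn i) hE
        (hDtB i) (hwdeg0 i hi) (l i) (hl i) j hj1 hjk
    · have := deg_A k (N + e i - 1 - M.natDegree) (N + e i) _ (D + k * N) (a i) _ M M' (ha i) hM0 hM'0 (hn i) hE
        (hDtA i hi) (hwdeg i) (l i) (hl i) j hj1 hjk
      omega
  · exact G0_deg k hk a _ uinf (fun i => N + e i) (D + k * N) _ M' G0 hM'0 hE hwdeg hwc hwdeg0 hDtB hDtA hsum hG0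
  · intro π hπ hπM
    obtain ⟨π', hπ', has⟩ := hass π hπ hπM
    obtain ⟨h1, h2⟩ := hlpi π' hπ'
    refine ⟨i0 π', ?_, ?_⟩
    · rw [has.dvd_iff_dvd_left]
      exact h1
    · intro j hj1 hjk
      rw [has.dvd_iff_dvd_left]
      exact h2 j hj1 hjk
  · have hwn : (w0 iinf + M * (C (uinf iinf) * X ^ (N + e iinf - M.natDegree))).natDegree = N + e iinf := by
      apply le_antisymm (hwdeg iinf)
      apply le_natDegree_of_ne_zero
      rw [hwc iinf]
      exact huinf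
    obtain ⟨h1, h2⟩ := deg_A1 k (N + e iinf - 1 - M.natDegree) (N + e iinf) _ (D + k * N) hk hkK (a iinf) _ M M' (ha iinf) hM0 hM'0
      (hn iinf) hE (hDtA iinf huinf) hwn (l iinf) (hl iinf)
    refine ⟨iinf, h1, h2, ?_⟩
    intro j hj1 hjk
    have := deg_A k (N + e iinf - 1 - M.natDegree) (N + e iinf) _ (D + k * N) (a iinf) _ M M' (ha iinf) hM0 hM'0 (hn iinf) hE
      (hDtA iinf huinf) (hwdeg iinf) (l iinf) (hl iinf) j (by omega) hjk
    omega
  · refine ⟨iinf, fun y hy => ?_⟩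
    exact w_ne (w0 iinf) M hMm (uinf iinf) huinf (N + e iinf) (N + e iinf - 1 - M.natDegree) (hw0d iinf)
      (by have := hn iinf; omega) y hy
  · intro i
    show N ≤ N + e i - 1 - M.natDegree + _
    omega
  · intro i
    show M.natDegree + (N + e i - 1 - M.natDegree) + 1 ≤ _
    have := hesum i
    omega
  · omega

end MP_1ad228_ntD
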