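import Pool.Agent.Lib.MP_1ad228_ntD.KFr
import Pool.Agent.Lib.MP_1ad228_ntD.Dat
import Pool.Agent.Lib.MP_1ad228_ntD.Ana

/-! JOB Core.  Diagonal equations in `2k+1` variables over `K[t]`.

`k = 1`: `x 0 := a 1`, `x 1 := - a 0`, `x 2 := 0` (three variables).  `k ≥ 2`: `kfree` for every `a i`: `a i = a' i * h i ^ k`.  `exists_sys` for `a'` gives `c0`; `analytic k .. c0` gives `N0`; take `N := max c0 N0`: a nonzero `y` with `∑ a'_i y_i^k = 0`.
`x i := y i * ∏_{j ≠ i} h j` (`Finset.univ.erase i`): `a_i x_i^k = a'_i y_i^k (h_i ∏_{j≠i} h_j)^k = a'_i y_i^k H^k`, `H = ∏ h_j` (`Finset.mul_prod_erase`), so `∑ a_i x_i^k = H^k ∑ a'_i y_i^k = 0`, and `x ≠ 0` because `y ≠ 0` and `∏ h ≠ 0`. -/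

open Polynomial MP_570bef_ntF

namespace MP_1ad228_ntD

theorem core {K : Type} [Field K] [Fintype K] (k : ℕ) (hk : 1 ≤ k)
    (hchar : ∀ i : ℕ, 1 ≤ i → i ≤ k → (i : K) ≠ 0) (hq : Q0 k ≤ Fintype.card K) (a : Fin (2 * k + 1) → K[X])
    (ha : ∀ i, a i ≠ 0) : ∃ x : Fin (2 * k + 1) → K[X], x ≠ 0 ∧ ∑ i, a i * x i ^ k = 0 := by
  rcases Nat.lt_or_ge 1 k with h1 | h1
  · choose a' h hah ha' hh hfr using fun i => kfree k hk (a i) (ha i)
    obtain ⟨c0, hc0⟩ := exists_sys k hk (hchar k hk le_rfl) (by unfold Q0 at hq; omega) a' ha'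
      (fun π hπ i => hfr i π hπ)
    obtain ⟨N0, hN0⟩ := analytic (K := K) k h1 hchar hq c0
    obtain ⟨S⟩ := hc0 (max c0 N0) (le_max_left _ _)
    obtain ⟨y, hy, hsum⟩ := hN0 (max c0 N0) (le_max_right _ _) a' ha' S
    refine ⟨fun i => y i * ∏ j ∈ Finset.univ.erase i, h j, ?_, ?_⟩
    · intro hx
      apply hy
      funext i
      have hi := congrFun hx i
      simp only [Pi.zero_apply, mul_eq_zero, Finset.prod_eq_zero_iff] at hi
      rcases hi with h0 | ⟨j, _, hj⟩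
      · exact h0
      · exact absurd hj (hh j)
    · have hterm : ∀ i, a i * (y i * ∏ j ∈ Finset.univ.erase i, h j) ^ k
          = (∏ j, h j) ^ k * (a' i * y i ^ k) := by
        intro i
        rw [← Finset.mul_prod_erase Finset.univ h (Finset.mem_univ i), hah i]
        ring
      rw [Finset.sum_congr rfl (fun i _ => hterm i), ← Finset.mul_sum, hsum, mul_zero]
  · obtain rfl : k = 1 := le_antisymm h1 hk
    refine ⟨![a 1, - a 0, 0], ?_, ?_⟩
    · intro hx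
      have h0 := congrFun hx 0
      exact ha 1 h0
    · have h3 : ∀ f : Fin (2 * 1 + 1) → K[X], ∑ i, f i = f 0 + f 1 + f 2 :=
        fun f => Fin.sum_univ_three f
      rw [h3]
      have e0 : (![a 1, - a 0, 0] : Fin 3 → K[X]) 0 = a 1 := rfl
      have e1 : (![a 1, - a 0, 0] : Fin 3 → K[X]) 1 = - a 0 := rfl
      have e2 : (![a 1, - a 0, 0] : Fin 3 → K[X]) 2 = 0 := rfl
      calc a 0 * (![a 1, - a 0, 0] : Fin 3 → K[X]) 0 ^ 1 + a 1 * (![a 1, - a 0, 0] : Fin 3 → K[X]) 1 ^ 1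
            + a 2 * (![a 1, - a 0, 0] : Fin 3 → K[X]) 2 ^ 1
          = a 0 * a 1 ^ 1 + a 1 * (- a 0) ^ 1 + a 2 * 0 ^ 1 := by rw [e0, e1, e2]
        _ = 0 := by ring

end MP_1ad228_ntD
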