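import Pool.Agent.Lib.MP_570bef_ntF.Base

/-! JOB Crt.  Chinese remainder theorem for a finite set `P` of monic irreducible polynomials (pairwise coprime because distinct monic irreducibles), `M = ∏_{π ∈ P} π`.

Induction on `P` (`Finset.induction_on`), or directly: for `π ∈ P` let `M_π := ∏_{π' ∈ P.erase π} π'`, coprime to `π` (`IsCoprime.prod_right`), `s_π M_π ≡ 1 (mod π)`; `w := ∑_{π ∈ P} u π * s_π * M_π`; then `w ≡ u π (mod π)`.
Replace `w` by `w %ₘ M` (`M` monic: `Polynomial.monic_prod_of_monic`): degree `≤ natDegree M` (`< ` or `M = 1` and then it is `0`), and `π ∣ M ∣ w - w %ₘ M`. -/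

open Polynomial MP_570bef_ntF

namespace MP_1ad228_ntD

variable {K : Type} [Field K]

private theorem Crt_cop {π π' : K[X]} (h : Irreducible π ∧ π.Monic) (h' : Irreducible π' ∧ π'.Monic)
    (hne : π ≠ π') : IsCoprime π π' := by
  rcases EuclideanDomain.dvd_or_coprime π π' h.1 with hd | hc
  · exact absurd (eq_of_monic_of_associated h.2 h'.2 (h.1.associated_of_dvd h'.1 hd)) hne
  · exact hc

theorem crt (P : Finset K[X]) (hP : ∀ π ∈ P, Irreducible π ∧ π.Monic) (u : K[X] → K[X]) :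
    ∃ w : K[X], w.natDegree ≤ (∏ π ∈ P, π).natDegree ∧ ∀ π ∈ P, π ∣ w - u π := by
  classical
  have hc : ∀ π ∈ P, ∃ b : K[X], π ∣ b * (∏ π' ∈ P.erase π, π') - 1 := by
    intro π hπ
    have h1 : IsCoprime π (∏ π' ∈ P.erase π, π') := by
      refine IsCoprime.prod_right ?_
      intro π' hπ'
      exact Crt_cop (hP π hπ) (hP π' (Finset.mem_of_mem_erase hπ')) (Finset.ne_of_mem_erase hπ').symm
    obtain ⟨a, b, hab⟩ := h1
    refine ⟨b, -a, ?_⟩
    linear_combination hab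
  choose! b hb using hc
  have hM : (∏ π ∈ P, π).Monic := monic_prod_of_monic P (fun π => π) (fun π h => (hP π h).2)
  refine ⟨(∑ π ∈ P, u π * (b π * ∏ π' ∈ P.erase π, π')) %ₘ (∏ π ∈ P, π), ?_, ?_⟩
  · by_cases h1 : (∏ π ∈ P, π) = 1
    · rw [h1, modByMonic_one]
      simp
    · exact (natDegree_modByMonic_lt _ hM h1).le
  · intro π hπ
    have e1 := modByMonic_add_div (∑ π ∈ P, u π * (b π * ∏ π' ∈ P.erase π, π')) (∏ π ∈ P, π)
    have e2 : (∑ π ∈ P, u π * (b π * ∏ π' ∈ P.erase π, π')) %ₘ (∏ π ∈ P, π) - u π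
        = (u π * (b π * (∏ π' ∈ P.erase π, π') - 1)
          + ∑ ρ ∈ P.erase π, u ρ * (b ρ * ∏ π' ∈ P.erase ρ, π'))
          - (∏ π ∈ P, π) * ((∑ π ∈ P, u π * (b π * ∏ π' ∈ P.erase π, π')) /ₘ (∏ π ∈ P, π)) := by
      have e3 := Finset.add_sum_erase P (fun ρ => u ρ * (b ρ * ∏ π' ∈ P.erase ρ, π')) hπ
      linear_combination e1 - e3
    rw [e2]
    refine dvd_sub (dvd_add ?_ ?_) ?_
    · exact Dvd.dvd.mul_left (hb π hπ) _
    · refine Finset.dvd_sum ?_
      intro ρ hρ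
      have h2 : π ∣ ∏ π' ∈ P.erase ρ, π' :=
        Finset.dvd_prod_of_mem (fun π' => π') (Finset.mem_erase.2 ⟨(Finset.ne_of_mem_erase hρ).symm, hπ⟩)
      exact Dvd.dvd.mul_left (Dvd.dvd.mul_left h2 _) _
    · exact Dvd.dvd.mul_right (Finset.dvd_prod_of_mem (fun π' => π') hπ) _

/-- a polynomial divisible by `π ^ (f π)` for every `π ∈ P` is divisible by `∏ π ^ (f π)` (`Finset.prod_dvd_of_coprime`, pairwise coprime powers). -/
theorem prod_pow_dvd (P : Finset K[X]) (hP : ∀ π ∈ P, Irreducible π ∧ π.Monic) (f : K[X] → ℕ) (F : K[X])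
    (h : ∀ π ∈ P, π ^ (f π) ∣ F) : ∏ π ∈ P, π ^ (f π) ∣ F := by
  classical
  refine Finset.prod_dvd_of_coprime ?_ h
  intro π hπ π' hπ' hne
  exact IsCoprime.pow (Crt_cop (hP π hπ) (hP π' hπ') hne)

/-- `∏_{π' ∈ P} π'^(f π') = π^(f π) * c` with `¬ π ∣ c`, for `π ∈ P` (`Finset.mul_prod_erase`; `Prime.dvd_finset_prod_iff`, two monic irreducible polynomials dividing each other are equal). -/
theorem prod_pow_split (P : Finset K[X]) (hP : ∀ π ∈ P, Irreducible π ∧ π.Monic) (f : K[X] → ℕ) (π : K[X])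
    (hπ : π ∈ P) : ∃ c : K[X], ∏ π' ∈ P, π' ^ (f π') = π ^ (f π) * c ∧ ¬ π ∣ c := by
  classical
  refine ⟨∏ π' ∈ P.erase π, π' ^ (f π'), (Finset.mul_prod_erase P (fun π' => π' ^ (f π')) hπ).symm, ?_⟩
  intro hd
  have h1 : IsCoprime π (∏ π' ∈ P.erase π, π' ^ (f π')) := by
    refine IsCoprime.prod_right ?_
    intro π' hπ'
    exact IsCoprime.pow_right
      (Crt_cop (hP π hπ) (hP π' (Finset.mem_of_mem_erase hπ')) (Finset.ne_of_mem_erase hπ').symm)
  exact (hP π hπ).1.not_isUnit (h1.isUnit_of_dvd' (dvd_refl π) hd)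

end MP_1ad228_ntD
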