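import Mathlib

/-! JOB Cs.  Extensions of a finite field of degree prime to `p`.

`const_ext`: a finite field `K` has an extension of every degree `n ≥ 1` (Mathlib: `FiniteField` extensions, e.g. `Mathlib.FieldTheory.Finite.Extension`, `FiniteField.Extension`, or the splitting field of `X^(q^n) - X` over `K`, or `GaloisField`).  Take `n := 1 + p * Q`:
`¬ p ∣ n`, `card K' = (card K)^n ≥ 2^n ≥ Q`.
(If convenient: any extension `K'` with `card K' ≥ Q` and `finrank` not divisible by `p`.) -/

open Polynomial

namespace MP_1ad228_ntD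

theorem const_ext (p : ℕ) (hp : p.Prime) (K : Type) [Field K] [Fintype K] (Q : ℕ) :
    ∃ (K' : Type) (_ : Field K') (_ : Fintype K') (_ : Algebra K K'), Q ≤ Fintype.card K' ∧
      ¬ p ∣ Module.finrank K K' := by
  have hc : CharP K (ringChar K) := ringChar.charP K
  have hpr : Fact (ringChar K).Prime := ⟨CharP.char_is_prime K (ringChar K)⟩
  have hnz : NeZero (1 + p * Q) := ⟨by omega⟩
  have hfin : Finite (FiniteField.Extension K (ringChar K) (1 + p * Q)) := inferInstance
  let F : Fintype (FiniteField.Extension K (ringChar K) (1 + p * Q)) := Fintype.ofFinite _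
  refine ⟨FiniteField.Extension K (ringChar K) (1 + p * Q), inferInstance,
    F, inferInstance, ?_, ?_⟩
  · have h0 : Fintype.card (FiniteField.Extension K (ringChar K) (1 + p * Q)) =
        Fintype.card K ^ (1 + p * Q) := by
      rw [← Nat.card_eq_fintype_card, FiniteField.natCard_extension, Nat.card_eq_fintype_card]
    rw [h0]
    have h1 : 2 ≤ Fintype.card K := Fintype.one_lt_card
    have h2 : 1 ≤ p := hp.one_lt.le
    calc Q ≤ 1 + p * Q := by nlinarith
      _ ≤ 2 ^ (1 + p * Q) := Nat.lt_two_pow_self.le
      _ ≤ _ := Nat.pow_le_pow_left h1 _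
  · rw [FiniteField.finrank_extension]
    intro h
    rw [Nat.dvd_add_left (dvd_mul_right p Q)] at h
    exact hp.one_lt.ne' (Nat.dvd_one.1 h)

end MP_1ad228_ntD
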