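import Pool.Agent.Lib.MP_570bef_ntF.DvA

/-! JOB DivC.  Number of divisors.  Every `h ∣ G`, `G ≠ 0`, is `C a * h'` with `a` the leading coefficient and `h'` monic, `h' ∣ G`, `natDegree h' = natDegree h ≤ natDegree G`; the number of monic divisors of `G` is at most
`2^(natDegree G)` (file DvA, `card_monic_divisors`: look at its exact statement and use it), and there are `q - 1 ≤ q` values of `a ≠ 0`.  The set on the left injects into `K × {monic divisors}` by `h ↦ (leadingCoeff h, C (leadingCoeff h)⁻¹ * h)`. -/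

open Polynomial MP_570bef_ntF

namespace MP_1ad228_ntD

variable {K : Type} [Field K] [Fintype K]

open Classical in
theorem card_div_le (m Y : ℕ) (G : K[X]) (hG : G ≠ 0) (hGY : G.natDegree ≤ Y) :
    ((SS K m).filter (fun h => h ∣ G)).card ≤ Fintype.card K * 2 ^ Y := by
  have h1 := card_monic_divisors m G hG
  have h2 : ((SS K m).filter (fun h => h ∣ G)).card ≤
      ((Finset.univ : Finset K) ×ˢ ((SS K m).filter (fun u => u.Monic ∧ u ∣ G))).card := by
    apply Finset.card_le_card_of_injOn (fun h => (h.leadingCoeff, C (h.leadingCoeff)⁻¹ * h))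
    · intro h hh
      obtain ⟨hm, hd⟩ := Finset.mem_filter.1 (Finset.mem_coe.1 hh)
      have h0 : h ≠ 0 := fun h0 => hG (zero_dvd_iff.1 (h0 ▸ hd))
      have hl : h.leadingCoeff⁻¹ ≠ 0 := inv_ne_zero (leadingCoeff_ne_zero.2 h0)
      refine Finset.mem_coe.2 (Finset.mem_product.2 ⟨Finset.mem_univ _, Finset.mem_filter.2 ⟨?_, ?_, ?_⟩⟩)
      · rw [mem_SS] at hm ⊢
        rw [natDegree_C_mul hl]
        exact hm
      · change (C h.leadingCoeff⁻¹ * h).Monic
        rw [mul_comm]
        exact monic_mul_leadingCoeff_inv h0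
      · have hu : IsUnit (C (h.leadingCoeff)⁻¹) := isUnit_C.2 hl.isUnit
        exact (hu.mul_left_dvd).2 hd
    · intro h hh h' hh' he
      obtain ⟨e1, e2⟩ := Prod.mk.inj he
      obtain ⟨hm, hd⟩ := Finset.mem_filter.1 (Finset.mem_coe.1 hh)
      have h0 : h ≠ 0 := fun h0 => hG (zero_dvd_iff.1 (h0 ▸ hd))
      have hl : C h.leadingCoeff⁻¹ ≠ 0 := C_ne_zero.2 (inv_ne_zero (leadingCoeff_ne_zero.2 h0))
      rw [← e1] at e2
      exact mul_left_cancel₀ hl e2
  rw [Finset.card_product, Finset.card_univ] at h2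
  refine h2.trans (Nat.mul_le_mul_left _ (h1.trans ?_))
  exact Nat.pow_le_pow_right (by norm_num) hGY

end MP_1ad228_ntD
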