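import Pool.Agent.Lib.MP_1ad228_ntD.ZDf

/-! JOB Za.  Zero-cycle of degree one from points of degree prime to every prime.

`cycle_of_prime_to`.  Let `G` be the set of integers `∑ n_i deg P_i` (finite formal sums, `List (ℤ × Pt Q)`): it is an additive subgroup of `ℤ` (append lists, negate the coefficients, empty list), so `G = {multiples of g}`, `g ≥ 0` (`Int.subgroup_cyclic`/`AddSubgroup` of `ℤ`:
`Int.exists_gcd..`; or take the least positive element).  If `g ≠ 1` there is a prime `p ∣ g` (also if `g = 0`: any prime), and `p` divides every `deg P`: contradiction. -/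

open Polynomial

namespace MP_1ad228_ntD

theorem cycle_of_prime_to {F : Type} [Field F] {σ : Type} (Q : MvPolynomial σ F)
    (h : ∀ p : ℕ, p.Prime → ∃ P : Pt Q, ¬ p ∣ P.deg) : HasCycle1 Q := by
  have hneg : ∀ z : List (ℤ × Pt Q),
      ((z.map (fun t => ((-t.1, t.2) : ℤ × Pt Q))).map (fun t => t.1 * (t.2.deg : ℤ))).sum
        = -(z.map (fun t => t.1 * (t.2.deg : ℤ))).sum := by
    intro z
    induction z with
    | nil => simp
    | cons t z ih =>
      rw [List.map_cons, List.map_cons, List.sum_cons, List.map_cons, List.sum_cons, ih]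
      ring
  let G : AddSubgroup ℤ :=
    { carrier := {m | ∃ z : List (ℤ × Pt Q), (z.map (fun t => t.1 * (t.2.deg : ℤ))).sum = m}
      add_mem' := by
        rintro a b ⟨z, hz⟩ ⟨w, hw⟩
        refine ⟨z ++ w, ?_⟩
        rw [List.map_append, List.sum_append, hz, hw]
      zero_mem' := ⟨[], by simp⟩
      neg_mem' := by
        rintro a ⟨z, hz⟩
        refine ⟨z.map (fun t => ((-t.1, t.2) : ℤ × Pt Q)), ?_⟩
        rw [hneg z, hz] }
  have hG : ∀ m : ℤ, m ∈ G ↔ ∃ z : List (ℤ × Pt Q), (z.map (fun t => t.1 * (t.2.deg : ℤ))).sum = m :=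
    fun m => Iff.rfl
  obtain ⟨a, ha⟩ := Int.subgroup_cyclic G
  have hmem : ∀ m : ℤ, m ∈ G ↔ a ∣ m := by
    intro m
    rw [ha, AddSubgroup.mem_closure_singleton]
    constructor
    · rintro ⟨n, hn⟩
      exact ⟨n, by rw [← hn, smul_eq_mul, mul_comm]⟩
    · rintro ⟨n, hn⟩
      exact ⟨n, by rw [hn, smul_eq_mul, mul_comm]⟩
  have ha1 : a.natAbs = 1 := by
    by_contra hne
    obtain ⟨p, hp, hpa⟩ := Nat.exists_prime_and_dvd hne
    obtain ⟨P, hP⟩ := h p hp
    apply hP
    have h1 : (P.deg : ℤ) ∈ G := (hG _).mpr ⟨[(1, P)], by simp⟩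
    have h2 : a ∣ (P.deg : ℤ) := (hmem _).mp h1
    have h3 : (p : ℤ) ∣ a := Int.natCast_dvd.mpr hpa
    exact Int.natCast_dvd_natCast.mp (h3.trans h2)
  have h1 : (1 : ℤ) ∈ G := by
    rw [hmem]
    exact Int.natAbs_dvd_natAbs.mp (by rw [ha1]; exact one_dvd _)
  exact (hG 1).mp h1

end MP_1ad228_ntD
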