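import Pool.Agent.Lib.MP_1ad228_ntD.ZDf

/-! JOB Zb.  Forms in separate sets of variables.

`eval_ne`: `MvPolynomial.funext` over an infinite field.
`blk_point`: `x ⟨i, t⟩ := y i * algebraMap F L (u i t)`.  `aeval x (rename (Sigma.mk i) (P i)) = aeval (fun t => y i * algebraMap (u i t)) (P i) = y i ^ d * algebraMap F L (eval (u i) (P i))` (`MvPolynomial.IsHomogeneous`: `IsHomogeneous.eval₂`-type lemma or via the sum over the support:
every monomial has degree `d`).  `x ≠ 0`: `y i ≠ 0` for some `i`, and `u i ≠ 0` because `eval 0 (P i) = 0` for a homogeneous polynomial of degree `d ≥ 1` (`0^d = 0`). -/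

open Polynomial

namespace MP_1ad228_ntD

theorem eval_ne {F : Type} [Field F] [Infinite F] {n : ℕ} (P : MvPolynomial (Fin n) F) (hP : P ≠ 0) :
    ∃ u : Fin n → F, MvPolynomial.eval u P ≠ 0 := by
  by_contra h
  push Not at h
  apply hP
  apply MvPolynomial.funext
  intro u
  rw [h u, map_zero]

private theorem Zb_hom {F : Type} [Field F] {n : ℕ} (P : MvPolynomial (Fin n) F) (d : ℕ)
    (hh : P.IsHomogeneous d) (L : Type) [Field L] [Algebra F L] (c : L) (v : Fin n → F) :
    MvPolynomial.aeval (fun t => c * algebraMap F L (v t)) P =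
      c ^ d * algebraMap F L (MvPolynomial.eval v P) := by
  rw [MvPolynomial.aeval_def, MvPolynomial.eval₂_eq', MvPolynomial.eval_eq', map_sum, Finset.mul_sum]
  refine Finset.sum_congr rfl fun m hm => ?_
  have h1 : ∑ i, m i = d := by
    have h2 := hh (MvPolynomial.mem_support_iff.mp hm)
    have h3 : m.degree = Finsupp.weight 1 m := congrFun (congrArg DFunLike.coe (Finsupp.degree_eq_weight_one (σ := Fin n) (R := ℕ))) m
    rw [← h2, ← h3, Finsupp.degree_eq_sum]
  have h2 : ∏ i, (c * algebraMap F L (v i)) ^ m i = c ^ d * ∏ i, algebraMap F L (v i) ^ m i := by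
    rw [← h1, ← Finset.prod_pow_eq_pow_sum, ← Finset.prod_mul_distrib]
    exact Finset.prod_congr rfl fun i _ => mul_pow _ _ _
  rw [h2, map_mul, map_prod]
  simp only [map_pow]
  ring

theorem blk_point {F : Type} [Field F] {s : ℕ} (n : Fin s → ℕ) (P : (i : Fin s) → MvPolynomial (Fin (n i)) F)
    (d : ℕ) (hd : 1 ≤ d) (hh : ∀ i, (P i).IsHomogeneous d) (u : (i : Fin s) → Fin (n i) → F)
    (hu : ∀ i, MvPolynomial.eval (u i) (P i) ≠ 0) (L : Type) [Field L] [Algebra F L] (y : Fin s → L) (hy : y ≠ 0)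
    (hsum : ∑ i, algebraMap F L (MvPolynomial.eval (u i) (P i)) * y i ^ d = 0) :
    ∃ x : (Σ i : Fin s, Fin (n i)) → L, x ≠ 0 ∧ MvPolynomial.aeval x (blk n P) = 0 := by
  refine ⟨fun p => y p.1 * algebraMap F L (u p.1 p.2), ?_, ?_⟩
  · intro h0
    apply hy
    funext i
    by_contra hi
    have h1 : ∀ t, u i t = 0 := by
      intro t
      have h2 := congrFun h0 ⟨i, t⟩
      have h3 : algebraMap F L (u i t) = 0 := (mul_eq_zero.mp h2).resolve_left hi
      exact (map_eq_zero (algebraMap F L)).mp h3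
    apply hu i
    have h2 := Zb_hom (P i) d (hh i) F 0 (u i)
    rw [zero_pow (by omega), zero_mul] at h2
    have h3 : (fun t => (0 : F) * algebraMap F F (u i t)) = u i := by
      funext t
      rw [zero_mul, h1 t]
    rw [h3] at h2
    rw [← MvPolynomial.aeval_eq_eval]
    exact h2
  · rw [blk, map_sum, ← hsum]
    refine Finset.sum_congr rfl fun i _ => ?_
    rw [MvPolynomial.aeval_rename]
    have h1 := Zb_hom (P i) d (hh i) L (y i) (u i)
    rw [mul_comm (algebraMap F L _), ← h1]
    rfl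

end MP_1ad228_ntD
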