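import Pool.Agent.Lib.MP_1ad228_ntD.PtB
import Pool.Agent.Lib.MP_1ad228_ntD.Za
import Pool.Agent.Lib.MP_1ad228_ntD.Zb

/-! Final assembly. -/

open Polynomial

namespace MP_1ad228_ntD

theorem char_ne {K : Type} [Field K] (k : ℕ) (hk : k < ringChar K) (i : ℕ) (hi : 1 ≤ i) (hik : i ≤ k) :
    (i : K) ≠ 0 := by
  intro h
  have h1 := (ringChar.spec K i).mp h
  have := Nat.le_of_dvd (by omega) h1
  omega

theorem infinite_ratFunc (K : Type) [Field K] : Infinite (RatFunc K) :=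
  Infinite.of_injective (algebraMap K[X] (RatFunc K)) (RatFunc.algebraMap_injective K)

theorem cycle_main (K : Type) [Field K] [Fintype K] (d m s : ℕ) (hd : 1 ≤ d)
    (hm : ∀ p : ℕ, p.Prime → p ^ padicValNat p d ≤ m) (hK : m < ringChar K) (hs : 2 * m + 1 ≤ s)
    (n : Fin s → ℕ) (P : (i : Fin s) → MvPolynomial (Fin (n i)) (RatFunc K)) (hP : ∀ i, P i ≠ 0)
    (hh : ∀ i, (P i).IsHomogeneous d) : HasCycle1 (blk n P) := by
  classical
  have := infinite_ratFunc K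
  choose u hu using fun i => eval_ne (P i) (hP i)
  apply cycle_of_prime_to
  intro p hp
  have hpm := hm p hp
  obtain ⟨L, fL, aL, hfin, hdeg, y, hy, hsum⟩ := point_prime_to p hp (K := K) d s hd
    (fun i hi hik => char_ne m hK i hi (hik.trans hpm)) (by omega)
    (fun i => MvPolynomial.eval (u i) (P i)) hu
  obtain ⟨x, hx, hx0⟩ := blk_point n P d hd hh u hu L y hy hsum
  exact ⟨⟨L, x, hx, hx0⟩, hdeg⟩

theorem point_main (k : ℕ) (hk : 1 ≤ k) : ∃ q0 : ℕ, ∀ (K : Type) [Field K] [Fintype K], q0 ≤ Fintype.card K →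
    k < ringChar K → ∀ (s : ℕ), 2 * k + 1 ≤ s → ∀ (n : Fin s → ℕ)
    (P : (i : Fin s) → MvPolynomial (Fin (n i)) (RatFunc K)), (∀ i, P i ≠ 0) → (∀ i, (P i).IsHomogeneous k) →
    ∃ x : (Σ i : Fin s, Fin (n i)) → RatFunc K, x ≠ 0 ∧ MvPolynomial.eval x (blk n P) = 0 := by
  refine ⟨Q0 k, ?_⟩
  intro K _ _ hq hK s hs n P hP hh
  classical
  have := infinite_ratFunc K
  choose u hu using fun i => eval_ne (P i) (hP i)
  obtain ⟨y, hy, hsum⟩ := point_rat k s hk (fun i hi hik => char_ne k hK i hi hik) hq hs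
    (fun i => MvPolynomial.eval (u i) (P i)) hu
  obtain ⟨x, hx, hx0⟩ := blk_point n P k hk hh u hu (RatFunc K) y hy (by simpa using hsum)
  refine ⟨x, hx, ?_⟩
  simpa [MvPolynomial.aeval_eq_eval] using hx0

end MP_1ad228_ntD
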