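import Pool.Agent.Lib.MP_570bef_ntF.FoA

/-! JOB Iso.  `a x^k + b y^k + c z^k` has a nontrivial zero over a finite field `F` with `Q ≥ 16 k^6` elements, `a, b, c ≠ 0`, `k ≥ 1`.

`χ` a nontrivial additive character `F → ℂ` (any proof: `AddChar.FiniteField.primitiveChar_to_Complex`, `AddChar.exists_ne_one..`; compare the file FoA of MP_570bef_ntF, `exists_char`, `sum_char`, which you may import: `import Pool.Agent.Lib.MP_570bef_ntF.FoA`, there `K` is the
field).  `S(α) := ∑_x χ(α x^k)`.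
(1) `∑_{β∈F} ‖S(β)‖² = Q * #{(x,y) : x^k = y^k} ≤ Q (1 + (Q-1) k) ≤ k Q²` (for fixed `y ≠ 0` at most `k` roots of `T^k = y^k`: `Polynomial.card_nthRoots`/`card_nthRootsFinset`; for `y = 0` only `x = 0`).
(2) For `α ≠ 0`: `S(α w^k) = S(α)` for all `w ≠ 0`; the map `w ↦ α w^k` on `F^*` has fibres of size `≤ k`, so `(Q-1) ‖S(α)‖² ≤ k ∑_β ‖S(β)‖² ≤ k² Q²`, and `Q ≤ 2 (Q-1)`: `‖S(α)‖² ≤ 2 k² Q`.
(3) Let `n` be the number of `(x,y,z)` with `a x^k + b y^k + c z^k = 0`: `Q n = ∑_α S(α a) S(α b) S(α c)`, the term `α = 0` is `Q³`.  So `|Q n - Q³| ≤ (Q-1) (2k²Q)^(3/2)`; if `n ≤ 1` then `Q³ - Q ≤ (Q-1) (2k²Q)^(3/2)`, so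
`Q (Q+1) ≤ (2k²Q)^(3/2)`, squaring `Q² (Q+1)² ≤ 8 k^6 Q³`, so `Q < 8 k^6`: contradiction.  (`(0,0,0)` is one zero, so `n ≥ 2` gives a nontrivial one.)
To avoid `3/2` powers: use `‖S(αa) S(αb) S(αc)‖ ≤ B³` with `B := √(2 k² Q)`, `B² = 2k²Q`. -/

open Polynomial MP_570bef_ntF

namespace MP_1ad228_ntD

section IsoAux

variable {F : Type} [Field F] [Fintype F]

private noncomputable def Iso_S (ψ : AddChar F ℂ) (k : ℕ) (α : F) : ℂ := ∑ x : F, ψ (α * x ^ k)

private theorem Iso_card (k : ℕ) (hk : 1 ≤ k) (b : F) [DecidableEq F] :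
    (Finset.univ.filter (fun x : F => x ^ k = b)).card ≤ k := by
  classical
  have h0 : 0 < k := hk
  have hsub : Finset.univ.filter (fun x : F => x ^ k = b) ⊆ (nthRoots k b).toFinset := by
    intro x hx
    rw [Finset.mem_filter] at hx
    rw [Multiset.mem_toFinset, mem_nthRoots h0]
    exact hx.2
  calc (Finset.univ.filter (fun x : F => x ^ k = b)).card ≤ (nthRoots k b).toFinset.card :=
        Finset.card_le_card hsub
    _ ≤ Multiset.card (nthRoots k b) := Multiset.toFinset_card_le _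
    _ ≤ k := card_nthRoots k b

private theorem Iso_sq (ψ : AddChar F ℂ) (k : ℕ) (β : F) :
    ((‖Iso_S ψ k β‖ ^ 2 : ℝ) : ℂ) = ∑ x : F, ∑ y : F, ψ (β * (x ^ k - y ^ k)) := by
  have h1 : ((‖Iso_S ψ k β‖ ^ 2 : ℝ) : ℂ) = Iso_S ψ k β * (starRingEnd ℂ) (Iso_S ψ k β) := by
    rw [Complex.mul_conj, Complex.normSq_eq_norm_sq]
  rw [h1]
  unfold Iso_S
  rw [map_sum, Finset.sum_mul_sum]
  apply Finset.sum_congr rfl
  intro x _
  apply Finset.sum_congr rfl
  intro y _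
  rw [← AddChar.map_neg_eq_conj, ← AddChar.map_add_eq_mul]
  congr 1
  ring

private theorem Iso_one {ψ : AddChar F ℂ} (hψ : ψ ≠ 1) (k : ℕ) (hk : 1 ≤ k) :
    ∑ β : F, ‖Iso_S ψ k β‖ ^ 2 ≤ (k : ℝ) * (Fintype.card F : ℝ) ^ 2 := by
  classical
  have h1 : ((∑ β : F, ‖Iso_S ψ k β‖ ^ 2 : ℝ) : ℂ) =
      ((∑ y : F, (Fintype.card F : ℝ) * ((Finset.univ.filter (fun x : F => x ^ k = y ^ k)).card : ℝ) : ℝ) : ℂ) := by
    rw [Complex.ofReal_sum]
    rw [Finset.sum_congr rfl (fun β _ => Iso_sq ψ k β)]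
    rw [Finset.sum_comm]
    have h2 : ∀ x : F, ∑ β : F, ∑ y : F, ψ (β * (x ^ k - y ^ k)) =
        ∑ y : F, (if x ^ k = y ^ k then (Fintype.card F : ℂ) else 0) := by
      intro x
      rw [Finset.sum_comm]
      apply Finset.sum_congr rfl
      intro y _
      rw [sum_char hψ]
      simp only [sub_eq_zero]
    rw [Finset.sum_congr rfl (fun x _ => h2 x), Finset.sum_comm, Complex.ofReal_sum]
    apply Finset.sum_congr rfl
    intro y _
    rw [← Finset.sum_filter, Finset.sum_const, nsmul_eq_mul]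
    push_cast
    ring
  have h2 : (∑ β : F, ‖Iso_S ψ k β‖ ^ 2 : ℝ) =
      ∑ y : F, (Fintype.card F : ℝ) * ((Finset.univ.filter (fun x : F => x ^ k = y ^ k)).card : ℝ) :=
    Complex.ofReal_injective h1
  rw [h2]
  calc ∑ y : F, (Fintype.card F : ℝ) * ((Finset.univ.filter (fun x : F => x ^ k = y ^ k)).card : ℝ)
      ≤ ∑ _y : F, (Fintype.card F : ℝ) * (k : ℝ) := by
        apply Finset.sum_le_sum
        intro y _
        apply mul_le_mul_of_nonneg_left _ (Nat.cast_nonneg _)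
        exact_mod_cast Iso_card k hk (y ^ k)
    _ = (k : ℝ) * (Fintype.card F : ℝ) ^ 2 := by
        rw [Finset.sum_const, nsmul_eq_mul, Finset.card_univ]
        ring

private theorem Iso_shift (ψ : AddChar F ℂ) (k : ℕ) (α w : F) (hw : w ≠ 0) :
    Iso_S ψ k (α * w ^ k) = Iso_S ψ k α := by
  unfold Iso_S
  have h := Fintype.sum_equiv (Equiv.mulLeft₀ w hw) (fun x => ψ (α * w ^ k * x ^ k)) (fun x => ψ (α * x ^ k)) (by
    intro x
    have h1 : (Equiv.mulLeft₀ w hw) x = w * x := rfl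
    rw [h1, mul_pow, mul_assoc])
  exact h

private theorem Iso_two {ψ : AddChar F ℂ} (hψ : ψ ≠ 1) (k : ℕ) (hk : 1 ≤ k) (α : F) (hα : α ≠ 0) :
    ‖Iso_S ψ k α‖ ^ 2 ≤ 2 * (k : ℝ) ^ 2 * (Fintype.card F : ℝ) := by
  classical
  set Q : ℝ := (Fintype.card F : ℝ) with hQdef
  have hQ2 : (2 : ℝ) ≤ Q := by
    have : 2 ≤ Fintype.card F := Fintype.one_lt_card
    rw [hQdef]
    exact_mod_cast this
  have h1 : ∑ w ∈ Finset.univ.erase (0 : F), ‖Iso_S ψ k (α * w ^ k)‖ ^ 2 = (Q - 1) * ‖Iso_S ψ k α‖ ^ 2 := by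
    rw [Finset.sum_congr rfl (fun w hw => by rw [Iso_shift ψ k α w (Finset.ne_of_mem_erase hw)])]
    rw [Finset.sum_const, Finset.card_erase_of_mem (Finset.mem_univ _), nsmul_eq_mul, Finset.card_univ]
    rw [Nat.cast_sub (by have : 2 ≤ Fintype.card F := Fintype.one_lt_card; omega)]
    simp [hQdef]
  have h2 : ∑ w ∈ Finset.univ.erase (0 : F), ‖Iso_S ψ k (α * w ^ k)‖ ^ 2 ≤
      ∑ w : F, ‖Iso_S ψ k (α * w ^ k)‖ ^ 2 := by
    apply Finset.sum_le_sum_of_subset_of_nonneg (Finset.erase_subset _ _)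
    intro i _ _
    positivity
  have h3 : ∑ w : F, ‖Iso_S ψ k (α * w ^ k)‖ ^ 2 =
      ∑ β : F, ((Finset.univ.filter (fun w : F => α * w ^ k = β)).card : ℝ) * ‖Iso_S ψ k β‖ ^ 2 := by
    rw [← Finset.sum_fiberwise Finset.univ (fun w : F => α * w ^ k)]
    apply Finset.sum_congr rfl
    intro β _
    rw [Finset.sum_congr rfl (fun w hw => by rw [(Finset.mem_filter.1 hw).2])]
    rw [Finset.sum_const, nsmul_eq_mul]
  have h4 : ∀ β : F, ((Finset.univ.filter (fun w : F => α * w ^ k = β)).card : ℝ) ≤ (k : ℝ) := by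
    intro β
    have h5 : Finset.univ.filter (fun w : F => α * w ^ k = β) = Finset.univ.filter (fun w : F => w ^ k = α⁻¹ * β) := by
      ext w
      simp only [Finset.mem_filter, Finset.mem_univ, true_and]
      constructor
      · intro h
        rw [← h, ← mul_assoc, inv_mul_cancel₀ hα, one_mul]
      · intro h
        rw [h, ← mul_assoc, mul_inv_cancel₀ hα, one_mul]
    rw [h5]
    exact Nat.cast_le.2 (Iso_card k hk _)
  have h5 : ∑ β : F, ((Finset.univ.filter (fun w : F => α * w ^ k = β)).card : ℝ) * ‖Iso_S ψ k β‖ ^ 2 ≤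
      (k : ℝ) * ∑ β : F, ‖Iso_S ψ k β‖ ^ 2 := by
    rw [Finset.mul_sum]
    apply Finset.sum_le_sum
    intro β _
    exact mul_le_mul_of_nonneg_right (h4 β) (by positivity)
  have h6 := Iso_one hψ k hk
  have hk0 : (0 : ℝ) ≤ k := Nat.cast_nonneg _
  have h7 : (Q - 1) * ‖Iso_S ψ k α‖ ^ 2 ≤ (k : ℝ) ^ 2 * Q ^ 2 := by
    calc (Q - 1) * ‖Iso_S ψ k α‖ ^ 2 ≤ (k : ℝ) * ∑ β : F, ‖Iso_S ψ k β‖ ^ 2 := by
          rw [← h1]; exact h2.trans (h3.le.trans h5)
      _ ≤ (k : ℝ) * ((k : ℝ) * Q ^ 2) := mul_le_mul_of_nonneg_left h6 hk0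
      _ = (k : ℝ) ^ 2 * Q ^ 2 := by ring
  have h8 : (0 : ℝ) ≤ ‖Iso_S ψ k α‖ ^ 2 := by positivity
  have h9 : Q * ‖Iso_S ψ k α‖ ^ 2 ≤ Q * (2 * (k : ℝ) ^ 2 * Q) := by nlinarith
  exact le_of_mul_le_mul_left h9 (by linarith)

end IsoAux

theorem iso3 {F : Type} [Field F] [Fintype F] (k : ℕ) (hk : 1 ≤ k) (hQ : 16 * k ^ 6 ≤ Fintype.card F)
    (a b c : F) (ha : a ≠ 0) (hb : b ≠ 0) (hc : c ≠ 0) :
    ∃ x y z : F, (x ≠ 0 ∨ y ≠ 0 ∨ z ≠ 0) ∧ a * x ^ k + b * y ^ k + c * z ^ k = 0 := by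
  classical
  by_contra hcon
  have hcon' : ∀ x y z : F, a * x ^ k + b * y ^ k + c * z ^ k = 0 → x = 0 ∧ y = 0 ∧ z = 0 := by
    intro x y z h
    by_contra h2
    apply hcon
    refine ⟨x, y, z, ?_, h⟩
    by_contra h3
    apply h2
    push Not at h3
    exact h3
  obtain ⟨ψ, hψ⟩ := exists_char F
  set Q : ℝ := (Fintype.card F : ℝ) with hQdef
  have hQ2 : (2 : ℝ) ≤ Q := by
    have : 2 ≤ Fintype.card F := Fintype.one_lt_card
    rw [hQdef]
    exact_mod_cast this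
  have hzero : ∀ x y z : F, a * x ^ k + b * y ^ k + c * z ^ k = 0 ↔ x = 0 ∧ y = 0 ∧ z = 0 := by
    intro x y z
    refine ⟨hcon' x y z, ?_⟩
    rintro ⟨rfl, rfl, rfl⟩
    rw [zero_pow (by omega)]
    ring
  -- the sum over α
  have hsum : ∑ α : F, Iso_S ψ k (α * a) * Iso_S ψ k (α * b) * Iso_S ψ k (α * c) = (Fintype.card F : ℂ) := by
    have h1 : ∀ α : F, Iso_S ψ k (α * a) * Iso_S ψ k (α * b) * Iso_S ψ k (α * c) =
        ∑ x : F, ∑ y : F, ∑ z : F, ψ (α * (a * x ^ k + b * y ^ k + c * z ^ k)) := by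
      intro α
      unfold Iso_S
      rw [Finset.sum_mul_sum, Finset.sum_mul]
      apply Finset.sum_congr rfl
      intro x _
      rw [Finset.sum_mul]
      apply Finset.sum_congr rfl
      intro y _
      rw [Finset.mul_sum]
      apply Finset.sum_congr rfl
      intro z _
      rw [← AddChar.map_add_eq_mul, ← AddChar.map_add_eq_mul]
      congr 1
      ring
    rw [Finset.sum_congr rfl (fun α _ => h1 α)]
    rw [Finset.sum_comm]
    have h2 : ∀ x : F, ∑ α : F, ∑ y : F, ∑ z : F, ψ (α * (a * x ^ k + b * y ^ k + c * z ^ k)) =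
        if x = 0 then (Fintype.card F : ℂ) else 0 := by
      intro x
      rw [Finset.sum_comm]
      have h3 : ∀ y : F, ∑ α : F, ∑ z : F, ψ (α * (a * x ^ k + b * y ^ k + c * z ^ k)) =
          if x = 0 ∧ y = 0 then (Fintype.card F : ℂ) else 0 := by
        intro y
        rw [Finset.sum_comm]
        have h4 : ∀ z : F, ∑ α : F, ψ (α * (a * x ^ k + b * y ^ k + c * z ^ k)) =
            if z = 0 then (if x = 0 ∧ y = 0 then (Fintype.card F : ℂ) else 0) else 0 := by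
          intro z
          rw [sum_char hψ]
          by_cases hz : z = 0
          · rw [if_pos hz]
            by_cases hxy : x = 0 ∧ y = 0
            · rw [if_pos hxy, if_pos ((hzero x y z).2 ⟨hxy.1, hxy.2, hz⟩)]
            · rw [if_neg hxy, if_neg (fun h => hxy ⟨((hzero x y z).1 h).1, ((hzero x y z).1 h).2.1⟩)]
          · rw [if_neg hz, if_neg (fun h => hz ((hzero x y z).1 h).2.2)]
        rw [Finset.sum_congr rfl (fun z _ => h4 z), Finset.sum_ite_eq' Finset.univ (0 : F), if_pos (Finset.mem_univ _)]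
      rw [Finset.sum_congr rfl (fun y _ => h3 y)]
      by_cases hx : x = 0
      · simp only [hx, true_and]
        rw [Finset.sum_ite_eq' Finset.univ (0 : F), if_pos (Finset.mem_univ _), if_pos trivial]
      · simp [hx]
    rw [Finset.sum_congr rfl (fun x _ => h2 x), Finset.sum_ite_eq' Finset.univ (0 : F), if_pos (Finset.mem_univ _)]
  have hS0 : Iso_S ψ k 0 = (Fintype.card F : ℂ) := by
    unfold Iso_S
    simp
  have hsplit : ∑ α ∈ Finset.univ.erase (0 : F), Iso_S ψ k (α * a) * Iso_S ψ k (α * b) * Iso_S ψ k (α * c) =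
      (Fintype.card F : ℂ) - (Fintype.card F : ℂ) ^ 3 := by
    have h1 := Finset.sum_erase_add (s := Finset.univ) (f := fun α : F => Iso_S ψ k (α * a) * Iso_S ψ k (α * b) * Iso_S ψ k (α * c))
      (Finset.mem_univ (0 : F))
    simp only [zero_mul, hS0] at h1
    rw [hsum] at h1
    rw [← eq_sub_iff_add_eq] at h1
    rw [h1]
    ring
  set B : ℝ := Real.sqrt (2 * (k : ℝ) ^ 2 * Q) with hB
  have hB0 : 0 ≤ B := Real.sqrt_nonneg _
  have hB2 : B ^ 2 = 2 * (k : ℝ) ^ 2 * Q := Real.sq_sqrt (by positivity)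
  have hSB : ∀ α : F, α ≠ 0 → ‖Iso_S ψ k α‖ ≤ B := by
    intro α hα
    exact Real.le_sqrt_of_sq_le (Iso_two hψ k hk α hα)
  have hnorm : ‖(Fintype.card F : ℂ) - (Fintype.card F : ℂ) ^ 3‖ ≤ (Q - 1) * B ^ 3 := by
    rw [← hsplit]
    calc ‖∑ α ∈ Finset.univ.erase (0 : F), Iso_S ψ k (α * a) * Iso_S ψ k (α * b) * Iso_S ψ k (α * c)‖
        ≤ ∑ α ∈ Finset.univ.erase (0 : F), ‖Iso_S ψ k (α * a) * Iso_S ψ k (α * b) * Iso_S ψ k (α * c)‖ :=
          norm_sum_le _ _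
      _ ≤ ∑ _α ∈ Finset.univ.erase (0 : F), B ^ 3 := by
          apply Finset.sum_le_sum
          intro α hα
          have hα0 : α ≠ 0 := Finset.ne_of_mem_erase hα
          rw [norm_mul, norm_mul]
          have e1 := hSB (α * a) (mul_ne_zero hα0 ha)
          have e2 := hSB (α * b) (mul_ne_zero hα0 hb)
          have e3 := hSB (α * c) (mul_ne_zero hα0 hc)
          calc ‖Iso_S ψ k (α * a)‖ * ‖Iso_S ψ k (α * b)‖ * ‖Iso_S ψ k (α * c)‖ ≤ B * B * B := by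
                apply mul_le_mul _ e3 (norm_nonneg _) (by positivity)
                exact mul_le_mul e1 e2 (norm_nonneg _) hB0
            _ = B ^ 3 := by ring
      _ = (Q - 1) * B ^ 3 := by
          rw [Finset.sum_const, Finset.card_erase_of_mem (Finset.mem_univ _), nsmul_eq_mul, Finset.card_univ]
          rw [Nat.cast_sub (by have : 2 ≤ Fintype.card F := Fintype.one_lt_card; omega)]
          simp [hQdef]
  have hnorm2 : ‖(Fintype.card F : ℂ) - (Fintype.card F : ℂ) ^ 3‖ = Q ^ 3 - Q := by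
    have h1 : (Fintype.card F : ℂ) - (Fintype.card F : ℂ) ^ 3 = ((Q - Q ^ 3 : ℝ) : ℂ) := by
      rw [hQdef]
      push_cast
      ring
    have h2 : Q ≤ Q ^ 3 := by
      calc Q = Q * 1 := by ring
        _ ≤ Q * Q ^ 2 := mul_le_mul_of_nonneg_left (by nlinarith) (by linarith)
        _ = Q ^ 3 := by ring
    rw [h1, Complex.norm_real, Real.norm_eq_abs, abs_of_nonpos (by linarith)]
    ring
  rw [hnorm2] at hnorm
  have hQB : Q * (Q + 1) ≤ B ^ 3 := by
    have h1 : (Q - 1) * (Q * (Q + 1)) ≤ (Q - 1) * B ^ 3 := by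
      calc (Q - 1) * (Q * (Q + 1)) = Q ^ 3 - Q := by ring
        _ ≤ _ := hnorm
    exact le_of_mul_le_mul_left h1 (by linarith)
  have hsq : (Q * (Q + 1)) ^ 2 ≤ (B ^ 3) ^ 2 := pow_le_pow_left₀ (by positivity) hQB 2
  have hB6 : (B ^ 3) ^ 2 = 8 * (k : ℝ) ^ 6 * Q ^ 3 := by
    calc (B ^ 3) ^ 2 = (B ^ 2) ^ 3 := by ring
      _ = _ := by rw [hB2]; ring
  have hQk : 16 * (k : ℝ) ^ 6 ≤ Q := by
    rw [hQdef]
    exact_mod_cast hQ
  rw [hB6] at hsq
  have hfin : 8 * (k : ℝ) ^ 6 * Q ^ 3 ≤ Q ^ 4 := by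
    have h1 : 8 * (k : ℝ) ^ 6 ≤ Q := by
      have : (0 : ℝ) ≤ (k : ℝ) ^ 6 := by positivity
      linarith
    calc 8 * (k : ℝ) ^ 6 * Q ^ 3 ≤ Q * Q ^ 3 := mul_le_mul_of_nonneg_right h1 (by positivity)
      _ = Q ^ 4 := by ring
  have : (Q * (Q + 1)) ^ 2 = Q ^ 4 + 2 * Q ^ 3 + Q ^ 2 := by ring
  have h3 : 0 < Q ^ 3 := by positivity
  have h4 : 0 < Q ^ 2 := by positivity
  linarith

end MP_1ad228_ntD
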