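import Pool.Agent.Lib.MP_570bef_ntF.Base

/-! JOB KFr.  `k`-power-free part.  Strong induction on `natDegree a`: if some irreducible `π` has `π^k ∣ a`, `a = π^k a1`, `a1 ≠ 0`, `natDegree a1 < natDegree a` (`natDegree π ≥ 1`, `k ≥ 1`); by induction `a1 = a' h1^k`, take `h := π h1`.  Otherwise `a' := a`, `h := 1`. -/

open Polynomial MP_570bef_ntF

namespace MP_1ad228_ntD

variable {K : Type} [Field K]

theorem kfree (k : ℕ) (hk : 1 ≤ k) (a : K[X]) (ha : a ≠ 0) :
    ∃ a' h : K[X], a = a' * h ^ k ∧ a' ≠ 0 ∧ h ≠ 0 ∧ ∀ π : K[X], Irreducible π → ¬ π ^ k ∣ a' := by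
  obtain ⟨N, hN⟩ : ∃ N : ℕ, a.natDegree ≤ N := ⟨_, le_refl _⟩
  induction N generalizing a with
  | zero =>
    refine ⟨a, 1, by simp, ha, one_ne_zero, ?_⟩
    intro π hπ hd
    have h1 : π ∣ a := (dvd_pow_self π (by omega)).trans hd
    have h2 := Polynomial.natDegree_le_of_dvd h1 ha
    have h3 : 0 < π.natDegree := hπ.natDegree_pos
    omega
  | succ N ih =>
    by_cases h : ∃ π : K[X], Irreducible π ∧ π ^ k ∣ a
    · obtain ⟨π, hπ, a1, rfl⟩ := h
      have ha1 : a1 ≠ 0 := by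
        rintro rfl
        exact ha (mul_zero _)
      have hπ0 : π ≠ 0 := hπ.ne_zero
      have h3 : 0 < π.natDegree := hπ.natDegree_pos
      have hdeg : (π ^ k * a1).natDegree = k * π.natDegree + a1.natDegree := by
        rw [Polynomial.natDegree_mul (pow_ne_zero k hπ0) ha1, Polynomial.natDegree_pow]
      have h4 : 1 ≤ k * π.natDegree := Nat.mul_pos (by omega) h3
      obtain ⟨a', h1, e, ha', hh1, hfree⟩ := ih a1 ha1 (by omega)
      refine ⟨a', π * h1, ?_, ha', mul_ne_zero hπ0 hh1, hfree⟩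
      rw [e, mul_pow]
      ring
    · push Not at h
      exact ⟨a, 1, by simp, ha, one_ne_zero, h⟩

end MP_1ad228_ntD
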