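import Pool.Agent.Lib.MP_570bef_ntF.CFc
import Pool.Agent.Lib.MP_570bef_ntF.FoA

/-! JOB Ker.  The kernel `NN K A Y m = {G ∈ SS K Y : A (G H) = 0 for all H of degree ≤ m}`, `Y + m = E`, when the rank `r` of `A` on degree `≤ E` is larger than `g`, `g ≤ m`, `g ≤ Y`.  `q = card K`.

DUALITY: `∑_{G ∈ SS Y} ∑_{z ∈ SS m} ψ(A(G z))` computed in the two orders with `orth_SS` (a nontrivial character `ψ` from `exists_char`; functionals `mulF A G`, resp. `mulF A z` and `G z = z G`) gives
`|NN K A Y m| * q^(m+1) = |NN K A m Y| * q^(Y+1)` (in `ℂ`, then in `ℕ`).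
Case `m < r`: `NN K A m Y = {0}`: a nonzero `z` of degree `≤ m` with `A(z G) = 0` for all `G` of degree `≤ Y = E - m` is a killing form `(z, m)` of degree `m < r`, impossible (`rho_le`).  So `|NN K A Y m| * q^(m+1) = q^(Y+1)`; and `g ≤ m`.
Case `r ≤ m`, `r ≤ Y + 1`: let `b` be the witness of `IsRho A E r`.  `rho_dvd` with `Y := m` (`m + r ≤ E + 1`) for every `z ≠ 0` of `NN K A m Y` (`(z, m)` kills `A` on `E`): `z = b * y'`, `natDegree y' + r ≤ m`; so `NN K A m Y` is contained in
the image of `SS K (m - r)` under `y' ↦ b * y'` (`0 = b * 0`), `|NN K A m Y| ≤ q^(m-r+1)`, hence `|NN K A Y m| q^(m+1) ≤ q^(m-r+1) q^(Y+1)`, `|NN K A Y m| * q^r ≤ q^(Y+1)`, and `g + 1 ≤ r`.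
Case `r ≤ m`, `Y + 1 < r`: `NN K A Y m = {0}`, because a nonzero `G` in it is a killing form `(G, Y)` of degree `Y < r`.  The claim is `q^(g+1) ≤ q^(Y+1)`. -/

open Polynomial MP_570bef_ntF

namespace MP_1ad228_ntD

variable {K : Type} [Field K] [Fintype K]

private theorem Ker_mem {A : K[X] →ₗ[K] K} {a b : ℕ} {G : K[X]} :
    G ∈ NN K A a b ↔ G.natDegree ≤ a ∧ ∀ H : K[X], H.natDegree ≤ b → A (G * H) = 0 := by
  classical
  unfold NN
  rw [Finset.mem_filter, mem_SS]

private theorem Ker_sum {ψ : AddChar K ℂ} (hψ : ψ ≠ 1) (A : K[X] →ₗ[K] K) (Y m : ℕ) :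
    ∑ G ∈ SS K Y, ∑ z ∈ SS K m, ψ (A (G * z)) =
      ((NN K A Y m).card : ℂ) * (Fintype.card K : ℂ) ^ (m + 1) := by
  classical
  have h : ∀ G ∈ SS K Y, ∑ z ∈ SS K m, ψ (A (G * z)) =
      if (∀ z : K[X], z.natDegree ≤ m → A (G * z) = 0) then (Fintype.card K : ℂ) ^ (m + 1)
        else 0 := fun G _ => orth_SS hψ m (mulF A G)
  rw [Finset.sum_congr rfl h, ← Finset.sum_filter, Finset.sum_const, nsmul_eq_mul]
  rfl

private theorem Ker_dual (A : K[X] →ₗ[K] K) (Y m : ℕ) :
    (NN K A Y m).card * Fintype.card K ^ (m + 1) = (NN K A m Y).card * Fintype.card K ^ (Y + 1) := by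
  obtain ⟨ψ, hψ⟩ := exists_char K
  have h1 := Ker_sum hψ A Y m
  have h2 := Ker_sum hψ A m Y
  rw [Finset.sum_comm] at h1
  have h3 : ∑ z ∈ SS K m, ∑ G ∈ SS K Y, ψ (A (G * z)) =
      ∑ z ∈ SS K m, ∑ G ∈ SS K Y, ψ (A (z * G)) := by
    apply Finset.sum_congr rfl
    intro z _
    apply Finset.sum_congr rfl
    intro G _
    rw [mul_comm]
  rw [h3, h2] at h1
  exact_mod_cast h1.symm

/-- if the first degree is less than the rank, the kernel is zero -/
private theorem Ker_small {Y m E r : ℕ} (hE : Y + m = E) {A : K[X] →ₗ[K] K} (hρ : IsRho A E r)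
    (hY : Y < r) : (NN K A Y m).card ≤ 1 := by
  have hsub : NN K A Y m ⊆ {0} := by
    intro G hG
    rw [Ker_mem] at hG
    rw [Finset.mem_singleton]
    by_contra hG0
    have hk : Kill A E G Y := by
      intro w hw
      exact hG.2 w (by omega)
    have := rho_le hρ hG0 hG.1 hk
    omega
  have := Finset.card_le_card hsub
  rwa [Finset.card_singleton] at this

theorem card_NN_high (Y m E r g : ℕ) (hE : Y + m = E) (hg : g ≤ m) (hgY : g ≤ Y) (A : K[X] →ₗ[K] K)
    (hρ : IsRho A E r) (hgr : g < r) :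
    (NN K A Y m).card * Fintype.card K ^ (g + 1) ≤ Fintype.card K ^ (Y + 1) := by
  classical
  have hq : 0 < Fintype.card K := Fintype.card_pos
  rcases lt_or_ge m r with hmr | hmr
  · have h1 := Ker_small (Y := m) (m := Y) (by omega) hρ hmr
    have h2 := Ker_dual A Y m
    calc (NN K A Y m).card * Fintype.card K ^ (g + 1)
        ≤ (NN K A Y m).card * Fintype.card K ^ (m + 1) :=
          Nat.mul_le_mul_left _ (Nat.pow_le_pow_right hq (by omega))
      _ = (NN K A m Y).card * Fintype.card K ^ (Y + 1) := h2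
      _ ≤ 1 * Fintype.card K ^ (Y + 1) := Nat.mul_le_mul_right _ h1
      _ = Fintype.card K ^ (Y + 1) := one_mul _
  · rcases Nat.lt_or_ge (Y + 1) r with hYr | hYr
    · have h1 := Ker_small (Y := Y) (m := m) hE hρ (by omega)
      calc (NN K A Y m).card * Fintype.card K ^ (g + 1)
          ≤ 1 * Fintype.card K ^ (g + 1) := Nat.mul_le_mul_right _ h1
        _ = Fintype.card K ^ (g + 1) := one_mul _
        _ ≤ Fintype.card K ^ (Y + 1) := Nat.pow_le_pow_right hq (by omega)
    · obtain ⟨b, hb0, hbr, hbk⟩ := hρ.1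
      have hsub : NN K A m Y ⊆ (SS K (m - r)).image (fun y' => b * y') := by
        intro z hz
        rw [Ker_mem] at hz
        rw [Finset.mem_image]
        by_cases hz0 : z = 0
        · exact ⟨0, zero_mem_SS _, by rw [mul_zero, hz0]⟩
        · have hk : Kill A E z m := by
            intro w hw
            exact hz.2 w (by omega)
          obtain ⟨y', hy', hdeg⟩ := rho_dvd hρ hb0 hbr hbk hz0 hz.1 hk (by omega)
          exact ⟨y', mem_SS.2 (by omega), hy'.symm⟩
      have h1 : (NN K A m Y).card ≤ Fintype.card K ^ (m - r + 1) := by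
        refine (Finset.card_le_card hsub).trans (Finset.card_image_le.trans ?_)
        rw [card_SS]
      have h2 := Ker_dual A Y m
      have h3 : Fintype.card K ^ (m + 1) = Fintype.card K ^ r * Fintype.card K ^ (m - r + 1) := by
        rw [← pow_add]
        congr 1
        omega
      have h4 : (NN K A Y m).card * Fintype.card K ^ r * Fintype.card K ^ (m - r + 1) ≤
          Fintype.card K ^ (Y + 1) * Fintype.card K ^ (m - r + 1) := by
        rw [mul_assoc, ← h3, h2, mul_comm (Fintype.card K ^ (Y + 1))]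
        exact Nat.mul_le_mul_right _ h1
      have h5 := Nat.le_of_mul_le_mul_right h4 (pow_pos hq _)
      exact (Nat.mul_le_mul_left _ (Nat.pow_le_pow_right hq (by omega))).trans h5

end MP_1ad228_ntD
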