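import Pool.Agent.Lib.MP_1ad228_ntD.Iso

/-! JOB LcP.  Local data at a prime `π`.

Let `v i := multiplicity of π in a i` (`a i ≠ 0`; e.g. `multiplicity π (a i)` or `emultiplicity`, `FiniteMultiplicity`), `v i ≤ k - 1` by `hfree`: `π^(v i) ∣ a i`, `¬ π^(v i + 1) ∣ a i`.  Pigeonhole: the map `v : Fin (2k+1) → range k`, `k * 2 < 2k+1`, so some `V < k` is
taken by at least three indices (`Finset.exists_lt_card_fiber_of_mul_lt_card_of_maps_to`), distinct `i1, i2, i3` (`Finset.two_lt_card`).  `a i_t = π^V * c_t`, `¬ π ∣ c_t`.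
Residue field `F := AdjoinRoot π` (`Fact (Irreducible π)`; a field; finite with `q^(natDegree π) ≥ q ≥ 16 k^6` elements: `AdjoinRoot.powerBasis`, `Module.card_eq_pow_finrank`, `Fintype.ofFinite`; or `K[X] ⧸ span {π}`); `mk π c_t ≠ 0`.
`iso3` gives `x, y, z ∈ F` not all `0`; lift them to polynomials `X, Y, Z` (`AdjoinRoot.mk_surjective`).  `u i1 = X`, `u i2 = Y`, `u i3 = Z`, `u i = 0` otherwise; `i0` the index of a nonzero coordinate: `¬ π ∣ u i0`.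
`∑ a_i u_i^k = π^V (c_1 X^k + c_2 Y^k + c_3 Z^k)` and `π` divides the bracket (`AdjoinRoot.mk_eq_zero`).  (`k ≥ 1`, so `0^k = 0`.)
If `i` is not in the triple `π ∣ u i = 0`; if it is, `π^V ∣ a i`. -/

open Polynomial MP_570bef_ntF

namespace MP_1ad228_ntD

variable {K : Type} [Field K] [Fintype K]

private theorem LcP_res (k : ℕ) (hk : 1 ≤ k) (hq : 16 * k ^ 6 ≤ Fintype.card K) (π : K[X]) (hπ : Irreducible π)
    (c1 c2 c3 : K[X]) (h1 : ¬ π ∣ c1) (h2 : ¬ π ∣ c2) (h3 : ¬ π ∣ c3) :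
    ∃ X Y Z : K[X], (¬ π ∣ X ∨ ¬ π ∣ Y ∨ ¬ π ∣ Z) ∧ π ∣ c1 * X ^ k + c2 * Y ^ k + c3 * Z ^ k := by
  classical
  haveI : Fact (Irreducible π) := ⟨hπ⟩
  haveI : Module.Finite K (AdjoinRoot π) := (AdjoinRoot.powerBasis hπ.ne_zero).finite
  haveI : Finite (AdjoinRoot π) := Module.finite_of_finite K
  letI : Fintype (AdjoinRoot π) := Fintype.ofFinite _
  have hcard : Fintype.card K ≤ Fintype.card (AdjoinRoot π) :=
    Fintype.card_le_of_injective (AdjoinRoot.of π) (AdjoinRoot.of π).injective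
  obtain ⟨x, y, z, hxyz, hz⟩ := iso3 (F := AdjoinRoot π) k hk (hq.trans hcard)
    (AdjoinRoot.mk π c1) (AdjoinRoot.mk π c2) (AdjoinRoot.mk π c3)
    (fun h => h1 (AdjoinRoot.mk_eq_zero.1 h)) (fun h => h2 (AdjoinRoot.mk_eq_zero.1 h))
    (fun h => h3 (AdjoinRoot.mk_eq_zero.1 h))
  obtain ⟨X, rfl⟩ := AdjoinRoot.mk_surjective x
  obtain ⟨Y, rfl⟩ := AdjoinRoot.mk_surjective y
  obtain ⟨Z, rfl⟩ := AdjoinRoot.mk_surjective z
  refine ⟨X, Y, Z, ?_, ?_⟩
  · rcases hxyz with h | h | h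
    · exact Or.inl (fun hd => h (AdjoinRoot.mk_eq_zero.2 hd))
    · exact Or.inr (Or.inl (fun hd => h (AdjoinRoot.mk_eq_zero.2 hd)))
    · exact Or.inr (Or.inr (fun hd => h (AdjoinRoot.mk_eq_zero.2 hd)))
  · rw [← AdjoinRoot.mk_eq_zero]
    rw [map_add, map_add, map_mul, map_mul, map_mul, map_pow, map_pow, map_pow]
    exact hz

omit [Fintype K] in
private theorem LcP_val (k : ℕ) (a π : K[X]) (h : ¬ π ^ k ∣ a) :
    ∃ v : ℕ, v < k ∧ π ^ v ∣ a ∧ ¬ π ^ (v + 1) ∣ a := by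
  classical
  have hex : ∃ n : ℕ, ¬ π ^ n ∣ a := ⟨k, h⟩
  have h0 : Nat.find hex ≠ 0 := by
    intro h0
    have := Nat.find_spec hex
    rw [h0] at this
    exact this (by simp)
  refine ⟨Nat.find hex - 1, ?_, ?_, ?_⟩
  · have := Nat.find_min' hex h
    omega
  · have := Nat.find_min hex (m := Nat.find hex - 1) (by omega)
    push Not at this
    exact this
  · have h1 : Nat.find hex - 1 + 1 = Nat.find hex := by omega
    rw [h1]
    exact Nat.find_spec hex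

omit [Fintype K] in
private theorem LcP_sum {s : ℕ} (k : ℕ) (hk : 1 ≤ k) (a : Fin s → K[X]) (i1 i2 i3 : Fin s) (h12 : i1 ≠ i2) (h13 : i1 ≠ i3)
    (h23 : i2 ≠ i3) (X Y Z : K[X]) :
    ∑ i, a i * (if i = i1 then X else if i = i2 then Y else if i = i3 then Z else 0) ^ k =
      a i1 * X ^ k + a i2 * Y ^ k + a i3 * Z ^ k := by
  classical
  rw [← Finset.sum_subset (Finset.subset_univ ({i1, i2, i3} : Finset (Fin s)))]
  · rw [Finset.sum_insert (by simp [h12, h13]), Finset.sum_insert (by simp [h23]), Finset.sum_singleton]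
    rw [if_pos rfl, if_neg h12.symm, if_pos rfl, if_neg h13.symm, if_neg h23.symm, if_pos rfl]
    ring
  · intro i _ hi
    simp only [Finset.mem_insert, Finset.mem_singleton, not_or] at hi
    rw [if_neg hi.1, if_neg hi.2.1, if_neg hi.2.2, zero_pow (by omega), mul_zero]

theorem loc_prime (k : ℕ) (hk : 1 ≤ k) (hq : 16 * k ^ 6 ≤ Fintype.card K) (a : Fin (2 * k + 1) → K[X])
    (ha : ∀ i, a i ≠ 0) (π : K[X]) (hπ : Irreducible π) (hfree : ∀ i, ¬ π ^ k ∣ a i) :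
    ∃ (V : ℕ) (u : Fin (2 * k + 1) → K[X]) (i0 : Fin (2 * k + 1)), V < k ∧
      π ^ V ∣ a i0 ∧ ¬ π ^ (V + 1) ∣ a i0 ∧ ¬ π ∣ u i0 ∧ (∀ i, π ^ V ∣ a i ∨ π ∣ u i) ∧
      π ^ (V + 1) ∣ ∑ i, a i * u i ^ k := by
  classical
  choose v hv1 hv2 hv3 using fun i => LcP_val k (a i) π (hfree i)
  obtain ⟨V, hV, hcard⟩ := Finset.exists_lt_card_fiber_of_mul_lt_card_of_maps_to
    (s := (Finset.univ : Finset (Fin (2 * k + 1)))) (t := Finset.range k) (f := v) (n := 2)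
    (fun i _ => Finset.mem_range.2 (hv1 i)) (by
      rw [Finset.card_range, Finset.card_univ, Fintype.card_fin]
      omega)
  obtain ⟨i1, hi1, i2, hi2, i3, hi3, h12, h13, h23⟩ := Finset.two_lt_card.1 hcard
  rw [Finset.mem_filter] at hi1 hi2 hi3
  have hd : ∀ i, v i = V → ∃ c : K[X], a i = π ^ V * c ∧ ¬ π ∣ c := by
    intro i hi
    obtain ⟨c, hc⟩ := hv2 i
    rw [hi] at hc
    refine ⟨c, hc, ?_⟩
    rintro ⟨d, rfl⟩
    apply hv3 i
    rw [hi, hc]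
    exact ⟨d, by ring⟩
  obtain ⟨c1, hc1, hn1⟩ := hd i1 hi1.2
  obtain ⟨c2, hc2, hn2⟩ := hd i2 hi2.2
  obtain ⟨c3, hc3, hn3⟩ := hd i3 hi3.2
  obtain ⟨X, Y, Z, hne, hdvd⟩ := LcP_res k hk hq π hπ c1 c2 c3 hn1 hn2 hn3
  have key : ∀ i0 : Fin (2 * k + 1), v i0 = V →
      ¬ π ∣ (if i0 = i1 then X else if i0 = i2 then Y else if i0 = i3 then Z else 0) →
      ∃ (V : ℕ) (u : Fin (2 * k + 1) → K[X]) (i0 : Fin (2 * k + 1)), V < k ∧
      π ^ V ∣ a i0 ∧ ¬ π ^ (V + 1) ∣ a i0 ∧ ¬ π ∣ u i0 ∧ (∀ i, π ^ V ∣ a i ∨ π ∣ u i) ∧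
      π ^ (V + 1) ∣ ∑ i, a i * u i ^ k := by
    intro i0 hv0 hi0
    refine ⟨V, fun i => if i = i1 then X else if i = i2 then Y else if i = i3 then Z else 0, i0,
      Finset.mem_range.1 hV, ?_, ?_, hi0, ?_, ?_⟩
    · rw [← hv0]; exact hv2 i0
    · rw [← hv0]; exact hv3 i0
    · intro i
      by_cases hi : v i = V
      · left
        rw [← hi]
        exact hv2 i
      · right
        have n1 : i ≠ i1 := fun h => hi (by rw [h]; exact hi1.2)
        have n2 : i ≠ i2 := fun h => hi (by rw [h]; exact hi2.2)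
        have n3 : i ≠ i3 := fun h => hi (by rw [h]; exact hi3.2)
        simp only [n1, n2, n3, if_false]
        exact dvd_zero _
    · rw [LcP_sum k hk a i1 i2 i3 h12 h13 h23 X Y Z, hc1, hc2, hc3]
      obtain ⟨d, hd⟩ := hdvd
      refine ⟨d, ?_⟩
      calc π ^ V * c1 * X ^ k + π ^ V * c2 * Y ^ k + π ^ V * c3 * Z ^ k =
          π ^ V * (c1 * X ^ k + c2 * Y ^ k + c3 * Z ^ k) := by ring
        _ = π ^ (V + 1) * d := by rw [hd]; ring
  rcases hne with h | h | h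
  · exact key i1 hi1.2 (by rw [if_pos rfl]; exact h)
  · exact key i2 hi2.2 (by rw [if_neg h12.symm, if_pos rfl]; exact h)
  · exact key i3 hi3.2 (by rw [if_neg h13.symm, if_neg h23.symm, if_pos rfl]; exact h)

end MP_1ad228_ntD
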