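import Pool.Agent.Lib.MP_1ad228_ntD.Core

/-! Points of diagonal equations over `K(t)`.  `F := RatFunc K`.

`core_many` (`s ≥ 2k+1` variables): apply `core` to the first `2k+1` coefficients (`Fin.castLE`) and put the other variables equal to `0` (`k ≥ 1`).
`clear_den`: there are `Q ≠ 0` in `K[X]` and `b i ∈ K[X]`, `b i ≠ 0`, with `algebraMap Q * a i = algebraMap (b i)`.
`point_rat`: `q ≥ Q0 k`: `core_many` for the `b i`, map to `F` (`RatFunc.algebraMap_injective`), `∑ b_i x_i^k = Q ∑ a_i x_i^k`. -/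

open Polynomial

namespace MP_1ad228_ntD

theorem core_many {K : Type} [Field K] [Fintype K] (k s : ℕ) (hk : 1 ≤ k)
    (hchar : ∀ i : ℕ, 1 ≤ i → i ≤ k → (i : K) ≠ 0) (hq : Q0 k ≤ Fintype.card K) (hs : 2 * k + 1 ≤ s)
    (a : Fin s → K[X]) (ha : ∀ i, a i ≠ 0) : ∃ x : Fin s → K[X], x ≠ 0 ∧ ∑ i, a i * x i ^ k = 0 := by
  classical
  obtain ⟨r, rfl⟩ := Nat.exists_eq_add_of_le hs
  obtain ⟨x, hx, h0⟩ := core k hk hchar hq (fun i => a (Fin.castAdd r i)) (fun i => ha _)
  refine ⟨Fin.append x (fun _ => 0), ?_, ?_⟩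
  · intro h
    apply hx
    funext i
    have := congrFun h (Fin.castAdd r i)
    rw [Fin.append_left] at this
    exact this
  · rw [Fin.sum_univ_add]
    simp only [Fin.append_left, Fin.append_right]
    rw [h0, zero_add]
    apply Finset.sum_eq_zero
    intro i _
    rw [zero_pow (by omega), mul_zero]

theorem clear_den {K : Type} [Field K] (s : ℕ) (a : Fin s → RatFunc K) (ha : ∀ i, a i ≠ 0) :
    ∃ (Q : K[X]) (b : Fin s → K[X]), Q ≠ 0 ∧ (∀ i, b i ≠ 0) ∧
      ∀ i, algebraMap K[X] (RatFunc K) Q * a i = algebraMap K[X] (RatFunc K) (b i) := by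
  classical
  have hinj : Function.Injective (algebraMap K[X] (RatFunc K)) := RatFunc.algebraMap_injective K
  have hQ : (∏ j, (a j).denom) ≠ 0 := Finset.prod_ne_zero_iff.mpr (fun j _ => (a j).denom_ne_zero)
  refine ⟨∏ j, (a j).denom, fun i => (a i).num * ∏ j ∈ Finset.univ.erase i, (a j).denom, hQ, ?_, ?_⟩
  · intro i
    apply mul_ne_zero
    · exact RatFunc.num_ne_zero (ha i)
    · exact Finset.prod_ne_zero_iff.mpr (fun j _ => (a j).denom_ne_zero)
  · intro i
    rw [← Finset.mul_prod_erase Finset.univ (fun j => (a j).denom) (Finset.mem_univ i), map_mul, map_mul]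
    have h1 : algebraMap K[X] (RatFunc K) (a i).num = algebraMap K[X] (RatFunc K) (a i).denom * a i := by
      have hd : algebraMap K[X] (RatFunc K) (a i).denom ≠ 0 := by
        intro h
        exact (a i).denom_ne_zero (hinj (by rw [h, map_zero]))
      conv_rhs => rw [← RatFunc.num_div_denom (a i)]
      have h2 : algebraMap K[X] (RatFunc K) (a i).denom * (algebraMap K[X] (RatFunc K) (a i).num / algebraMap K[X] (RatFunc K) (a i).denom) = algebraMap K[X] (RatFunc K) (a i).num := by
        field_simp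
      rw [RatFunc.num_div_denom] at h2
      rw [RatFunc.num_div_denom]
      exact h2.symm
    rw [h1]
    ring

theorem point_rat {K : Type} [Field K] [Fintype K] (k s : ℕ) (hk : 1 ≤ k)
    (hchar : ∀ i : ℕ, 1 ≤ i → i ≤ k → (i : K) ≠ 0) (hq : Q0 k ≤ Fintype.card K) (hs : 2 * k + 1 ≤ s)
    (a : Fin s → RatFunc K) (ha : ∀ i, a i ≠ 0) :
    ∃ x : Fin s → RatFunc K, x ≠ 0 ∧ ∑ i, a i * x i ^ k = 0 := by
  obtain ⟨Q, b, hQ, hb, hab⟩ := clear_den s a ha
  obtain ⟨x, hx, h0⟩ := core_many k s hk hchar hq hs b hb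
  have hinj : Function.Injective (algebraMap K[X] (RatFunc K)) := RatFunc.algebraMap_injective K
  refine ⟨fun i => algebraMap K[X] (RatFunc K) (x i), ?_, ?_⟩
  · intro h
    apply hx
    funext i
    have := congrFun h i
    exact hinj (by rw [Pi.zero_apply, map_zero]; exact this)
  · have hQ' : algebraMap K[X] (RatFunc K) Q ≠ 0 := by
      intro h
      exact hQ (hinj (by rw [h, map_zero]))
    have h1 := congrArg (algebraMap K[X] (RatFunc K)) h0
    rw [map_sum, map_zero] at h1
    have h2 : algebraMap K[X] (RatFunc K) Q * ∑ i, a i * (algebraMap K[X] (RatFunc K) (x i)) ^ k = 0 := by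
      rw [Finset.mul_sum, ← h1]
      apply Finset.sum_congr rfl
      intro i _
      rw [map_mul, map_pow, ← hab i]
      ring
    exact (mul_eq_zero.mp h2).resolve_left hQ'

end MP_1ad228_ntD
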