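import Pool.Agent.Lib.MP_1ad228_ntD.PtA
import Pool.Agent.Lib.MP_1ad228_ntD.Cs
import Pool.Agent.Lib.MP_1ad228_ntD.Ce

/-! JOB PtB.  Points of diagonal equations over extensions of `F := RatFunc K` of degree prime to `p`.  `clear_den` gives `Q`, `b i`.

`point_prime_to`.  `k := p ^ (padicValNat p d)`, `d = k * e`, `¬ p ∣ e` (`d ≠ 0`).  `const_ext` with `Q := Q0 k` gives `K'`, `const_emb` gives `L1`, `φ`.  The numbers `1, …, k` are nonzero in `K'` (injectivity of `K → K'`).  `core_many` over `K'` for `(b i).map (algebraMap K K')` (nonzero):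
`x' ≠ 0` with `∑ (b_i)' x'_i^k = 0`.  In `L1`: `z i := φ (x' i)`, not all zero, `∑ algebraMap F L1 (algebraMap (b i)) * z i ^ k = 0`, so `∑ algebraMap F L1 (a i) * z i ^ k = 0`.  `roots_prime_to` over `L1` with exponent `e`: `L / L1`, `y i ^ e = algebraMap L1 L (z i)`.
`L` is an `F`-algebra through `L1` (`RingHom.toAlgebra`, `IsScalarTower`), `finrank F L = finrank F L1 * finrank L1 L` (`Module.finrank_mul_finrank`) not divisible by `p`; `∑ a_i y_i^d = ∑ a_i (y_i^e)^k = 0`, and `y i = 0` implies `z i = 0` (`e ≠ 0`), so `y ≠ 0`. -/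

open Polynomial

namespace MP_1ad228_ntD

/-- `d` as a product of the `p`-part and a number prime to `p` -/
private theorem PtB_split (p : ℕ) (hp : p.Prime) (d : ℕ) (hd : 1 ≤ d) :
    ∃ e : ℕ, d = p ^ (padicValNat p d) * e ∧ ¬ p ∣ e := by
  haveI : Fact p.Prime := ⟨hp⟩
  obtain ⟨e, he⟩ := (pow_padicValNat_dvd : p ^ padicValNat p d ∣ d)
  refine ⟨e, he, fun hdvd => ?_⟩
  obtain ⟨f, hf⟩ := hdvd
  apply pow_succ_padicValNat_not_dvd (p := p) (n := d) (by omega)
  refine ⟨f, ?_⟩
  rw [pow_succ]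
  conv_lhs => rw [he, hf]
  ring

/-- the point over `L1`, before the extraction of roots -/
private theorem PtB_mid (p : ℕ) (hp : p.Prime) {K : Type} [Field K] [Fintype K] (k s : ℕ) (hk : 1 ≤ k)
    (hchar : ∀ i : ℕ, 1 ≤ i → i ≤ k → (i : K) ≠ 0)
    (hs : 2 * k + 1 ≤ s) (a : Fin s → RatFunc K) (ha : ∀ i, a i ≠ 0) :
    ∃ (L : Type) (_ : Field L) (_ : Algebra (RatFunc K) L), FiniteDimensional (RatFunc K) L ∧
      ¬ p ∣ Module.finrank (RatFunc K) L ∧
      ∃ z : Fin s → L, z ≠ 0 ∧ ∑ i, algebraMap (RatFunc K) L (a i) * z i ^ k = 0 := by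
  obtain ⟨K', fK', ftK', aK', hQc, hfin⟩ := const_ext p hp K (Q0 k)
  obtain ⟨L, fL, aL, hLfd, hLfin, φ, hφ, hφa⟩ := const_emb p hp K K' hfin
  obtain ⟨Q, b, hQ, hb, hab⟩ := clear_den s a ha
  have hchar' : ∀ i : ℕ, 1 ≤ i → i ≤ k → (i : K') ≠ 0 := by
    intro i h1 h2 h0
    apply hchar i h1 h2
    apply (algebraMap K K').injective
    rw [map_natCast, h0, map_zero]
  have hb' : ∀ i, (b i).map (algebraMap K K') ≠ 0 := by
    intro i h0
    exact hb i ((Polynomial.map_eq_zero _).1 h0)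
  obtain ⟨x, hx, hsum⟩ := core_many k s hk hchar' hQc hs (fun i => (b i).map (algebraMap K K')) hb'
  refine ⟨L, fL, aL, hLfd, hLfin, fun i => φ (x i), ?_, ?_⟩
  · intro h0
    apply hx
    funext i
    apply hφ
    have := congrFun h0 i
    simpa using this
  · have hQ' : algebraMap (RatFunc K) L (algebraMap K[X] (RatFunc K) Q) ≠ 0 := by
      intro h0
      apply hQ
      apply RatFunc.algebraMap_injective K
      apply (algebraMap (RatFunc K) L).injective
      rw [h0, map_zero, map_zero]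
    have hmul : algebraMap (RatFunc K) L (algebraMap K[X] (RatFunc K) Q) *
        ∑ i, algebraMap (RatFunc K) L (a i) * φ (x i) ^ k = 0 := by
      rw [Finset.mul_sum]
      have hterm : ∀ i ∈ (Finset.univ : Finset (Fin s)),
          algebraMap (RatFunc K) L (algebraMap K[X] (RatFunc K) Q) *
            (algebraMap (RatFunc K) L (a i) * φ (x i) ^ k) =
          φ ((b i).map (algebraMap K K') * x i ^ k) := by
        intro i _
        rw [map_mul, map_pow, hφa, ← hab i, map_mul]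
        ring
      rw [Finset.sum_congr rfl hterm, ← map_sum, hsum, map_zero]
    exact (mul_eq_zero.1 hmul).resolve_left hQ'

theorem point_prime_to (p : ℕ) (hp : p.Prime) {K : Type} [Field K] [Fintype K] (d s : ℕ) (hd : 1 ≤ d)
    (hchar : ∀ i : ℕ, 1 ≤ i → i ≤ p ^ (padicValNat p d) → (i : K) ≠ 0)
    (hs : 2 * p ^ (padicValNat p d) + 1 ≤ s) (a : Fin s → RatFunc K) (ha : ∀ i, a i ≠ 0) :
    ∃ (L : Type) (_ : Field L) (_ : Algebra (RatFunc K) L), FiniteDimensional (RatFunc K) L ∧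
      ¬ p ∣ Module.finrank (RatFunc K) L ∧
      ∃ x : Fin s → L, x ≠ 0 ∧ ∑ i, algebraMap (RatFunc K) L (a i) * x i ^ d = 0 := by
  obtain ⟨e, hde, he⟩ := PtB_split p hp d hd
  have hk : 1 ≤ p ^ (padicValNat p d) := Nat.one_le_iff_ne_zero.2 (pow_ne_zero _ hp.ne_zero)
  obtain ⟨L1, fL1, aL1, hfd1, hfin1, z, hz, hsum⟩ :=
    PtB_mid p hp (p ^ (padicValNat p d)) s hk hchar hs a ha
  obtain ⟨L, fL, aL, hfd2, hfin2, y, hy⟩ := roots_prime_to p hp e he L1 s z
  letI aFL : Algebra (RatFunc K) L := ((algebraMap L1 L).comp (algebraMap (RatFunc K) L1)).toAlgebra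
  haveI tow : IsScalarTower (RatFunc K) L1 L := IsScalarTower.of_algebraMap_eq (fun _ => rfl)
  refine ⟨L, fL, aFL, FiniteDimensional.trans (RatFunc K) L1 L, ?_, y, ?_, ?_⟩
  · rw [← Module.finrank_mul_finrank (RatFunc K) L1 L]
    intro h
    rcases hp.dvd_mul.1 h with h | h
    · exact hfin1 h
    · exact hfin2 h
  · intro h0
    apply hz
    have he0 : e ≠ 0 := by
      rintro rfl
      exact he (dvd_zero p)
    funext i
    apply (algebraMap L1 L).injective
    rw [← hy i, h0]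
    simp [he0]
  · have hterm : ∀ i ∈ (Finset.univ : Finset (Fin s)),
        algebraMap (RatFunc K) L (a i) * y i ^ d =
          algebraMap L1 L (algebraMap (RatFunc K) L1 (a i) * z i ^ (p ^ (padicValNat p d))) := by
      intro i _
      have h1 : y i ^ d = (y i ^ e) ^ (p ^ (padicValNat p d)) := by
        rw [← pow_mul, mul_comm e]
        exact congrArg (fun n => y i ^ n) hde
      rw [h1, hy i, map_mul, map_pow]
      rfl
    rw [Finset.sum_congr rfl hterm, ← map_sum, hsum, map_zero]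

end MP_1ad228_ntD
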