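import Mathlib

/-! JOB Rt.  Roots in extensions of degree prime to `p`.

`root_prime_to`: `P ≠ 0` (`natDegree 0 = 0`).  `P` has an irreducible factor `Q` with `¬ p ∣ natDegree Q`: otherwise `natDegree P`, the sum of the degrees of the irreducible factors (`UniqueFactorizationMonoid.normalizedFactors P`, product associated to `P`, `natDegree_multiset_prod`;
or strong induction on `natDegree P`: if `P` is not irreducible write `P = P1 P2` with positive smaller degrees, one of which is not divisible by `p`), would be divisible by `p`.  `L := AdjoinRoot Q` (`Fact (Irreducible Q)`), `finrank = natDegree Q`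
(`AdjoinRoot.powerBasis`, `PowerBasis.finrank`, `AdjoinRoot.powerBasis_dim`), `x := AdjoinRoot.root Q`: `aeval x Q = 0` (`AdjoinRoot.aeval_eq`, `AdjoinRoot.eval₂_root`), `Q ∣ P`.
`roots_prime_to`: induction on `s`.  `s = 0`: `L = F`.  `s + 1`: by induction an extension `L1` for the first `s` elements; `root_prime_to` over `L1` for `X^e - C (z_s)` (`natDegree = e`, `natDegree_X_pow_sub_C`) gives `L/L1`; make `L` an `F`-algebra by
`(algebraMap L1 L).comp (algebraMap F L1)` (`RingHom.toAlgebra`, `IsScalarTower.of_algebraMap_eq`), `FiniteDimensional.trans`, `Module.finrank_mul_finrank` and `Nat.Prime.dvd_mul`. -/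

open Polynomial

namespace MP_1ad228_ntD

private theorem Rt_factor (p : ℕ) (F : Type) [Field F] (n : ℕ) :
    ∀ (P : F[X]), P.natDegree ≤ n → ¬ p ∣ P.natDegree →
      ∃ Q : F[X], Irreducible Q ∧ ¬ p ∣ Q.natDegree ∧ Q ∣ P := by
  induction n with
  | zero =>
    intro P hn hP
    exfalso
    apply hP
    rw [Nat.le_zero.mp hn]
    exact dvd_zero p
  | succ n ih =>
    intro P hn hP
    have hP0 : P ≠ 0 := by
      intro h
      apply hP
      rw [h, natDegree_zero]
      exact dvd_zero p
    have hd0 : P.natDegree ≠ 0 := by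
      intro h
      apply hP
      rw [h]
      exact dvd_zero p
    by_cases hirr : Irreducible P
    · exact ⟨P, hirr, hP, dvd_rfl⟩
    · have hu : ¬ IsUnit P := by
        intro h
        exact hd0 (natDegree_eq_zero_of_isUnit h)
      obtain ⟨a, b, hab, ha, hb⟩ : ∃ a b : F[X], P = a * b ∧ ¬ IsUnit a ∧ ¬ IsUnit b := by
        by_contra hcon
        apply hirr
        refine ⟨hu, ?_⟩
        intro a b hab
        by_contra hno
        rw [not_or] at hno
        exact hcon ⟨a, b, hab, hno.1, hno.2⟩
      have ha0 : a ≠ 0 := by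
        intro h
        apply hP0
        rw [hab, h, zero_mul]
      have hb0 : b ≠ 0 := by
        intro h
        apply hP0
        rw [hab, h, mul_zero]
      have hda : a.natDegree ≠ 0 := by
        intro h
        apply ha
        exact isUnit_iff_degree_eq_zero.mpr (by rw [degree_eq_natDegree ha0, h]; rfl)
      have hdb : b.natDegree ≠ 0 := by
        intro h
        apply hb
        exact isUnit_iff_degree_eq_zero.mpr (by rw [degree_eq_natDegree hb0, h]; rfl)
      have hsum : P.natDegree = a.natDegree + b.natDegree := by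
        rw [hab, natDegree_mul ha0 hb0]
      by_cases hpa : p ∣ a.natDegree
      · have hpb : ¬ p ∣ b.natDegree := by
          intro h
          apply hP
          rw [hsum]
          exact dvd_add hpa h
        obtain ⟨Q, hQ, hQd, hQb⟩ := ih b (by omega) hpb
        refine ⟨Q, hQ, hQd, ?_⟩
        rw [hab]
        exact dvd_mul_of_dvd_right hQb a
      · obtain ⟨Q, hQ, hQd, hQa⟩ := ih a (by omega) hpa
        refine ⟨Q, hQ, hQd, ?_⟩
        rw [hab]
        exact dvd_mul_of_dvd_left hQa b

theorem root_prime_to (p : ℕ) (hp : p.Prime) (F : Type) [Field F] (P : F[X]) (hP : ¬ p ∣ P.natDegree) :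
    ∃ (L : Type) (_ : Field L) (_ : Algebra F L), FiniteDimensional F L ∧ ¬ p ∣ Module.finrank F L ∧
      ∃ x : L, aeval x P = 0 := by
  obtain ⟨Q, hQ, hQd, hQP⟩ := Rt_factor p F P.natDegree P le_rfl hP
  haveI : Fact (Irreducible Q) := ⟨hQ⟩
  have hfr : Module.finrank F (AdjoinRoot Q) = Q.natDegree := by
    rw [(AdjoinRoot.powerBasis hQ.ne_zero).finrank, AdjoinRoot.powerBasis_dim]
  refine ⟨AdjoinRoot Q, inferInstance, inferInstance,
    (AdjoinRoot.powerBasis hQ.ne_zero).finite, ?_, AdjoinRoot.root Q, ?_⟩
  · rw [hfr]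
    exact hQd
  · obtain ⟨R, hR⟩ := hQP
    rw [hR, map_mul, AdjoinRoot.aeval_eq, AdjoinRoot.mk_self, zero_mul]

theorem roots_prime_to (p : ℕ) (hp : p.Prime) (e : ℕ) (he : ¬ p ∣ e) (F : Type) [Field F] (s : ℕ)
    (z : Fin s → F) :
    ∃ (L : Type) (_ : Field L) (_ : Algebra F L), FiniteDimensional F L ∧ ¬ p ∣ Module.finrank F L ∧
      ∃ y : Fin s → L, ∀ i, y i ^ e = algebraMap F L (z i) := by
  induction s with
  | zero =>
    refine ⟨F, inferInstance, inferInstance, inferInstance, ?_, fun i => i.elim0, fun i => i.elim0⟩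
    rw [Module.finrank_self]
    intro h
    exact hp.one_lt.ne' (Nat.dvd_one.mp h)
  | succ s ih =>
    obtain ⟨L1, f1, a1, hfin1, hp1, y1, hy1⟩ := ih (fun i => z i.castSucc)
    letI := f1
    letI := a1
    have hdeg : ¬ p ∣ (X ^ e - C (algebraMap F L1 (z (Fin.last s))) : L1[X]).natDegree := by
      rw [natDegree_X_pow_sub_C]
      exact he
    obtain ⟨L, f2, a2, hfin2, hp2, x, hx⟩ := root_prime_to p hp L1 _ hdeg
    letI := f2
    letI := a2
    letI aF : Algebra F L := ((algebraMap L1 L).comp (algebraMap F L1)).toAlgebra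
    haveI tow : IsScalarTower F L1 L := IsScalarTower.of_algebraMap_eq (fun _ => rfl)
    haveI := hfin1
    haveI := hfin2
    have hfin : FiniteDimensional F L := FiniteDimensional.trans F L1 L
    refine ⟨L, f2, aF, hfin, ?_, Fin.snoc (fun i => algebraMap L1 L (y1 i)) x, ?_⟩
    · rw [← Module.finrank_mul_finrank F L1 L, hp.dvd_mul]
      rintro (h | h)
      · exact hp1 h
      · exact hp2 h
    · intro i
      refine Fin.lastCases ?_ (fun j => ?_) i
      · rw [Fin.snoc_last]
        have h0 : x ^ e - algebraMap L1 L (algebraMap F L1 (z (Fin.last s))) = 0 := by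
          have := hx
          rw [map_sub, map_pow, aeval_X, aeval_C] at this
          exact this
        rw [sub_eq_zero.mp h0]
        rfl
      · rw [Fin.snoc_castSucc, ← map_pow, hy1 j]
        rfl

end MP_1ad228_ntD
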