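import Pool.Agent.Lib.MP_1ad228_ntD.WnR
import Pool.Agent.Lib.MP_1ad228_ntD.DivC

/-! JOB WnC.  Number of elements of `WS A m j L`, `L ≠ 0`, `natDegree L + j m ≤ Y`.  `q = card K`.

Split `WS A m j L = {h : some h i = 0} ∪ {h : all h i ≠ 0}`.
First part: for each `i : Fin j` the tuples in `piFinset (fun _ => SS K m)` with `h i = 0` number `(q^(m+1))^(j-1)` (`Fintype.piFinset` with `{0}` at `i`: `Fintype.card_piFinset`, or compare: the set of tuples with `h i = 0` is
`piFinset (Function.update (fun _ => SS K m) i {0})`, card `= ∏ = 1 * (q^(m+1))^(j-1)`); so at most `j * (q^(m+1))^(j-1)` (`Finset.card_biUnion_le`).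
Second part: map `h ↦ G := L * ∏ h i`; `G ≠ 0`, `natDegree G ≤ Y`, `A (G y) = 0` for all `y` of degree `≤ m`, i.e. `G ∈ NN K A Y m`.  The fibre over `G` is contained in `piFinset (fun _ => (SS K m).filter (· ∣ G))` (every `h i` divides `G`), so it has at most
`(q * 2^Y)^j` elements (`card_div_le`, `Fintype.card_piFinset`).  `Finset.card_eq_sum_card_fiberwise` (or `Finset.card_le_mul_card_image`). -/

open Polynomial MP_570bef_ntF

namespace MP_1ad228_ntD

variable {K : Type} [Field K] [Fintype K]

private theorem WnC_zero (m j : ℕ) (i : Fin j) [DecidableEq K[X]] :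
    ((Fintype.piFinset (fun _ : Fin j => SS K m)).filter (fun h => h i = 0)).card ≤
      (Fintype.card K ^ (m + 1)) ^ (j - 1) := by
  classical
  have h1 : (Fintype.piFinset (fun _ : Fin j => SS K m)).filter (fun h => h i = 0) ⊆
      Fintype.piFinset (Function.update (fun _ : Fin j => SS K m) i {0}) := by
    intro h hh
    rw [Finset.mem_filter, Fintype.mem_piFinset] at hh
    rw [Fintype.mem_piFinset]
    intro l
    by_cases hl : l = i
    · subst hl
      rw [Function.update_self, Finset.mem_singleton]
      exact hh.2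
    · rw [Function.update_of_ne hl]
      exact hh.1 l
  refine (Finset.card_le_card h1).trans (le_of_eq ?_)
  rw [Fintype.card_piFinset]
  have h2 : ∀ l : Fin j, (Function.update (fun _ : Fin j => SS K m) i {0} l).card =
      if l = i then 1 else Fintype.card K ^ (m + 1) := by
    intro l
    by_cases hl : l = i
    · subst hl
      rw [Function.update_self, Finset.card_singleton, if_pos rfl]
    · rw [Function.update_of_ne hl, card_SS, if_neg hl]
  rw [Finset.prod_congr rfl fun l _ => h2 l, ← Finset.mul_prod_erase Finset.univ _ (Finset.mem_univ i),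
    if_pos rfl, one_mul]
  rw [Finset.prod_congr rfl (g := fun _ => Fintype.card K ^ (m + 1)) (fun l hl => by
    rw [if_neg (Finset.ne_of_mem_erase hl)]), Finset.prod_const, Finset.card_erase_of_mem
    (Finset.mem_univ i), Finset.card_univ, Fintype.card_fin]

theorem card_WS_le (A : K[X] →ₗ[K] K) (m j Y : ℕ) (L : K[X]) (hL : L ≠ 0) (hY : L.natDegree + j * m ≤ Y) :
    (WS A m j L).card ≤ j * (Fintype.card K ^ (m + 1)) ^ (j - 1) +
      (Fintype.card K * 2 ^ Y) ^ j * (NN K A Y m).card := by
  classical
  have hsub : WS A m j L ⊆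
      ((Finset.univ : Finset (Fin j)).biUnion fun i =>
        (Fintype.piFinset (fun _ : Fin j => SS K m)).filter (fun h => h i = 0)) ∪
      (WS A m j L).filter (fun h => ∀ i, h i ≠ 0) := by
    intro h hh
    by_cases h0 : ∀ i, h i ≠ 0
    · exact Finset.mem_union_right _ (Finset.mem_filter.2 ⟨hh, h0⟩)
    · push Not at h0
      obtain ⟨i, hi⟩ := h0
      refine Finset.mem_union_left _ (Finset.mem_biUnion.2 ⟨i, Finset.mem_univ i, ?_⟩)
      unfold WS at hh
      exact Finset.mem_filter.2 ⟨(Finset.mem_filter.1 hh).1, hi⟩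
  refine (Finset.card_le_card hsub).trans ((Finset.card_union_le _ _).trans (add_le_add ?_ ?_))
  · refine Finset.card_biUnion_le.trans ?_
    refine (Finset.sum_le_card_nsmul _ _ _ fun i _ => WnC_zero m j i).trans (le_of_eq ?_)
    rw [Finset.card_univ, Fintype.card_fin, smul_eq_mul]
  · -- the second part
    have hdeg : ∀ h ∈ (WS A m j L).filter (fun h => ∀ i, h i ≠ 0),
        (L * ∏ i, h i) ∈ NN K A Y m := by
      intro h hh
      rw [Finset.mem_filter] at hh
      obtain ⟨hh, -⟩ := hh
      unfold WS at hh
      rw [Finset.mem_filter, Fintype.mem_piFinset] at hh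
      unfold NN
      rw [Finset.mem_filter, mem_SS]
      refine ⟨?_, hh.2⟩
      refine natDegree_mul_le.trans (le_trans ?_ hY)
      refine Nat.add_le_add_left ?_ _
      refine (natDegree_prod_le _ _).trans ?_
      refine (Finset.sum_le_card_nsmul _ _ m fun i _ => mem_SS.1 (hh.1 i)).trans (le_of_eq ?_)
      rw [Finset.card_univ, Fintype.card_fin, smul_eq_mul]
    refine Finset.card_le_mul_card_image_of_maps_to hdeg _ ?_
    intro G hG
    by_cases hG0 : G = 0
    · have h1 : ((WS A m j L).filter (fun h => ∀ i, h i ≠ 0)).filter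
          (fun h => (L * ∏ i, h i) = G) = ∅ := by
        rw [Finset.filter_eq_empty_iff]
        intro h hh h2
        rw [Finset.mem_filter] at hh
        rw [hG0] at h2
        rcases mul_eq_zero.1 h2 with h3 | h3
        · exact hL h3
        · obtain ⟨i, -, hi⟩ := Finset.prod_eq_zero_iff.1 h3
          exact hh.2 i hi
      rw [h1, Finset.card_empty]
      exact Nat.zero_le _
    · have hGY : G.natDegree ≤ Y := by
        unfold NN at hG
        exact mem_SS.1 (Finset.mem_filter.1 hG).1
      have hsub2 : ((WS A m j L).filter (fun h => ∀ i, h i ≠ 0)).filter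
          (fun h => (L * ∏ i, h i) = G) ⊆
          Fintype.piFinset (fun _ : Fin j => (SS K m).filter (fun h => h ∣ G)) := by
        intro h hh
        rw [Finset.mem_filter, Finset.mem_filter] at hh
        obtain ⟨⟨hh, -⟩, hG2⟩ := hh
        unfold WS at hh
        rw [Finset.mem_filter, Fintype.mem_piFinset] at hh
        rw [Fintype.mem_piFinset]
        intro i
        rw [Finset.mem_filter]
        refine ⟨hh.1 i, ?_⟩
        rw [← hG2]
        exact (Finset.dvd_prod_of_mem h (Finset.mem_univ i)).mul_left L
      refine (Finset.card_le_card hsub2).trans ?_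
      rw [Fintype.card_piFinset]
      refine (Finset.prod_le_pow_card _ _ (Fintype.card K * 2 ^ Y) fun i _ => ?_).trans (le_of_eq ?_)
      · have h3 := card_div_le m Y G hG0 hGY
        convert h3
      · rw [Finset.card_univ, Fintype.card_fin]

end MP_1ad228_ntD
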