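import Pool.Agent.Lib.MP_1ad228_ntD.Wy
import Pool.Agent.Lib.MP_1ad228_ntD.WnC
import Pool.Agent.Lib.MP_1ad228_ntD.Ker

/-! JOB Sup.  The exponential sum at a functional of high rank.  `q = card K`, `Q = q^(m+1)`, `k = j + 1`, `Y + m = E`.

`weyl`, `card_WS_le` with `L := (j+1)! • l (j+1)`: `L ≠ 0` (`(j+1)! ≠ 0` in `K` by `hchar`: it is the product of `1, …, j+1`), `natDegree L ≤ natDegree (l (j+1))`, `natDegree (l (j+1)) + (j+1) m ≤ E` so
`natDegree L + j m ≤ E - m = Y`; and `card_NN_high` (`g ≤ m`; `g ≤ Y`: if `j ≥ 1`, `Y ≥ j m ≥ m ≥ g`).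
`‖f‖^(2^j) * q^(g+1) ≤ Q^(2^j - j) * (j Q^(j-1) q^(g+1) + (q 2^Y)^j * (|NN| q^(g+1))) ≤ Q^(2^j - j) * (j Q^(j-1) q^(g+1) + (q 2^Y)^j q^(Y+1))`. -/

open Polynomial MP_570bef_ntF

namespace MP_1ad228_ntD

variable {K : Type} [Field K] [Fintype K]

theorem Sup_fact (K : Type) [Field K] (j : ℕ) (hchar : ∀ i : ℕ, 1 ≤ i → i ≤ j → (i : K) ≠ 0) :
    ∀ n : ℕ, n ≤ j → ((n.factorial : ℕ) : K) ≠ 0 := by
  intro n
  induction n with
  | zero => intro _; simp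
  | succ n ih =>
    intro hn
    rw [Nat.factorial_succ, Nat.cast_mul]
    exact mul_ne_zero (hchar (n + 1) (by omega) hn) (ih (by omega))

theorem sup_bound {ψ : AddChar K ℂ} (hψ : ψ ≠ 1) (j m Y E r g : ℕ) (hj : 1 ≤ j) (hE : Y + m = E) (hg : g ≤ m)
    (hchar : ∀ i : ℕ, 1 ≤ i → i ≤ j + 1 → (i : K) ≠ 0) (l : ℕ → K[X]) (hl0 : l (j + 1) ≠ 0)
    (hdeg : (l (j + 1)).natDegree + (j + 1) * m ≤ E) (A : K[X] →ₗ[K] K) (hρ : IsRho A E r) (hgr : g < r) :
    ‖fs ψ (j + 1) l m A‖ ^ (2 ^ j) * (Fintype.card K : ℝ) ^ (g + 1)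
      ≤ ((Fintype.card K : ℝ) ^ (m + 1)) ^ (2 ^ j - j) *
        (j * ((Fintype.card K : ℝ) ^ (m + 1)) ^ (j - 1) * (Fintype.card K : ℝ) ^ (g + 1) +
          ((Fintype.card K : ℝ) * 2 ^ Y) ^ j * (Fintype.card K : ℝ) ^ (Y + 1)) := by
  have hf : (((j + 1).factorial : ℕ) : K) ≠ 0 := Sup_fact K (j + 1) hchar (j + 1) le_rfl
  have hLeq : (j + 1).factorial • l (j + 1) = C (((j + 1).factorial : ℕ) : K) * l (j + 1) := by
    rw [nsmul_eq_mul, ← Polynomial.C_eq_natCast]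
  have hL : (j + 1).factorial • l (j + 1) ≠ 0 := by
    rw [hLeq]
    exact mul_ne_zero (by rwa [Ne, Polynomial.C_eq_zero]) hl0
  have hLdeg : ((j + 1).factorial • l (j + 1)).natDegree = (l (j + 1)).natDegree := by
    rw [hLeq]
    exact Polynomial.natDegree_C_mul hf
  have hjm : (j + 1) * m = j * m + m := by ring
  have hY : ((j + 1).factorial • l (j + 1)).natDegree + j * m ≤ Y := by
    rw [hLdeg]
    omega
  have hgY : g ≤ Y := by
    have h1 : m ≤ j * m := Nat.le_mul_of_pos_left m (by omega)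
    omega
  have h1 := weyl hψ m j A l
  have h2 := card_WS_le A m j Y _ hL hY
  have h3 := card_NN_high Y m E r g hE hg hgY A hρ hgr
  have h2' : ((WS A m j ((j + 1).factorial • l (j + 1))).card : ℝ) ≤
      j * ((Fintype.card K : ℝ) ^ (m + 1)) ^ (j - 1) +
        ((Fintype.card K : ℝ) * 2 ^ Y) ^ j * ((NN K A Y m).card : ℝ) := by
    exact_mod_cast h2
  have h3' : ((NN K A Y m).card : ℝ) * (Fintype.card K : ℝ) ^ (g + 1) ≤
      (Fintype.card K : ℝ) ^ (Y + 1) := by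
    exact_mod_cast h3
  have hq : (0 : ℝ) ≤ (Fintype.card K : ℝ) := Nat.cast_nonneg _
  calc ‖fs ψ (j + 1) l m A‖ ^ (2 ^ j) * (Fintype.card K : ℝ) ^ (g + 1)
      ≤ (((Fintype.card K : ℝ) ^ (m + 1)) ^ (2 ^ j - j) *
        (j * ((Fintype.card K : ℝ) ^ (m + 1)) ^ (j - 1) +
          ((Fintype.card K : ℝ) * 2 ^ Y) ^ j * ((NN K A Y m).card : ℝ))) *
            (Fintype.card K : ℝ) ^ (g + 1) := by
        refine mul_le_mul_of_nonneg_right (le_trans h1 ?_) (by positivity)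
        exact mul_le_mul_of_nonneg_left h2' (by positivity)
    _ = ((Fintype.card K : ℝ) ^ (m + 1)) ^ (2 ^ j - j) *
        (j * ((Fintype.card K : ℝ) ^ (m + 1)) ^ (j - 1) * (Fintype.card K : ℝ) ^ (g + 1) +
          ((Fintype.card K : ℝ) * 2 ^ Y) ^ j *
            (((NN K A Y m).card : ℝ) * (Fintype.card K : ℝ) ^ (g + 1))) := by ring
    _ ≤ _ := by
        refine mul_le_mul_of_nonneg_left ?_ (by positivity)
        have h4 : ((Fintype.card K : ℝ) * 2 ^ Y) ^ j *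
            (((NN K A Y m).card : ℝ) * (Fintype.card K : ℝ) ^ (g + 1)) ≤
            ((Fintype.card K : ℝ) * 2 ^ Y) ^ j * (Fintype.card K : ℝ) ^ (Y + 1) :=
          mul_le_mul_of_nonneg_left h3' (by positivity)
        linarith

end MP_1ad228_ntD
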