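import Pool.Agent.Lib.MP_570bef_ntF.CFc
import Pool.Agent.Lib.MP_570bef_ntF.FoA
import Pool.Agent.Lib.MP_1ad228_ntD.Tay

/-! JOB Vp.  The exponential sum of `g` vanishes when a bad prime `π` divides the minimal killing form `b` of `A`.

`d := natDegree π ≥ 1`, `b = π * b1`, `b1 ≠ 0`, `natDegree b1 ≤ r - d`, `d ≤ r` (`natDegree b = d + natDegree b1 ≤ r`), `r ≤ m + 1`, so `r - d ≤ m`.  Put `e := m - (r - d)`.
For `z ∈ SS K e` the map `y ↦ y + b1 * z` is a permutation of `SS K m`, so `q^(e+1) * fs = ∑_{y ∈ SS m} ∑_{z ∈ SS e} ψ (A (gg k l (y + b1 z)))`.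
(1) `A (gg (y + b1 z)) = A (gg y) + A (dg y * (b1 z))` by `gg_add`: for `2 ≤ i ≤ j ≤ k` we have `l j = π * l'` so `l j * y^(j-i) * (b1 z)^i = b * (l' * y^(j-i) * b1^(i-1) * z^i)`
and, if this is not zero, the cofactor has degree at most `(natDegree (l j) - d) + (j-i) m + (i-1)(r-d) + i e`, and `natDegree (l j) + j m ≤ E`, `e + (r-d) = m`, so this is at most `E - d - (r-d) = E - r`: `hkill` gives `0`.
(2) `∑_{z ∈ SS e} ψ (A (dg y * b1 * z)) = 0` for every `y ∈ SS m` (`orth_SS` for the functional `mulF A (dg y * b1)`): otherwise `A (dg y * b1 * z) = 0` for all `z` of degree `≤ e`.  Then the functional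
`mulF A b1` on degree `≤ D1 := E - (r - d)` is killed by the form `(π, d)` (`A (b1 * π * z) = A (b * z) = 0` if `natDegree z + r ≤ E`) and by the form `(dg y, E - m)` (`dg_deg`; `natDegree z + (E - m) ≤ D1` gives
`natDegree z ≤ e`); `dg y ≡ l 1 (mod π)` (all terms with `j ≥ 2` are divisible by `π`), so `π ∤ dg y`, `dg y ≠ 0`, `IsCoprime π (dg y)` (`π` irreducible); `π` has exact degree `d`;
`d + (E - m) ≤ D1 + 1` because `r ≤ m + 1` (note `m ≤ E`, from `hdeg 1`; `r ≤ E + 1`).  `kill_of_coprime`: `A (b1 * F) = 0` for `natDegree F ≤ D1`, i.e. `Kill A E b1 (r - d)` with `r - d < r`: contradicts `hρ.2`.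
(`r ≤ m + 1 ≤ E + 1`; if `F.natDegree + (r-d) ≤ E` then `F.natDegree ≤ D1`.)
So `q^(e+1) * fs = ∑_y ψ(A (gg y)) * 0 = 0` and `fs = 0`. -/

open Polynomial MP_570bef_ntF

namespace MP_1ad228_ntD

variable {K : Type} [Field K] [Fintype K]

private theorem Vp_perm {m : ℕ} (v : K[X]) (hv : v.natDegree ≤ m) (f : K[X] → ℂ) :
    ∑ y ∈ SS K m, f (y + v) = ∑ y ∈ SS K m, f y := by
  refine Finset.sum_nbij' (fun y => y + v) (fun y => y - v) ?_ ?_ ?_ ?_ ?_
  · intro y hy
    exact add_mem_SS hy (mem_SS.2 hv)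
  · intro y hy
    exact sub_mem_SS hy (mem_SS.2 hv)
  · intro y _
    ring
  · intro y _
    ring
  · intro y _
    rfl

omit [Fintype K] in
private theorem Vp_dvd {k : ℕ} (hk : 1 ≤ k) {l : ℕ → K[X]} {π : K[X]}
    (h2 : ∀ j, 2 ≤ j → j ≤ k → π ∣ l j) (y : K[X]) (h : π ∣ dg k l y) : π ∣ l 1 := by
  have h1 : (1 : ℕ) ∈ Finset.Icc 1 k := Finset.mem_Icc.2 ⟨le_refl 1, hk⟩
  have e : dg k l y = l 1 + ∑ j ∈ (Finset.Icc 1 k).erase 1, (j : K[X]) * l j * y ^ (j - 1) := by
    unfold dg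
    rw [← Finset.add_sum_erase _ _ h1]
    simp
  have h3 : π ∣ ∑ j ∈ (Finset.Icc 1 k).erase 1, (j : K[X]) * l j * y ^ (j - 1) := by
    apply Finset.dvd_sum
    intro j hj
    rw [Finset.mem_erase, Finset.mem_Icc] at hj
    exact ((h2 j (by omega) hj.2.2).mul_left _).mul_right _
  rw [e] at h
  exact (dvd_add_left h3).1 h

theorem van_pi {ψ : AddChar K ℂ} (hψ : ψ ≠ 1) (k m E r : ℕ) (hk : 1 ≤ k) (l : ℕ → K[X])
    (hdeg : ∀ j, 1 ≤ j → j ≤ k → (l j).natDegree + j * m ≤ E) (A : K[X] →ₗ[K] K) (hρ : IsRho A E r)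
    (b : K[X]) (hb : b ≠ 0) (hbr : b.natDegree ≤ r) (hkill : Kill A E b r) (hrm : r ≤ m + 1)
    (π : K[X]) (hπ : Irreducible π) (hπb : π ∣ b) (h1 : ¬ π ∣ l 1) (h2 : ∀ j, 2 ≤ j → j ≤ k → π ∣ l j) :
    fs ψ k l m A = 0 := by
  classical
  obtain ⟨b1, hb1⟩ := hπb
  have hb10 : b1 ≠ 0 := by
    rintro rfl
    exact hb (by rw [hb1, mul_zero])
  have hπ0 : π ≠ 0 := hπ.ne_zero
  have hd1 : 1 ≤ π.natDegree := hπ.natDegree_pos
  have hbd : b.natDegree = π.natDegree + b1.natDegree := by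
    rw [hb1, Polynomial.natDegree_mul hπ0 hb10]
  obtain ⟨s, hs⟩ : ∃ s, r = s + π.natDegree := ⟨r - π.natDegree, by omega⟩
  have hb1s : b1.natDegree ≤ s := by omega
  obtain ⟨e, he⟩ : ∃ e, m = s + e := ⟨m - s, by omega⟩
  have hmE : m ≤ E := by
    have := hdeg 1 (le_refl 1) hk
    omega
  -- expansion
  have hexp : ∀ y ∈ SS K m, ∀ z ∈ SS K e,
      A (gg k l (y + b1 * z)) = A (gg k l y) + A (dg k l y * (b1 * z)) := by
    intro y hy z hz
    rw [mem_SS] at hy hz
    apply gg_add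
    intro j hj2 hjk i hi2 hij
    obtain ⟨l', hl'⟩ := h2 j hj2 hjk
    by_cases hl0 : l' = 0
    · rw [hl', hl0]
      simp
    obtain ⟨i', rfl⟩ : ∃ i', i = i' + 1 := ⟨i - 1, by omega⟩
    obtain ⟨t, rfl⟩ : ∃ t, j = i' + 1 + t := ⟨j - (i' + 1), by omega⟩
    have hld : (l (i' + 1 + t)).natDegree = π.natDegree + l'.natDegree := by
      rw [hl', Polynomial.natDegree_mul hπ0 hl0]
    have e1 : l (i' + 1 + t) * y ^ (i' + 1 + t - (i' + 1)) * (b1 * z) ^ (i' + 1) =
        b * (l' * y ^ t * b1 ^ i' * z ^ (i' + 1)) := by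
      have e0 : i' + 1 + t - (i' + 1) = t := by omega
      rw [hl', hb1, e0]
      ring
    rw [e1]
    apply hkill
    have hE := hdeg (i' + 1 + t) (by omega) hjk
    have d1 : (l' * y ^ t * b1 ^ i' * z ^ (i' + 1)).natDegree ≤
        l'.natDegree + t * m + i' * s + (i' + 1) * e := by
      have q1 : (y ^ t).natDegree ≤ t * m :=
        Polynomial.natDegree_pow_le.trans (Nat.mul_le_mul_left t hy)
      have q2 : (b1 ^ i').natDegree ≤ i' * s :=
        Polynomial.natDegree_pow_le.trans (Nat.mul_le_mul_left i' hb1s)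
      have q3 : (z ^ (i' + 1)).natDegree ≤ (i' + 1) * e :=
        Polynomial.natDegree_pow_le.trans (Nat.mul_le_mul_left (i' + 1) hz)
      have p1 : (l' * y ^ t).natDegree ≤ l'.natDegree + t * m :=
        Polynomial.natDegree_mul_le.trans (Nat.add_le_add_left q1 _)
      have p2 : (l' * y ^ t * b1 ^ i').natDegree ≤ l'.natDegree + t * m + i' * s :=
        Polynomial.natDegree_mul_le.trans (Nat.add_le_add p1 q2)
      exact Polynomial.natDegree_mul_le.trans (Nat.add_le_add p2 q3)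
    have e2 : l'.natDegree + t * m + i' * s + (i' + 1) * e + r =
        (l (i' + 1 + t)).natDegree + (i' + 1 + t) * m := by
      rw [hld, hs, he]
      ring
    omega
  -- the inner sum
  have hinner : ∀ y ∈ SS K m, ∑ z ∈ SS K e, ψ (A (dg k l y * (b1 * z))) = 0 := by
    intro y hy
    rw [mem_SS] at hy
    have e1 : ∀ z : K[X], A (dg k l y * (b1 * z)) = mulF A (dg k l y * b1) z := by
      intro z
      rw [mulF_apply, mul_assoc]
    simp only [e1]
    rw [orth_SS hψ, if_neg]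
    intro hall
    have hnd : ¬ π ∣ dg k l y := fun h => h1 (Vp_dvd hk h2 y h)
    have hdg0 : dg k l y ≠ 0 := by
      intro h
      rw [h] at hnd
      exact hnd (dvd_zero π)
    have hco : IsCoprime π (dg k l y) := (Irreducible.coprime_iff_not_dvd hπ).2 hnd
    have hk1 : Kill (mulF A b1) (E - s) π π.natDegree := by
      intro z hz
      rw [mulF_apply]
      have e2 : b1 * (π * z) = b * z := by
        rw [hb1]
        ring
      rw [e2]
      apply hkill
      omega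
    have hk2 : Kill (mulF A b1) (E - s) (dg k l y) (E - m) := by
      intro z hz
      rw [mulF_apply]
      have e2 := hall z (by omega)
      rw [mulF_apply] at e2
      rw [← e2]
      congr 1
      ring
    have hfin := kill_of_coprime hπ0 hdg0 (le_refl _) (dg_deg k m E l hdeg y hy) hco
      (Or.inl rfl) (by omega) hk1 hk2
    apply hρ.2 s (by omega) b1 hb10 hb1s
    intro z hz
    have := hfin z (by omega)
    rwa [mulF_apply] at this
  -- the double sum
  have hdouble : ∑ z ∈ SS K e, ∑ y ∈ SS K m, ψ (A (gg k l (y + b1 * z))) = 0 := by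
    rw [Finset.sum_comm]
    apply Finset.sum_eq_zero
    intro y hy
    have e1 : ∀ z ∈ SS K e, ψ (A (gg k l (y + b1 * z))) =
        ψ (A (gg k l y)) * ψ (A (dg k l y * (b1 * z))) := by
      intro z hz
      rw [hexp y hy z hz, AddChar.map_add_eq_mul]
    rw [Finset.sum_congr rfl e1, ← Finset.mul_sum, hinner y hy, mul_zero]
  have hconst : ∑ z ∈ SS K e, ∑ y ∈ SS K m, ψ (A (gg k l (y + b1 * z))) =
      ((SS K e).card : ℂ) * fs ψ k l m A := by
    have e1 : ∀ z ∈ SS K e, ∑ y ∈ SS K m, ψ (A (gg k l (y + b1 * z))) = fs ψ k l m A := by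
      intro z hz
      rw [mem_SS] at hz
      have hv : (b1 * z).natDegree ≤ m := by
        have := Polynomial.natDegree_mul_le (p := b1) (q := z)
        omega
      exact Vp_perm (b1 * z) hv (fun y => ψ (A (gg k l y)))
    rw [Finset.sum_congr rfl e1, Finset.sum_const, nsmul_eq_mul]
  rw [hconst] at hdouble
  rcases mul_eq_zero.1 hdouble with h | h
  · exfalso
    rw [card_SS] at h
    have hq : (Fintype.card K) ^ (e + 1) ≠ 0 := pow_ne_zero _ Fintype.card_ne_zero
    exact hq (by exact_mod_cast h)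
  · exact h

end MP_1ad228_ntD
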