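import Pool.Agent.Lib.MP_1ad228_ntD.Defs

/-! JOB WnR.  Recursion for `WS`.

`WS_zero`: the only tuple of length `0` is the empty one, the product is `1`; so the set is `{![]}` if `A (L * y) = 0` for all `y` of degree `≤ m`, else empty.
`WS_succ`: `(h_0, …, h_j) ↦ (h_0, (h_1, …, h_j))`: `∏_{i : Fin (j+1)} h_i = h_0 * ∏ tail` (`Fin.prod_univ_succ`), `L * (h_0 * P) * y = (L * h_0) * P * y`.  E.g. `Finset.card_eq_sum_card_fiberwise` with `f h = h 0`, and for each
`h_0 ∈ SS K m` a bijection of the fibre with `WS A m j (L * h_0)` by `Fin.tail` / `Fin.cons h_0`. -/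

open Polynomial MP_570bef_ntF

namespace MP_1ad228_ntD

variable {K : Type} [Field K] [Fintype K]

theorem mem_WS {A : K[X] →ₗ[K] K} {m j : ℕ} {L : K[X]} {h : Fin j → K[X]} :
    h ∈ WS A m j L ↔ (∀ i, (h i).natDegree ≤ m) ∧ ∀ y : K[X], y.natDegree ≤ m → A (L * (∏ i, h i) * y) = 0 := by
  classical
  unfold WS
  rw [Finset.mem_filter, Fintype.mem_piFinset]
  simp only [mem_SS]

open Classical in
theorem WS_zero (A : K[X] →ₗ[K] K) (m : ℕ) (L : K[X]) :
    (WS A m 0 L).card = if ∀ y : K[X], y.natDegree ≤ m → A (L * y) = 0 then 1 else 0 := by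
  by_cases hA : ∀ y : K[X], y.natDegree ≤ m → A (L * y) = 0
  · rw [if_pos hA]
    have e : WS A m 0 L = {Fin.elim0} := by
      ext h
      rw [mem_WS, Finset.mem_singleton]
      constructor
      · intro _
        exact Subsingleton.elim _ _
      · intro _
        refine ⟨fun i => i.elim0, fun y hy => ?_⟩
        rw [Finset.univ_eq_empty, Finset.prod_empty, mul_one]
        exact hA y hy
    rw [e, Finset.card_singleton]
  · rw [if_neg hA, Finset.card_eq_zero, Finset.eq_empty_iff_forall_notMem]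
    intro h hh
    rw [mem_WS] at hh
    apply hA
    intro y hy
    have h1 := hh.2 y hy
    rwa [Finset.univ_eq_empty, Finset.prod_empty, mul_one] at h1

theorem WS_succ (A : K[X] →ₗ[K] K) (m j : ℕ) (L : K[X]) :
    (WS A m (j + 1) L).card = ∑ h ∈ SS K m, (WS A m j (L * h)).card := by
  classical
  rw [← Finset.card_sigma]
  refine Finset.card_bij' (fun h _ => ⟨h 0, Fin.tail h⟩) (fun q _ => Fin.cons q.1 q.2) ?_ ?_ ?_ ?_
  · intro h hh
    rw [mem_WS] at hh
    rw [Finset.mem_sigma, mem_SS, mem_WS]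
    refine ⟨hh.1 0, fun i => hh.1 i.succ, fun y hy => ?_⟩
    have h1 := hh.2 y hy
    rw [Fin.prod_univ_succ, ← mul_assoc L] at h1
    exact h1
  · rintro ⟨a, h⟩ hq
    rw [Finset.mem_sigma, mem_SS, mem_WS] at hq
    obtain ⟨h1, h2, h3⟩ := hq
    rw [mem_WS]
    refine ⟨fun i => ?_, fun y hy => ?_⟩
    · refine Fin.cases ?_ (fun i => ?_) i
      · exact h1
      · exact h2 i
    · rw [Fin.prod_univ_succ, ← mul_assoc L]
      exact h3 y hy
  · intro h _
    exact Fin.cons_self_tail h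
  · rintro ⟨a, h⟩ _
    rfl

end MP_1ad228_ntD
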