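import Pool.Agent.Lib.MP_570bef_ntF.FoA
import Pool.Agent.Lib.MP_1ad228_ntD.WnR

/-! JOB Wy.  Weyl's inequality over `K[t]`.  `q = card K`, `Q := q^(m+1) = |SS K m|`.

`weyl_gen`: induction on `j`, for all `G`.
`j = 0`: `G = G.coeff 0 + G.coeff 1 * X` (natDegree ≤ 1), `ψ(A(G.eval y)) = ψ(A(G.coeff 0)) ψ(A(G.coeff 1 * y))`; `orth_SS` for `mulF A (G.coeff 1)`: the norm of the sum is `Q` if `A (G.coeff 1 * y) = 0` for all `y` of degree `≤ m`,
else `0`; and `(WS A m 0 L).card` is `1` resp. `0` (the empty tuple, `L = 1! • G.coeff 1`, `∏ = 1`; `WS_zero`).  Here `2^0 - 0 = 1`.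
`j → j+1`: let `f := ∑_y ψ(A(G.eval y))`, `natDegree G ≤ j + 2`.  `‖f‖² = f * conj f = ∑_{y'} ∑_{y} ψ(A(G.eval y - G.eval y')) = ∑_{h ∈ SS m} ∑_{y' ∈ SS m} ψ(A((G.eval (y'+h) - G.eval y')))` (`y = y' + h`, a bijection of `SS m`;
`conj (ψ a) = ψ (-a)`: `AddChar.map_neg_eq_conj`).  `G_h := G.comp (X + C h) - G` has natDegree `≤ j+1` and `coeff (j+1) = (j+2) • (G.coeff (j+2) * h)` (`Polynomial.taylor`, `taylor_coeff`, `hasseDeriv_coeff`; or: expand
`∑ G.coeff i * (X + C h)^i`), `G_h.eval y' = G.eval (y'+h) - G.eval y'`.  So `‖f‖² ≤ ∑_h ‖f_h‖`, and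
`‖f‖^(2^(j+1)) = (‖f‖²)^(2^j) ≤ (∑_h ‖f_h‖)^(2^j) ≤ Q^(2^j - 1) ∑_h ‖f_h‖^(2^j)` (`inner_mul_le_norm_mul_norm`/`Finset.inner_le..`; use `inner_le_nnorm_mul_nnorm`.. simplest: `Finset.pow_sum_le`? — the power mean inequality is
`inner` free: `Real.inner_le_Lp_mul_Lq` or `Finset.sum_pow_le_pow_mul_sum_pow`/`pow_arith_mean_le_arith_mean_pow`; Mathlib: `inner_mul_le_norm_mul_norm`, `Finset.inner_mul_le_norm_mul_norm`, `Real.pow_sum_div_card_le_sum_pow :
(∑ x ∈ s, f x) ^ (n+1) / s.card ^ n ≤ ∑ x ∈ s, f x ^ (n+1)` — take `n + 1 = 2^j`), and by induction `‖f_h‖^(2^j) ≤ Q^(2^j - j) * (WS A m j ((j+1)! • G_h.coeff (j+1))).card`.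
`(j+1)! • ((j+2) • (G.coeff (j+2) * h)) = ((j+2)! • G.coeff (j+2)) * h`, and `WS_succ` : `(WS A m (j+1) L).card = ∑_{h ∈ SS m} (WS A m j (L * h)).card`.  Exponents: `(2^j - 1) + (2^j - j) = 2^(j+1) - (j+1)` (`j + 1 ≤ 2^j`: `Nat.lt_two_pow_self`).
`weyl`: `G := ∑_{i ∈ Icc 1 (j+1)} C (l i) * X^i`: `G.eval y = gg (j+1) l y`, `natDegree G ≤ j + 1`, `G.coeff (j+1) = l (j+1)`. -/

open Polynomial MP_570bef_ntF

namespace MP_1ad228_ntD

variable {K : Type} [Field K] [Fintype K]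

private theorem Wy_shift {M : Type*} [AddCommMonoid M] {m : ℕ} {y : K[X]} (hy : y ∈ SS K m) (F : K[X] → M) :
    ∑ x ∈ SS K m, F x = ∑ h ∈ SS K m, F (y + h) := by
  refine Finset.sum_bij' (fun x _ => x - y) (fun h _ => y + h) ?_ ?_ ?_ ?_ ?_
  · intro x hx
    exact sub_mem_SS hx hy
  · intro h hh
    exact add_mem_SS hy hh
  · intro x _
    ring
  · intro h _
    ring
  · intro x _
    congr 1
    ring

omit [Fintype K] in
private theorem Wy_coeff_top (G : K[X][X]) (h : K[X]) (d n : ℕ) (hG : G.natDegree ≤ d) (hn : d ≤ n) :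
    (taylor h G).coeff n = G.coeff n := by
  rw [taylor_coeff]
  have h1 : (hasseDeriv n G).natDegree = 0 := by
    have := natDegree_hasseDeriv_le G n
    omega
  rw [eq_C_of_natDegree_eq_zero h1, eval_C, hasseDeriv_coeff, zero_add, Nat.choose_self,
    Nat.cast_one, one_mul]

omit [Fintype K] in
private theorem Wy_coeff_sub (G : K[X][X]) (h : K[X]) (d : ℕ) (hG : G.natDegree ≤ d + 1) :
    (taylor h G).coeff d = (d + 1 : ℕ) * G.coeff (d + 1) * h + G.coeff d := by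
  rw [taylor_coeff]
  have h1 : (hasseDeriv d G).natDegree ≤ 1 := by
    have := natDegree_hasseDeriv_le G d
    omega
  rw [eq_X_add_C_of_natDegree_le_one h1, eval_add, eval_mul, eval_C, eval_X, eval_C,
    hasseDeriv_coeff, hasseDeriv_coeff, zero_add, Nat.choose_self, Nat.cast_one, one_mul, add_comm 1 d,
    Nat.choose_succ_self_right]

private theorem Wy_sq {ψ : AddChar K ℂ} (m : ℕ) (A : K[X] →ₗ[K] K) (G : K[X][X]) :
    ‖∑ y ∈ SS K m, ψ (A (G.eval y))‖ ^ 2 ≤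
      ∑ h ∈ SS K m, ‖∑ y ∈ SS K m, ψ (A ((taylor h G - G).eval y))‖ := by
  set f := ∑ y ∈ SS K m, ψ (A (G.eval y)) with hf
  have h1 : f * (starRingEnd ℂ) f =
      ∑ h ∈ SS K m, ∑ y ∈ SS K m, ψ (A ((taylor h G - G).eval y)) := by
    have h2 : (starRingEnd ℂ) f = ∑ y ∈ SS K m, ψ (-(A (G.eval y))) := by
      rw [hf, map_sum]
      refine Finset.sum_congr rfl fun y _ => ?_
      rw [AddChar.map_neg_eq_conj]
    rw [h2, hf, Finset.sum_mul_sum, Finset.sum_comm]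
    rw [Finset.sum_comm (s := SS K m) (t := SS K m)
      (f := fun h y => ψ (A ((taylor h G - G).eval y)))]
    refine Finset.sum_congr rfl fun y hy => ?_
    rw [Wy_shift hy (fun x => ψ (A (G.eval x)) * ψ (-(A (G.eval y))))]
    refine Finset.sum_congr rfl fun h _ => ?_
    rw [← AddChar.map_add_eq_mul, eval_sub, taylor_eval, map_sub, sub_eq_add_neg]
  have h3 : ‖f‖ ^ 2 = ‖f * (starRingEnd ℂ) f‖ := by
    rw [norm_mul, RCLike.norm_conj, sq]
  rw [h3, h1]
  exact norm_sum_le _ _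

theorem weyl_gen {ψ : AddChar K ℂ} (hψ : ψ ≠ 1) (m : ℕ) (A : K[X] →ₗ[K] K) (j : ℕ) :
    ∀ G : K[X][X], G.natDegree ≤ j + 1 →
      ‖∑ y ∈ SS K m, ψ (A (G.eval y))‖ ^ (2 ^ j)
        ≤ ((Fintype.card K : ℝ) ^ (m + 1)) ^ (2 ^ j - j) *
          ((WS A m j ((j + 1).factorial • G.coeff (j + 1))).card : ℝ) := by
  classical
  induction j with
  | zero =>
    intro G hG
    rw [pow_zero, pow_one, Nat.sub_zero, pow_one, zero_add, Nat.factorial_one, one_smul, WS_zero]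
    have h1 : ∀ y : K[X], ψ (A (G.eval y)) = ψ (mulF A (G.coeff 1) y) * ψ (A (G.coeff 0)) := by
      intro y
      have h0 : G.eval y = G.coeff 1 * y + G.coeff 0 := by
        have h5 : G = C (G.coeff 1) * X + C (G.coeff 0) :=
          eq_X_add_C_of_natDegree_le_one (by simpa using hG)
        have h6 := congrArg (eval y) h5
        rw [eval_add, eval_mul, eval_C, eval_X, eval_C] at h6
        exact h6
      rw [← AddChar.map_add_eq_mul, mulF_apply, ← map_add, h0]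
    have h2 : ∑ y ∈ SS K m, ψ (A (G.eval y)) =
        (∑ y ∈ SS K m, ψ (mulF A (G.coeff 1) y)) * ψ (A (G.coeff 0)) := by
      rw [Finset.sum_mul]
      exact Finset.sum_congr rfl fun y _ => h1 y
    rw [h2, norm_mul, norm_char, mul_one, orth_SS hψ]
    by_cases h3 : ∀ y : K[X], y.natDegree ≤ m → A (G.coeff 1 * y) = 0
    · have h4 : ∀ z : K[X], z.natDegree ≤ m → (mulF A (G.coeff 1)) z = 0 := h3
      rw [if_pos h4, if_pos h3, norm_pow, Complex.norm_natCast, Nat.cast_one, mul_one]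
    · have h4 : ¬ ∀ z : K[X], z.natDegree ≤ m → (mulF A (G.coeff 1)) z = 0 := h3
      rw [if_neg h4, if_neg h3, norm_zero, Nat.cast_zero, mul_zero]
  | succ j ih =>
    intro G hG
    set Q : ℝ := (Fintype.card K : ℝ) ^ (m + 1) with hQ
    have hQ0 : 0 ≤ Q := by positivity
    have hcard : ((SS K m).card : ℝ) = Q := by
      rw [card_SS]
      push_cast
      rfl
    have hQpos : 0 < Q := by
      rw [hQ]
      have : 0 < (Fintype.card K : ℝ) := by exact_mod_cast Fintype.card_pos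
      positivity
    have hj : j < 2 ^ j := Nat.lt_two_pow_self
    set F : K[X] → ℝ := fun h => ‖∑ y ∈ SS K m, ψ (A ((taylor h G - G).eval y))‖ with hF
    have h1 : ‖∑ y ∈ SS K m, ψ (A (G.eval y))‖ ^ (2 ^ (j + 1)) ≤ (∑ h ∈ SS K m, F h) ^ (2 ^ j) := by
      rw [pow_succ 2 j, mul_comm (2 ^ j) 2, pow_mul]
      exact pow_le_pow_left₀ (by positivity) (Wy_sq m A G) _
    have h2 : (∑ h ∈ SS K m, F h) ^ (2 ^ j) ≤ Q ^ (2 ^ j - 1) * ∑ h ∈ SS K m, F h ^ (2 ^ j) := by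
      have h3 := pow_sum_div_card_le_sum_pow (s := SS K m) (f := F) (fun h _ => norm_nonneg _) (2 ^ j - 1)
      have h4 : 2 ^ j - 1 + 1 = 2 ^ j := by omega
      rw [h4, hcard, div_le_iff₀ (pow_pos hQpos _)] at h3
      linarith [h3]
    have h3 : ∀ h ∈ SS K m, F h ^ (2 ^ j) ≤ Q ^ (2 ^ j - j) *
        ((WS A m j (((j + 1 + 1).factorial • G.coeff (j + 1 + 1)) * h)).card : ℝ) := by
      intro h _
      have hd : (taylor h G - G).natDegree ≤ j + 1 := by
        rw [natDegree_le_iff_coeff_eq_zero]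
        intro n hn
        rw [coeff_sub, Wy_coeff_top G h (j + 1 + 1) n hG (by omega), sub_self]
      have h4 := ih (taylor h G - G) hd
      have h5 : (j + 1).factorial • (taylor h G - G).coeff (j + 1) =
          ((j + 1 + 1).factorial • G.coeff (j + 1 + 1)) * h := by
        rw [coeff_sub, Wy_coeff_sub G h (j + 1) hG, add_sub_cancel_right,
          Nat.factorial_succ (j + 1), nsmul_eq_mul, nsmul_eq_mul]
        push_cast
        ring
      rw [h5] at h4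
      exact h4
    have h4 : (Q ^ (2 ^ j - 1)) * (Q ^ (2 ^ j - j)) = Q ^ (2 ^ (j + 1) - (j + 1)) := by
      rw [← pow_add]
      congr 1
      rw [pow_succ]
      omega
    calc ‖∑ y ∈ SS K m, ψ (A (G.eval y))‖ ^ (2 ^ (j + 1))
        ≤ Q ^ (2 ^ j - 1) * ∑ h ∈ SS K m, F h ^ (2 ^ j) := h1.trans h2
      _ ≤ Q ^ (2 ^ j - 1) * ∑ h ∈ SS K m, Q ^ (2 ^ j - j) *
          ((WS A m j (((j + 1 + 1).factorial • G.coeff (j + 1 + 1)) * h)).card : ℝ) :=
        mul_le_mul_of_nonneg_left (Finset.sum_le_sum h3) (by positivity)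
      _ = Q ^ (2 ^ (j + 1) - (j + 1)) *
          ((WS A m (j + 1) ((j + 1 + 1).factorial • G.coeff (j + 1 + 1))).card : ℝ) := by
        rw [← Finset.mul_sum, ← mul_assoc, h4, WS_succ]
        push_cast
        rfl

theorem weyl {ψ : AddChar K ℂ} (hψ : ψ ≠ 1) (m j : ℕ) (A : K[X] →ₗ[K] K) (l : ℕ → K[X]) :
    ‖fs ψ (j + 1) l m A‖ ^ (2 ^ j)
      ≤ ((Fintype.card K : ℝ) ^ (m + 1)) ^ (2 ^ j - j) *
        ((WS A m j ((j + 1).factorial • l (j + 1))).card : ℝ) := by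
  classical
  set G : K[X][X] := ∑ i ∈ Finset.Icc 1 (j + 1), C (l i) * X ^ i with hG
  have h1 : G.natDegree ≤ j + 1 := by
    rw [hG]
    refine natDegree_sum_le_of_forall_le _ _ fun i hi => ?_
    rw [Finset.mem_Icc] at hi
    exact (natDegree_C_mul_X_pow_le _ _).trans hi.2
  have h2 : ∀ y, G.eval y = gg (j + 1) l y := by
    intro y
    rw [hG, eval_finsetSum, gg]
    refine Finset.sum_congr rfl fun i _ => ?_
    rw [eval_mul, eval_C, eval_pow, eval_X]
  have h3 : G.coeff (j + 1) = l (j + 1) := by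
    rw [hG, finsetSum_coeff]
    rw [Finset.sum_eq_single (j + 1)]
    · rw [coeff_C_mul, coeff_X_pow, if_pos rfl, mul_one]
    · intro b _ hb
      rw [coeff_C_mul, coeff_X_pow, if_neg (Ne.symm hb), mul_zero]
    · intro h
      exact absurd (Finset.mem_Icc.mpr ⟨by omega, le_refl _⟩) h
  have h4 := weyl_gen hψ m A j G h1
  rw [h3] at h4
  simp only [h2] at h4
  exact h4

end MP_1ad228_ntD
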