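import Mathlib

/-! Zero-cycles of degree one on a projective hypersurface, and forms in separate sets of variables.  Definitions. -/

open Polynomial

namespace MP_1ad228_ntD

/-- a point of the projective hypersurface `Q = 0` over a finite extension `L` of `F` -/
structure Pt {F : Type} [Field F] {σ : Type} (Q : MvPolynomial σ F) where
  L : Type
  [fld : Field L]
  [alg : Algebra F L]
  [fin : FiniteDimensional F L]
  x : σ → L
  ne : x ≠ 0
  eq : MvPolynomial.aeval x Q = 0

/-- the degree `[L : F]` of a point -/
noncomputable def Pt.deg {F : Type} [Field F] {σ : Type} {Q : MvPolynomial σ F} (P : Pt Q) : ℕ :=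
  letI := P.fld
  letI := P.alg
  Module.finrank F P.L

/-- the hypersurface `Q = 0` has a zero-cycle `∑ n_i P_i` of degree `∑ n_i [L_i : F] = 1` -/
def HasCycle1 {F : Type} [Field F] {σ : Type} (Q : MvPolynomial σ F) : Prop :=
  ∃ z : List (ℤ × Pt Q), (z.map (fun t => t.1 * (t.2.deg : ℤ))).sum = 1

/-- the sum of the forms `P i`, in separate sets of variables -/
noncomputable def blk {F : Type} [Field F] {s : ℕ} (n : Fin s → ℕ) (P : (i : Fin s) → MvPolynomial (Fin (n i)) F) :
    MvPolynomial (Σ i : Fin s, Fin (n i)) F :=
  ∑ i, MvPolynomial.rename (Sigma.mk i) (P i)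

end MP_1ad228_ntD
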